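import Pool.Agent.Helper39.HL.Final

/-!
# Good colours of a colouring of pairs of nodes: definitions and closure lemmas
-/

set_option autoImplicit false

open Cardinal Set Helper2.HB Pool.Agent.Helper58.HL

namespace Pool.Agent.Helper39.HT

universe u

section defs

variable {K : Type} [LinearOrder K] {T₀ T₁ : Set (Node K)} {ι : Type}

/-- At one common level there are extensions `x a` of `p a` and, for all `b` and `q ∈ Q b`,
extensions `y b q` of `q`, such that all pairs `(x a, y b q)` have colour `i`. -/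
def HasBox (c : T₀ → T₁ → ι) {A : Type} (p : A → T₀) (Q : A → Set T₁) (i : ι) : Prop :=
  ∃ (ζ : K) (x : A → T₀) (y : A → T₁ → T₁),
    (∀ a, p a ≤ x a ∧ (x a : Node K).len = ζ) ∧
    (∀ b, ∀ q ∈ Q b, q ≤ y b q ∧ (y b q : Node K).len = ζ) ∧
    ∀ a b, ∀ q ∈ Q b, c (x a) (y b q) = i

/-- The colour `i` is good for `A` above `(t₀, t₁)`: there are nodes `p a ≥ t₀` and `r a ≥ t₁`,
`a ∈ A`, such that for all further extensions `p' a ≥ p a` and all families `Q a` of fewer than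
`κ` extensions of `r a` there is a box of colour `i`. -/
def Good (c : T₀ → T₁ → ι) (t₀ : T₀) (t₁ : T₁) (A : Type) (i : ι) : Prop :=
  ∃ (p : A → T₀) (r : A → T₁), (∀ a, t₀ ≤ p a ∧ t₁ ≤ r a) ∧
    ∀ (p' : A → T₀) (Q : A → Set T₁), (∀ a, p a ≤ p' a) →
      (∀ a, #(Q a) < #K ∧ ∀ q ∈ Q a, r a ≤ q) → HasBox c p' Q i

theorem HasBox.anti {c : T₀ → T₁ → ι} {A : Type} {p p' : A → T₀} {Q : A → Set T₁} {i : ι}
    (h : HasBox c p' Q i) (hp : ∀ a, p a ≤ p' a) : HasBox c p Q i := by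
  obtain ⟨ζ, x, y, h1, h2, h3⟩ := h
  exact ⟨ζ, x, y, fun a => ⟨(hp a).trans (h1 a).1, (h1 a).2⟩, h2, h3⟩

/-- a colour good for a large index set is good for a small one -/
theorem Good.mono {c : T₀ → T₁ → ι} {t₀ : T₀} {t₁ : T₁} {A B : Type} {i : ι}
    (h : Good c t₀ t₁ B i) (φ : A ↪ B) : Good c t₀ t₁ A i := by
  classical
  obtain ⟨p, r, h1, h2⟩ := h
  refine ⟨fun a => p (φ a), fun a => r (φ a), fun a => h1 _, fun p' Q hp' hQ => ?_⟩
  have hK : (0 : Cardinal) < #K := by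
    rw [pos_iff_ne_zero, Cardinal.mk_ne_zero_iff]
    exact ⟨(t₀ : Node K).len⟩
  obtain ⟨ζ, x, y, h3, h4, h5⟩ := h2 (Function.extend φ p' p) (Function.extend φ Q fun _ => ∅) (by
      intro b
      by_cases hb : ∃ a, φ a = b
      · obtain ⟨a, rfl⟩ := hb
        rw [φ.injective.extend_apply]
        exact hp' a
      · rw [Function.extend_apply' _ _ _ hb]) (by
      intro b
      by_cases hb : ∃ a, φ a = b
      · obtain ⟨a, rfl⟩ := hb
        rw [φ.injective.extend_apply]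
        exact hQ a
      · rw [Function.extend_apply' _ _ _ hb]
        refine ⟨by simpa using hK, fun q hq => absurd hq (notMem_empty q)⟩)
  refine ⟨ζ, fun a => x (φ a), fun a => y (φ a), fun a => ?_, fun b q hq => ?_,
    fun a b q hq => ?_⟩
  · have := h3 (φ a)
    rwa [φ.injective.extend_apply] at this
  · refine h4 (φ b) q ?_
    rw [φ.injective.extend_apply]
    exact hq
  · refine h5 (φ a) (φ b) q ?_
    rw [φ.injective.extend_apply]
    exact hq

end defs

/-- Long increasing sequences in which every term is related to all later ones. -/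
theorem closed_seq_rel {κ : Cardinal.{u}} (hκ : ℵ₀ ≤ κ) {P : Type u} [Preorder P]
    (hP : Closed κ P) {ι : Type u} [LinearOrder ι] [WellFoundedLT ι]
    (hι : ∀ i : ι, #(Iio i) < κ) (R : P → P → Prop) (hR : ∀ a b c, a ≤ b → R b c → R a c)
    (p₀ : P) (hd : ∀ p, p₀ ≤ p → ∃ p', p ≤ p' ∧ R p p') :
    ∃ g : ι → P, ∀ i, (∀ j < i, g j ≤ g i ∧ R (g j) (g i)) ∧ p₀ ≤ g i := by
  classical
  choose! ext hext1 hext2 using hd
  let F : (i : ι) → ((j : ι) → j < i → P) → P := fun i h =>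
    if H : ∃ u, p₀ ≤ u ∧ ∀ j (hj : j < i), h j hj ≤ u then ext H.choose else p₀
  let g : ι → P := (wellFounded_lt (α := ι)).fix F
  have hg : ∀ i, g i = F i (fun j _ => g j) := fun i => WellFounded.fix_eq _ _ _
  refine ⟨g, ?_⟩
  intro i
  induction i using WellFoundedLT.induction with
  | ind i ih =>
    have H : ∃ u, p₀ ≤ u ∧ ∀ j (_ : j < i), g j ≤ u := by
      let C : Set P := insert p₀ (g '' Iio i)
      have hch : IsChain (· ≤ ·) C := by
        rintro a (rfl | ⟨j, hj, rfl⟩) b (rfl | ⟨k, hk, rfl⟩) hab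
        · exact absurd rfl hab
        · exact Or.inl (ih k hk).2
        · exact Or.inr (ih j hj).2
        · rcases lt_trichotomy j k with h | h | h
          · exact Or.inl ((ih k hk).1 j h).1
          · exact absurd (by rw [h]) hab
          · exact Or.inr ((ih j hj).1 k h).1
      have hcard : #C < κ := by
        refine lt_of_le_of_lt (mk_insert_le) ?_
        refine add_lt_of_lt hκ ?_ (lt_of_lt_of_le one_lt_aleph0 hκ)
        exact lt_of_le_of_lt mk_image_le (hι i)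
      obtain ⟨u, hu⟩ := hP C ⟨p₀, mem_insert _ _⟩ hch hcard
      exact ⟨u, hu (mem_insert _ _), fun j hj => hu (mem_insert_of_mem _ ⟨j, hj, rfl⟩)⟩
    have hgi : g i = ext H.choose := by
      rw [hg i]
      exact dif_pos H
    have h1 := H.choose_spec
    refine ⟨fun j hj => ⟨?_, ?_⟩, ?_⟩
    · rw [hgi]; exact (h1.2 j hj).trans (hext1 _ h1.1)
    · rw [hgi]; exact hR _ _ _ (h1.2 j hj) (hext2 _ h1.1)
    · rw [hgi]; exact h1.1.trans (hext1 _ h1.1)

variable {κ : Cardinal.{0}}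

theorem closed_toType (hκ : κ.IsRegular) : Closed κ κ.ord.ToType := by
  intro C _ _ hcard
  obtain ⟨l, hl⟩ := exists_bound hκ hcard (fun z : C => z.1)
  exact ⟨l, fun x hx => hl ⟨x, hx⟩⟩

/-- powers below a strong limit cardinal -/
theorem pow_lt (hlim : ∀ x < κ, 2 ^ x < κ) (hκ : ℵ₀ ≤ κ) {a b : Cardinal.{0}} (ha : a < κ)
    (hb : b < κ) : a ^ b < κ := by
  have h1 : a ^ b ≤ (2 ^ a) ^ b := Cardinal.power_le_power_right (Cardinal.cantor a).le
  rw [← Cardinal.power_mul] at h1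
  exact lt_of_le_of_lt h1 (hlim _ (Cardinal.mul_lt_of_lt hκ ha hb))

/-- the nodes of `T₁` above `t₁` of length `< ζ` -/
def Low {T₁ : Set (Node κ.ord.ToType)} (t₁ : T₁) (ζ : κ.ord.ToType) : Set T₁ :=
  {s | t₁ ≤ s ∧ (s : Node κ.ord.ToType).len < ζ}

theorem card_low (hκ : κ.IsRegular) {T₁ : Set (Node κ.ord.ToType)} (h₁ : IsRegularTree T₁)
    (t₁ : T₁) (ζ : κ.ord.ToType) : #(Low t₁ ζ) < κ := by
  have h1 : #(Low t₁ ζ) ≤ #(Σ η : Iio ζ, {t // t ∈ T₁ ∧ t.len = (η : κ.ord.ToType)}) := by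
    refine Cardinal.mk_le_of_injective
      (f := fun s : Low t₁ ζ => (⟨⟨(s.1 : Node κ.ord.ToType).len, s.2.2⟩, s.1.1, s.1.2, rfl⟩ :
        Σ η : Iio ζ, {t // t ∈ T₁ ∧ t.len = (η : κ.ord.ToType)})) ?_
    intro s s' h
    have key : ∀ z w : (Σ η : Iio ζ, {t // t ∈ T₁ ∧ t.len = (η : κ.ord.ToType)}), z = w →
        (z.2 : Node κ.ord.ToType) = (w.2 : Node κ.ord.ToType) := by
      rintro z w rfl; rfl
    exact Subtype.ext (Subtype.ext (key _ _ h))
  refine lt_of_le_of_lt h1 ?_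
  rw [Cardinal.mk_sigma]
  refine Cardinal.sum_lt_of_isRegular hκ (Cardinal.mk_Iio_toType_ord_lt ζ) fun η => ?_
  have h2 := h₁.level η.1
  rwa [Cardinal.mk_ord_toType] at h2

end Pool.Agent.Helper39.HT
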