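import Pool.Agent.Helper39.HT.Basic

/-!
# The Halpern-Lauchli property and good colours in several dimensions
-/

set_option autoImplicit false

open Cardinal Set Helper2.HB Pool.Agent.Helper58.HL Pool.Agent.Helper39.HL

namespace Pool.Agent.Helper39.HT

/-- `HL(d, σ, κ)` for all `σ < κ`, for trees all of whose nodes split: for regular trees `T l`,
`l < d`, all of whose nodes split, and a colouring of the level product with fewer than `κ`
colours there are strong subtrees `T' l`, witnessed by one cofinal `A`, such that for every level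
in `A` exactly one colour `i` appears on the product of the `T' l` at this level. -/
def HLProp (κ : Cardinal.{0}) (d : ℕ) : Prop :=
  ∀ T : Fin d → Set (Node κ.ord.ToType), (∀ l, IsRegularTree (T l)) →
    (∀ l, ∀ t ∈ T l, Splits (T l) t) → ∀ ι : Type, #ι < κ →
    ∀ c : (Fin d → Node κ.ord.ToType) → ι, ∃ A : Set κ.ord.ToType, (∀ a, ∃ ζ ∈ A, a < ζ) ∧
      ∃ (T' : Fin d → Set (Node κ.ord.ToType)) (i : ι), (∀ l, IsStrongSubtree (T l) A (T' l)) ∧
        ∀ ζ ∈ A, {j | ∃ v : Fin d → Node κ.ord.ToType,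
          (∀ l, v l ∈ T' l ∧ (v l).len = ζ) ∧ c v = j} = {i}

section defs

variable {K : Type} [LinearOrder K] {d : ℕ} {T₀ : Set (Node K)} {T : Fin d → Set (Node K)}
  {ι : Type}

/-- At one common level there are extensions `x a` of `p a` and, for all `l`, `b` and
`q ∈ Q l b`, extensions `y l b q` of `q`, such that all tuples `(x a, (y l (b l) (q l))_l)` have
colour `i`. -/
def HasBoxD (c : T₀ → ((l : Fin d) → T l) → ι) {A : Type} (p : A → T₀)
    (Q : (l : Fin d) → A → Set (T l)) (i : ι) : Prop :=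
  ∃ (ζ : K) (x : A → T₀) (y : (l : Fin d) → A → T l → T l),
    (∀ a, p a ≤ x a ∧ (x a : Node K).len = ζ) ∧
    (∀ l b, ∀ q ∈ Q l b, q ≤ y l b q ∧ (y l b q : Node K).len = ζ) ∧
    ∀ (a : A) (b : Fin d → A) (q : (l : Fin d) → T l), (∀ l, q l ∈ Q l (b l)) →
      c (x a) (fun l => y l (b l) (q l)) = i

/-- The colour `i` is good for `A` above `(t₀, t)`: there are nodes `p a ≥ t₀` and
`r l a ≥ t l`, `a ∈ A`, such that for all further extensions `p' a ≥ p a` and all families
`Q l a` of fewer than `κ` extensions of `r l a` there is a box of colour `i`. -/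
def GoodD (c : T₀ → ((l : Fin d) → T l) → ι) (t₀ : T₀) (t : (l : Fin d) → T l) (A : Type)
    (i : ι) : Prop :=
  ∃ (p : A → T₀) (r : (l : Fin d) → A → T l), (∀ a, t₀ ≤ p a) ∧ (∀ l a, t l ≤ r l a) ∧
    ∀ (p' : A → T₀) (Q : (l : Fin d) → A → Set (T l)), (∀ a, p a ≤ p' a) →
      (∀ l a, #(Q l a) < #K ∧ ∀ q ∈ Q l a, r l a ≤ q) → HasBoxD c p' Q i

theorem HasBoxD.anti {c : T₀ → ((l : Fin d) → T l) → ι} {A : Type} {p p' : A → T₀}
    {Q : (l : Fin d) → A → Set (T l)} {i : ι} (h : HasBoxD c p' Q i) (hp : ∀ a, p a ≤ p' a) :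
    HasBoxD c p Q i := by
  obtain ⟨ζ, x, y, h1, h2, h3⟩ := h
  exact ⟨ζ, x, y, fun a => ⟨(hp a).trans (h1 a).1, (h1 a).2⟩, h2, h3⟩

/-- a colour good for a large index set is good for a small one -/
theorem GoodD.mono {c : T₀ → ((l : Fin d) → T l) → ι} {t₀ : T₀} {t : (l : Fin d) → T l}
    {A B : Type} {i : ι} (h : GoodD c t₀ t B i) (φ : A ↪ B) : GoodD c t₀ t A i := by
  classical
  obtain ⟨p, r, h0, h1, h2⟩ := h
  refine ⟨fun a => p (φ a), fun l a => r l (φ a), fun a => h0 _, fun l a => h1 _ _,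
    fun p' Q hp' hQ => ?_⟩
  have hK : (0 : Cardinal) < #K := by
    rw [pos_iff_ne_zero, Cardinal.mk_ne_zero_iff]
    exact ⟨(t₀ : Node K).len⟩
  obtain ⟨ζ, x, y, h3, h4, h5⟩ := h2 (Function.extend φ p' p)
    (fun l => Function.extend φ (Q l) fun _ => ∅) (by
      intro b
      by_cases hb : ∃ a, φ a = b
      · obtain ⟨a, rfl⟩ := hb
        rw [φ.injective.extend_apply]
        exact hp' a
      · rw [Function.extend_apply' _ _ _ hb]) (by
      intro l b
      by_cases hb : ∃ a, φ a = b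
      · obtain ⟨a, rfl⟩ := hb
        rw [φ.injective.extend_apply]
        exact hQ l a
      · rw [Function.extend_apply' _ _ _ hb]
        refine ⟨by simpa using hK, fun q hq => absurd hq (notMem_empty q)⟩)
  refine ⟨ζ, fun a => x (φ a), fun l a => y l (φ a), fun a => ?_, fun l b q hq => ?_,
    fun a b q hq => ?_⟩
  · have := h3 (φ a)
    rwa [φ.injective.extend_apply] at this
  · refine h4 l (φ b) q ?_
    change q ∈ Function.extend φ (Q l) (fun _ => ∅) (φ b)
    rw [φ.injective.extend_apply]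
    exact hq
  · refine h5 (φ a) (fun l => φ (b l)) q fun l => ?_
    change q l ∈ Function.extend φ (Q l) (fun _ => ∅) (φ (b l))
    rw [φ.injective.extend_apply]
    exact hq l

end defs

end Pool.Agent.Helper39.HT
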