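import Pool.Agent.Helper39.HL.Final

/-!
# Continuous enumerations of closed unbounded sets

Proof. `κ.ord.ToType` is a well-order without maximum in which fewer than `κ` elements are bounded
(`exists_bound hκ`, applied to `Iio α`, `Cardinal.mk_Iio_toType_ord_lt`). Choose `G ζ` with
`max ζ (g ζ) < G ζ` and define by well-founded recursion (`WellFounded.fix`, as in
`exists_greedy` in Helper39/HL/Strong.lean) `E α` as the least `ζ` with `ζ₀ ≤ ζ` and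
`G (E β) ≤ ζ` for all `β < α`. Then `β < α` gives `E β < G (E β) ≤ E α` and
`g (E β) < G (E β) ≤ E α`. If `ζ < E α` then, by minimality, `ζ < ζ₀` or `ζ < G (E β)` for some
`β < α`; take `β'` with `β ⋖ β'` (`exists_covBy_of_wellFoundedLT (not_isMax _)`), then
`β' ≤ α` and `ζ < G (E β) ≤ E β'`. For the least `b` the first alternative gives `E b = ζ₀`. Last
item: `ζ ≤ E ζ` (strict monotone on a well-order), take the least `γ` with `ζ < E γ` and apply the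
previous item to `γ`; `β < γ` gives `E β ≤ ζ`.
-/

set_option autoImplicit false

open Cardinal Set Helper2.HB Pool.Agent.Helper58.HL Pool.Agent.Helper39.HL

namespace Pool.Agent.Helper39.HT

variable {κ : Cardinal.{0}}

theorem exists_enum (hκ : κ.IsRegular) (g : κ.ord.ToType → κ.ord.ToType) (ζ₀ : κ.ord.ToType) :
    ∃ E : κ.ord.ToType → κ.ord.ToType, StrictMono E ∧ (∀ α, ζ₀ ≤ E α) ∧
      (∀ α β, α < β → g (E α) < E β) ∧ (∀ α ζ, ζ < E α → ζ < ζ₀ ∨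
        ∃ β β', β < α ∧ β ⋖ β' ∧ β' ≤ α ∧ ζ < E β') ∧
      (∀ b, (∀ ξ, b ≤ ξ) → E b = ζ₀) ∧
      (∀ ζ, ζ₀ ≤ ζ → ∃ β β', β ⋖ β' ∧ E β ≤ ζ ∧ ζ < E β') := by
  classical
  have hno : NoMaxOrder κ.ord.ToType := Cardinal.noMaxOrder hκ.aleph0_le
  have hG0 : ∀ ζ : κ.ord.ToType, ∃ ξ, max ζ (g ζ) < ξ := fun ζ => exists_gt _
  choose G hG using hG0
  have hG1 : ∀ ζ, ζ < G ζ := fun ζ => (le_max_left _ _).trans_lt (hG ζ)
  have hG2 : ∀ ζ, g ζ < G ζ := fun ζ => (le_max_right _ _).trans_lt (hG ζ)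
  have hwf : WellFounded ((· < ·) : κ.ord.ToType → κ.ord.ToType → Prop) := wellFounded_lt
  have hne : ∀ (α : κ.ord.ToType) (h : (β : κ.ord.ToType) → β < α → κ.ord.ToType),
      ({ζ | ζ₀ ≤ ζ ∧ ∀ β (hβ : β < α), G (h β hβ) ≤ ζ} : Set κ.ord.ToType).Nonempty := by
    intro α h
    obtain ⟨l, hl⟩ := exists_bound hκ (Cardinal.mk_Iio_toType_ord_lt α)
      (fun β : Iio α => G (h β.1 β.2))
    exact ⟨max ζ₀ l, le_max_left _ _, fun β hβ => (hl ⟨β, hβ⟩).trans (le_max_right _ _)⟩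
  let F : (α : κ.ord.ToType) → ((β : κ.ord.ToType) → β < α → κ.ord.ToType) → κ.ord.ToType :=
    fun α h => hwf.min _ (hne α h)
  let E : κ.ord.ToType → κ.ord.ToType := hwf.fix F
  have hE : ∀ α, E α = hwf.min _ (hne α (fun β _ => E β)) := fun α => WellFounded.fix_eq _ _ _
  have hmem : ∀ α, ζ₀ ≤ E α ∧ ∀ β, β < α → G (E β) ≤ E α := by
    intro α
    have h := hwf.min_mem _ (hne α (fun β _ => E β))
    rw [← hE α] at h
    exact h
  have hmin : ∀ α ζ, ζ₀ ≤ ζ → (∀ β, β < α → G (E β) ≤ ζ) → E α ≤ ζ := by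
    intro α ζ h1 h2
    rw [hE α]
    exact not_lt.1 (hwf.not_lt_min (s := {ζ | ζ₀ ≤ ζ ∧ ∀ β (hβ : β < α), G (E β) ≤ ζ}) ⟨h1, h2⟩)
  have hmono : StrictMono E := fun β α h => (hG1 _).trans_le ((hmem α).2 β h)
  have hlt : ∀ α ζ, ζ < E α → ζ < ζ₀ ∨ ∃ β β', β < α ∧ β ⋖ β' ∧ β' ≤ α ∧ ζ < E β' := by
    intro α ζ h
    by_contra hcon
    push Not at hcon
    refine absurd h (not_lt.2 (hmin α ζ hcon.1 fun β hβ => ?_))
    obtain ⟨β', hβ'⟩ := exists_covBy_of_wellFoundedLT (not_isMax β)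
    exact ((hmem β').2 β hβ'.lt).trans (hcon.2 β β' hβ hβ' (hβ'.ge_of_gt hβ))
  refine ⟨E, hmono, fun α => (hmem α).1, fun α β h => (hG2 _).trans_le ((hmem β).2 α h), hlt,
    fun b hb => le_antisymm (hmin b ζ₀ le_rfl fun β hβ => absurd hβ (not_lt.2 (hb β))) (hmem b).1,
    fun ζ hζ => ?_⟩
  have hle : ∀ ξ, ξ ≤ E ξ := fun ξ => hmono.le_apply
  have hex : ({γ | ζ < E γ} : Set κ.ord.ToType).Nonempty := by
    obtain ⟨ξ, hξ⟩ := exists_gt ζ
    exact ⟨ξ, hξ.trans_le (hle ξ)⟩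
  have h1 : ζ < E (hwf.min _ hex) := hwf.min_mem _ hex
  rcases hlt _ _ h1 with h2 | ⟨β, β', h2, h3, h4, h5⟩
  · exact absurd h2 (not_lt.2 hζ)
  · exact ⟨β, β', h3, not_lt.1 fun h6 => hwf.not_lt_min (s := {γ | ζ < E γ}) h6 h2, h5⟩

end Pool.Agent.Helper39.HT
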