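import Pool.Agent.Helper39.HT.CodeReg
import Pool.Agent.Helper39.HT.Enum
import Pool.Agent.Helper39.HT.DefD

/-!
# Boxes in powers of regular trees from the Halpern-Lauchli property
-/

set_option autoImplicit false

open Cardinal Set Helper2.HB Pool.Agent.Helper58.HL Pool.Agent.Helper39.HL

namespace Pool.Agent.Helper39.HT

variable {κ : Cardinal.{0}}

theorem exists_enc (hκ : κ.IsRegular) (hlim : ∀ x < κ, 2 ^ x < κ)
    {T : Set (Node κ.ord.ToType)} (hT : IsRegularTree T) {C : Type} (hC : #C < κ)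
    (E : κ.ord.ToType → κ.ord.ToType) (q : C → Node κ.ord.ToType) :
    ∃ enc : κ.ord.ToType → (C → Node κ.ord.ToType) → κ.ord.ToType,
      ∀ α, InjOn (enc α) (Lv T E q α) := by
  classical
  obtain ⟨b, hb⟩ := exists_least hκ
  have h1 : ∀ α, ∃ f : (C → Node κ.ord.ToType) → κ.ord.ToType, InjOn f (Lv T E q α) := by
    intro α
    have h2 : #(Lv T E q α) ≤ #κ.ord.ToType := by
      rw [Cardinal.mk_ord_toType]
      exact (card_lv hκ hlim hT hC α).le
    obtain ⟨φ⟩ := h2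
    refine ⟨fun y => if h : y ∈ Lv T E q α then φ ⟨y, h⟩ else b, fun y hy z hz hyz => ?_⟩
    simp only [dif_pos hy, dif_pos hz] at hyz
    exact congrArg Subtype.val (φ.injective hyz)
  choose enc henc using h1
  exact ⟨enc, henc⟩

/-- nodes of strong subtrees extend to all higher levels -/
theorem strong_ext {T T' : Set (Node κ.ord.ToType)} {A : Set κ.ord.ToType}
    (h : IsStrongSubtree T A T') {t : Node κ.ord.ToType} (ht : t ∈ T') {ζ : κ.ord.ToType}
    (hζ : t.len ≤ ζ) : ∃ u ∈ T', t ≤ u ∧ u.len = ζ := by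
  obtain ⟨M, hM, h1⟩ :=
    (IsChain.singleton (r := (· ≤ ·)) (a := (⟨t, ht⟩ : T'))).exists_maxChain
  have h2 : ∃ r ∈ M, ζ ≤ (r : Node κ.ord.ToType).len := by
    by_contra hcon
    push Not at hcon
    have h3 := h.branch M hM M subset_rfl fun c hc => ⟨c, hc, le_rfl⟩
    have h4 : #M ≤ #(Iio ζ) := by
      refine Cardinal.mk_le_of_injective
        (f := fun r : M => (⟨(r.1 : Node κ.ord.ToType).len, hcon _ r.2⟩ : Iio ζ)) ?_
      intro r s hrs
      have hlen : ((r : T') : Node κ.ord.ToType).len = ((s : T') : Node κ.ord.ToType).len := by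
        simpa using congrArg Subtype.val hrs
      rcases hM.isChain.total r.2 s.2 with h | h
      · exact Subtype.ext (Subtype.ext (le_antisymm h (Node.le_of_len h hlen.ge)))
      · exact Subtype.ext (Subtype.ext (le_antisymm (Node.le_of_len h hlen.le) h))
    exact absurd (h3.trans h4) (not_le.2 (hK_toType ζ))
  obtain ⟨r, hr, hrl⟩ := h2
  have h5 : (⟨t, ht⟩ : T') ∈ M := h1 rfl
  have h6 : t ≤ (r : Node κ.ord.ToType) := by
    rcases hM.isChain.total h5 hr with h | h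
    · exact h
    · exact Node.le_of_len h (hζ.trans hrl)
  exact ⟨(r : Node κ.ord.ToType).restr ζ, h.down _ r.2 _ (Node.restr_le hrl),
    Node.le_restr h6 hζ, rfl⟩

variable {n : ℕ} {T : Fin (n + 1) → Set (Node κ.ord.ToType)}

/-- the number of families of nodes of one level -/
theorem card_fam (hκ : κ.IsRegular) (hlim : ∀ x < κ, 2 ^ x < κ)
    (hT : ∀ l, IsRegularTree (T l)) {C : Type} (hC : #C < κ) (ζ : κ.ord.ToType) :
    #{s : (l : Fin (n + 1)) → C → T l // ∀ l k, (s l k : Node κ.ord.ToType).len = ζ} < κ := by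
  have h1 : #{s : (l : Fin (n + 1)) → C → T l // ∀ l k, (s l k : Node κ.ord.ToType).len = ζ} ≤
      #(Fin (n + 1) × C → Σ l : Fin (n + 1), {t // t ∈ T l ∧ t.len = ζ}) := by
    refine Cardinal.mk_le_of_injective (f := fun s z =>
      (⟨z.1, s.1 z.1 z.2, (s.1 z.1 z.2).2, s.2 z.1 z.2⟩ :
        Σ l : Fin (n + 1), {t // t ∈ T l ∧ t.len = ζ})) ?_
    intro s s' h
    refine Subtype.ext (funext fun l => funext fun k => Subtype.ext ?_)
    have h2 := congrFun h (l, k)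
    have key : ∀ z w : (Σ l : Fin (n + 1), {t // t ∈ T l ∧ t.len = ζ}), z = w →
        (z.2 : Node κ.ord.ToType) = (w.2 : Node κ.ord.ToType) := by
      rintro z w rfl; rfl
    exact key _ _ h2
  refine lt_of_le_of_lt h1 ?_
  rw [← Cardinal.power_def]
  have hfin : #(Fin (n + 1)) < κ :=
    lt_of_lt_of_le (Cardinal.lt_aleph0_of_finite _) hκ.aleph0_le
  refine pow_lt hlim hκ.aleph0_le ?_ ?_
  · rw [Cardinal.mk_sigma]
    refine Cardinal.sum_lt_of_isRegular hκ hfin fun l => ?_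
    have h2 := (hT l).level ζ
    rwa [Cardinal.mk_ord_toType] at h2
  · rw [Cardinal.mk_prod]
    simp only [Cardinal.lift_id]
    exact Cardinal.mul_lt_of_lt hκ.aleph0_le hfin hC

/-- a bound for the levels at which the nodes of level `ζ` split -/
theorem exists_splitbound (hκ : κ.IsRegular) (hT : ∀ l, IsRegularTree (T l))
    (ζ : κ.ord.ToType) : ∃ g, ∀ l, ∀ u ∈ T l, u.len = ζ → ∃ a ∈ T l, ∃ a' ∈ T l, u ≤ a ∧
      u ≤ a' ∧ a ≠ a' ∧ a.len = a'.len ∧ a.len ≤ g := by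
  have hfin : #(Fin (n + 1)) < κ :=
    lt_of_lt_of_le (Cardinal.lt_aleph0_of_finite _) hκ.aleph0_le
  have h1 : ∀ z : (Σ l : Fin (n + 1), {t // t ∈ T l ∧ t.len = ζ}), ∃ a ∈ T z.1, ∃ a' ∈ T z.1,
      z.2.1 ≤ a ∧ z.2.1 ≤ a' ∧ a ≠ a' ∧ a.len = a'.len := by
    rintro ⟨l, t, ht, htl⟩
    obtain ⟨s, -, hts, a, ha, a', ha', h2, h3, h4, -, h5⟩ := (hT l).perfect t ht
    exact ⟨a, ha, a', ha', hts.trans h2, hts.trans h3, h4, h5⟩
  choose a ha a' ha' h2 h3 h4 h5 using h1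
  have h6 : #(Σ l : Fin (n + 1), {t // t ∈ T l ∧ t.len = ζ}) < κ := by
    rw [Cardinal.mk_sigma]
    refine Cardinal.sum_lt_of_isRegular hκ hfin fun l => ?_
    have h7 := (hT l).level ζ
    rwa [Cardinal.mk_ord_toType] at h7
  obtain ⟨g, hg⟩ := exists_bound hκ h6 (fun z => (a z).len)
  refine ⟨g, fun l u hu hul => ?_⟩
  exact ⟨a ⟨l, u, hu, hul⟩, ha ⟨l, u, hu, hul⟩, a' ⟨l, u, hu, hul⟩, ha' ⟨l, u, hu, hul⟩,
    h2 ⟨l, u, hu, hul⟩, h3 ⟨l, u, hu, hul⟩, h4 ⟨l, u, hu, hul⟩, h5 ⟨l, u, hu, hul⟩,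
    hg ⟨l, u, hu, hul⟩⟩

/-- **Boxes in powers.** -/
theorem box_of_hl (hκ : κ.IsInaccessible) (hHL : HLProp κ (n + 1))
    (hT : ∀ l, IsRegularTree (T l)) {C : Type} (hC : #C < κ) [Nonempty C]
    (q : (l : Fin (n + 1)) → C → T l) {ι : Type} (hι : #ι < κ)
    (col : κ.ord.ToType → ((l : Fin (n + 1)) → C → T l) → ι) :
    ∃ (s : (l : Fin (n + 1)) → C → T l) (e : ι), (∀ l k, q l k ≤ s l k) ∧
      ∀ Q : (l : Fin (n + 1)) → Set (C → T l),
        (∀ l, #(Q l) < κ ∧ ∀ z ∈ Q l, ∀ k, s l k ≤ z k) →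
        ∀ η, ∃ ζ, η ≤ ζ ∧ ∃ y : (l : Fin (n + 1)) → (C → T l) → (C → T l),
          (∀ l, ∀ z ∈ Q l, ∀ k, z k ≤ y l z k ∧ (y l z k : Node κ.ord.ToType).len = ζ) ∧
          ∀ z : (l : Fin (n + 1)) → (C → T l), (∀ l, z l ∈ Q l) →
            col ζ (fun l => y l (z l)) = e := by
  classical
  have hreg := hκ.isRegular
  have hlim : ∀ x < κ, 2 ^ x < κ := fun x hx => hκ.isStrongLimit.isStrongPrelimit hx
  have : NoMaxOrder κ.ord.ToType := Cardinal.noMaxOrder hreg.aleph0_le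
  have hfin : #(Fin (n + 1)) < κ :=
    lt_of_lt_of_le (Cardinal.lt_aleph0_of_finite _) hreg.aleph0_le
  by_contra hcon
  push Not at hcon
  choose Q hQ η hη using hcon
  -- the function to be enumerated past
  have hg : ∀ ζ, ∃ g, ∀ (s : (l : Fin (n + 1)) → C → T l) (e : ι) (h : ∀ l k, q l k ≤ s l k),
      (∀ l k, (s l k : Node κ.ord.ToType).len = ζ) → η s e h ≤ g ∧
        ∀ l, ∀ z ∈ Q s e h l, ∀ k, (z k : Node κ.ord.ToType).len ≤ g := by
    intro ζ
    have h1 : ∀ (s : (l : Fin (n + 1)) → C → T l) (e : ι), ∃ g, ∀ h : (∀ l k, q l k ≤ s l k),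
        η s e h ≤ g ∧ ∀ l, ∀ z ∈ Q s e h l, ∀ k, (z k : Node κ.ord.ToType).len ≤ g := by
      intro s e
      by_cases h : ∀ l k, q l k ≤ s l k
      · have h2 : #(Σ l : Fin (n + 1), (Q s e h l) × C) < κ := by
          rw [Cardinal.mk_sigma]
          refine Cardinal.sum_lt_of_isRegular hreg hfin fun l => ?_
          rw [Cardinal.mk_prod]
          simp only [Cardinal.lift_id]
          exact Cardinal.mul_lt_of_lt hreg.aleph0_le (hQ s e h l).1 hC
        obtain ⟨g, hg⟩ := exists_bound hreg h2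
          (fun z : Σ l : Fin (n + 1), (Q s e h l) × C =>
            ((z.2.1 : C → T z.1) z.2.2 : Node κ.ord.ToType).len)
        refine ⟨max g (η s e h), fun _ => ⟨le_max_right _ _, fun l z hz k => ?_⟩⟩
        exact (hg ⟨l, ⟨z, hz⟩, k⟩).trans (le_max_left _ _)
      · exact ⟨ζ, fun h' => absurd h' h⟩
    choose g hg using h1
    have h3 : #({s : (l : Fin (n + 1)) → C → T l //
        ∀ l k, (s l k : Node κ.ord.ToType).len = ζ} × ι) < κ := by
      rw [Cardinal.mk_prod]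
      simp only [Cardinal.lift_id]
      exact Cardinal.mul_lt_of_lt hreg.aleph0_le (card_fam hreg hlim hT hC ζ) hι
    obtain ⟨G, hG⟩ := exists_bound hreg h3 (fun z => g z.1.1 z.2)
    refine ⟨G, fun s e h hs => ⟨(hg s e h).1.trans (hG (⟨s, hs⟩, e)), fun l z hz k =>
      ((hg s e h).2 l z hz k).trans (hG (⟨s, hs⟩, e))⟩⟩
  choose g₁ hg₁ using hg
  choose g₂ hg₂ using fun ζ => exists_splitbound hreg hT ζ
  let g : κ.ord.ToType → κ.ord.ToType := fun ζ => max (g₁ ζ) (g₂ ζ)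
  have hg : ∀ ζ (s : (l : Fin (n + 1)) → C → T l) (e : ι) (h : ∀ l k, q l k ≤ s l k),
      (∀ l k, (s l k : Node κ.ord.ToType).len = ζ) → η s e h ≤ g ζ ∧
        ∀ l, ∀ z ∈ Q s e h l, ∀ k, (z k : Node κ.ord.ToType).len ≤ g ζ := by
    intro ζ s e h hs
    have h1 := hg₁ ζ s e h hs
    exact ⟨h1.1.trans (le_max_left _ _), fun l z hz k => (h1.2 l z hz k).trans (le_max_left _ _)⟩
  -- the base level
  have hFC : #(Fin (n + 1) × C) < κ := by
    rw [Cardinal.mk_prod]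
    simp only [Cardinal.lift_id]
    exact Cardinal.mul_lt_of_lt hreg.aleph0_le hfin hC
  obtain ⟨ζ₀, hζ₀⟩ := exists_bound hreg hFC (fun z => (q z.1 z.2 : Node κ.ord.ToType).len)
  have hq' : ∀ l k, ∃ r : T l, q l k ≤ r ∧ (r : Node κ.ord.ToType).len = ζ₀ := fun l k =>
    exists_level (hT l) (q l k) ζ₀ (hζ₀ (l, k))
  choose q' hq'1 hq'2 using hq'
  obtain ⟨E, hE1, hE2, hE3, hE4, hE5, hE6⟩ := exists_enum hreg g ζ₀
  obtain ⟨b, hb⟩ := exists_least hreg
  have hcov : ∀ β : κ.ord.ToType, ∃ β', β ⋖ β' := fun β =>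
    exists_covBy_of_wellFoundedLT (not_isMax β)
  choose sc hsc using hcov
  choose enc henc using fun l => exists_enc hreg hlim (hT l) hC E
    (fun k => (q' l k : Node κ.ord.ToType))
  have hCD : ∀ l, CD (T l) E sc (fun k => (q' l k : Node κ.ord.ToType)) (enc l) b := by
    intro l
    refine ⟨hb, hsc, hE1, fun k => (q' l k).2, fun k => ?_, (hT l).down, fun α ζ hζ => ?_,
      henc l⟩
    · rw [hq'2, hE5 b hb]
    · rw [hE5 b hb]
      exact hE4 α ζ hζ
  have hCT : ∀ l, IsRegularTree (CT (T l) E sc (fun k => (q' l k : Node κ.ord.ToType))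
      (enc l) b hb) := fun l =>
    CT_regular hreg hlim (hT l) (hCD l) hC (by rw [hE5 b hb]; exact hE6)
  have hsplit : ∀ l, ∀ t ∈ CT (T l) E sc (fun k => (q' l k : Node κ.ord.ToType)) (enc l) b hb,
      Splits (CT (T l) E sc (fun k => (q' l k : Node κ.ord.ToType)) (enc l) b hb) t := by
    intro l t ht
    refine CT_splits (hT l) (hCD l) (fun α u hu hul => ?_) ht
    obtain ⟨a, ha, a', ha', h1, h2, h3, h4, h5⟩ := hg₂ (E α) l u hu hul
    have h6 : max (g₁ (E α)) (g₂ (E α)) < E (sc α) := hE3 α (sc α) (hsc α).lt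
    exact ⟨a, ha, a', ha', h1, h2, h3, h4, h5.trans ((le_max_right _ _).trans h6.le)⟩
  let D : (l : Fin (n + 1)) → Node κ.ord.ToType → C → Node κ.ord.ToType := fun l =>
    dec (T l) E sc (fun k => (q' l k : Node κ.ord.ToType)) (enc l) b hb
  let cs : (Fin (n + 1) → Node κ.ord.ToType) → ι := fun v =>
    if h : ∀ l k, D l (v l) k ∈ T l then
      col (E (v 0).len) (fun l k => ⟨D l (v l) k, h l k⟩) else col b q
  obtain ⟨A, hA, T', e, hT', hc⟩ := hHL _ hCT hsplit ι hι cs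
  obtain ⟨α, hα, -⟩ := hA b
  have he : e ∈ ({e} : Set ι) := rfl
  rw [← hc α hα] at he
  obtain ⟨v, hv, -⟩ := he
  have hvCT : ∀ l, v l ∈ CT (T l) E sc (fun k => (q' l k : Node κ.ord.ToType)) (enc l) b hb :=
    fun l => (hT' l).subset (hv l).1
  have hsp : ∀ l, D l (v l) ∈ Lv (T l) E (fun k => (q' l k : Node κ.ord.ToType)) α ∧
      v l = Cd b hb E sc (enc l) α (D l (v l)) := by
    intro l
    have h1 := dec_spec (hCD l) (hvCT l)
    rw [(hv l).2] at h1
    exact h1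
  let s : (l : Fin (n + 1)) → C → T l := fun l k => ⟨D l (v l) k, ((hsp l).1 k).1⟩
  have hq's : ∀ l k, q' l k ≤ s l k := fun l k => ((hsp l).1 k).2.1
  have hs : ∀ l k, q l k ≤ s l k := fun l k => (hq'1 l k).trans (hq's l k)
  have hsl : ∀ l k, (s l k : Node κ.ord.ToType).len = E α := fun l k => ((hsp l).1 k).2.2
  have hgs := hg (E α) s e hs hsl
  have hlt : g (E α) < E (sc α) := hE3 α (sc α) (hsc α).lt
  obtain ⟨β, hβ, hαβ⟩ := hA α
  have hsβ : sc α ≤ β := (hsc α).ge_of_gt hαβ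
  have hw : ∀ l (z : C → T l), ∃ w : Node κ.ord.ToType, z ∈ Q s e hs l →
      (w ∈ T' l ∧ w.len = β ∧ D l w ∈ Lv (T l) E (fun k => (q' l k : Node κ.ord.ToType)) β ∧
        ∀ k, (z k : Node κ.ord.ToType) ≤ D l w k) := by
    intro l z
    by_cases hz : z ∈ Q s e hs l
    · have hsz : ∀ k, s l k ≤ z k := (hQ s e hs l).2 z hz
      obtain ⟨y1, hy1, hzy⟩ := exists_lv (q := fun k => (q' l k : Node κ.ord.ToType)) (E := E)
        (α := sc α) (hT l) (fun k => (z k : Node κ.ord.ToType)) fun k =>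
          ⟨(z k).2, (hq's l k).trans (hsz k), (hgs.2 l z hz k).trans hlt.le⟩
      have hu1 := Cd_mem (hCD l) hy1
      have hle : v l ≤ Cd b hb E sc (enc l) (sc α) y1 := by
        rw [(hsp l).2]
        exact Cd_le_Cd (hCD l) (hsc α).le hy1 (hsp l).1 fun k =>
          (show (s l k : Node κ.ord.ToType) ≤ z k from hsz k).trans (hzy k)
      have hu1' : Cd b hb E sc (enc l) (sc α) y1 ∈ T' l := by
        refine (hT' l).all (v l) (hv l).1 ?_ _ hu1 hle ?_
        · rw [(hv l).2]; exact hα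
        · rw [(hv l).2]; exact hsc α
      obtain ⟨w, hw, huw, hwl⟩ := strong_ext (hT' l) hu1' (ζ := β) hsβ
      have hwCT := (hT' l).subset hw
      refine ⟨w, fun _ => ⟨hw, hwl, ?_, fun k => ?_⟩⟩
      · have h1 := (dec_spec (hCD l) hwCT).1
        rw [hwl] at h1
        exact h1
      · have h1 := dec_le (hCD l) hwCT huw k
        rw [dec_Cd (hCD l) hy1] at h1
        exact (hzy k).trans h1
    · exact ⟨v l, fun h => absurd h hz⟩
  choose w hw using hw
  let y : (l : Fin (n + 1)) → (C → T l) → (C → T l) := fun l z k =>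
    if h : D l (w l z) k ∈ T l then ⟨D l (w l z) k, h⟩ else z k
  have hy : ∀ l, ∀ z ∈ Q s e hs l, ∀ k, (y l z k : Node κ.ord.ToType) = D l (w l z) k := by
    intro l z hz k
    have h1 : D l (w l z) k ∈ T l := ((hw l z hz).2.2.1 k).1
    simp only [y, dif_pos h1]
  obtain ⟨z, hz1, hz2⟩ := hη s e hs (E β) (hgs.1.trans (hlt.le.trans (hE1.monotone hsβ))) y (by
    intro l z hz k
    refine ⟨?_, ?_⟩
    · change (z k : Node κ.ord.ToType) ≤ (y l z k : Node κ.ord.ToType)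
      rw [hy l z hz k]
      exact (hw l z hz).2.2.2 k
    · rw [hy l z hz k]
      exact ((hw l z hz).2.2.1 k).2.2)
  refine hz2 ?_
  have h1 : cs (fun l => w l (z l)) ∈ ({e} : Set ι) := by
    rw [← hc β hβ]
    exact ⟨fun l => w l (z l), fun l => ⟨(hw l _ (hz1 l)).1, (hw l _ (hz1 l)).2.1⟩, rfl⟩
  have h2 : ∀ l k, D l (w l (z l)) k ∈ T l := fun l k => ((hw l _ (hz1 l)).2.2.1 k).1
  have h3 : cs (fun l => w l (z l)) =
      col (E (w 0 (z 0)).len) (fun l k => ⟨D l (w l (z l)) k, h2 l k⟩) := dif_pos h2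
  have h4 : (fun l => y l (z l)) = fun l k => (⟨D l (w l (z l)) k, h2 l k⟩ : T l) := by
    funext l k
    exact Subtype.ext (hy l _ (hz1 l) k)
  rw [h4, ← (hw 0 _ (hz1 0)).2.1]
  exact h3.symm.trans h1

end Pool.Agent.Helper39.HT
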