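import Pool.Agent.Helper39.HT.Basic
import Pool.Agent.Helper58.HL.Univ

/-!
# Coding compressed powers of a regular tree as regular trees

`E` enumerates a closed unbounded set of levels, `q k` (`k : C`) are nodes of `T` of length `E b`,
`b` the least element. The families `y k ≥ q k` of nodes of length `E α` are the nodes of level
`α` of a regular tree.
-/

set_option autoImplicit false

open Cardinal Set Helper2.HB Pool.Agent.Helper58.HL Pool.Agent.Helper39.HL

namespace Pool.Agent.Helper39.HT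

section code

variable {K : Type} [LinearOrder K]

theorem restr_restr (u : Node K) {l l' : K} (h : l ≤ l') (h' : l' ≤ u.len) :
    (u.restr l').restr l = u.restr l :=
  (restr_eq (Node.restr_le h') h).symm

theorem restr_of_le {s u : Node K} (h : s ≤ u) : u.restr s.len = s := by
  rw [restr_eq h le_rfl, restr_self]

/-- the level `α` -/
def Lv (T : Set (Node K)) (E : K → K) {C : Type} (q : C → Node K) (α : K) : Set (C → Node K) :=
  {y | ∀ k, y k ∈ T ∧ q k ≤ y k ∧ (y k).len = E α}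

/-- restriction to the level `β` -/
def rs (E : K → K) {C : Type} (β : K) (y : C → Node K) : C → Node K :=
  fun k => (y k).restr (E β)

/-- the code of `y` in the level `α` -/
def Cd (b : K) (hb : ∀ ξ, b ≤ ξ) (E sc : K → K) {C : Type} (enc : K → (C → Node K) → K) (α : K)
    (y : C → Node K) : Node K :=
  nodeOf b hb (fun β => enc (sc β) (rs E (sc β) y)) α

structure CD (T : Set (Node K)) (E sc : K → K) {C : Type} (q : C → Node K)
    (enc : K → (C → Node K) → K) (b : K) : Prop where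
  hb : ∀ ξ, b ≤ ξ
  hsc : ∀ β, β ⋖ sc β
  mono : StrictMono E
  q_mem : ∀ k, q k ∈ T
  q_len : ∀ k, (q k).len = E b
  down : ∀ t ∈ T, ∀ s, s ≤ t → s ∈ T
  cont : ∀ α ζ, ζ < E α → ζ < E b ∨ ∃ β β', β < α ∧ β ⋖ β' ∧ β' ≤ α ∧ ζ < E β'
  inj : ∀ α, InjOn (enc α) (Lv T E q α)

variable {T : Set (Node K)} {E sc : K → K} {C : Type} {q : C → Node K}
  {enc : K → (C → Node K) → K} {b : K}

theorem rs_mem (h : CD T E sc q enc b) {α β : K} (hβ : β ≤ α) {y : C → Node K}
    (hy : y ∈ Lv T E q α) : rs E β y ∈ Lv T E q β := by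
  intro k
  have h1 : E β ≤ (y k).len := by rw [(hy k).2.2]; exact h.mono.monotone hβ
  refine ⟨h.down _ (hy k).1 _ (Node.restr_le h1), Node.le_restr (hy k).2.1 ?_, rfl⟩
  rw [h.q_len]
  exact h.mono.monotone (h.hb β)

theorem Cd_le (h : CD T E sc q enc b) {α β : K} (hβ : β ≤ α) {y : C → Node K}
    (hy : y ∈ Lv T E q α) : Cd b h.hb E sc enc β (rs E β y) ≤ Cd b h.hb E sc enc α y := by
  refine ⟨hβ, fun η hη => ?_⟩
  have hη' : η < β := hη
  rw [Cd, Cd, nodeOf_val _ _ _ _ hη', nodeOf_val _ _ _ _ (hη'.trans_le hβ)]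
  congr 1
  funext k
  refine restr_restr (y k) (h.mono.monotone ((h.hsc η).ge_of_gt hη')) ?_
  rw [(hy k).2.2]
  exact h.mono.monotone hβ

theorem Cd_inj (h : CD T E sc q enc b) {α : K} {y y' : C → Node K} (hy : y ∈ Lv T E q α)
    (hy' : y' ∈ Lv T E q α) (he : Cd b h.hb E sc enc α y = Cd b h.hb E sc enc α y') :
    y = y' := by
  funext k
  refine Node.eq_of (by rw [(hy k).2.2, (hy' k).2.2]) fun η hη => ?_
  rw [(hy k).2.2] at hη
  rcases h.cont α η hη with h1 | ⟨β, β', h1, h2, h3, h4⟩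
  · rw [← h.q_len k] at h1
    rw [← (hy k).2.1.2 η h1, ← (hy' k).2.1.2 η h1]
  · have h5 : β' = sc β := h2.unique_right (h.hsc β)
    subst h5
    have h6 := congrArg (fun t : Node K => t.val β) he
    simp only [Cd] at h6
    rw [nodeOf_val _ _ _ _ h1, nodeOf_val _ _ _ _ h1] at h6
    have h7 := h.inj (sc β) (rs_mem h h3 hy) (rs_mem h h3 hy') h6
    have h8 : (y k).restr (E (sc β)) = (y' k).restr (E (sc β)) := congrFun h7 k
    have h9 : E (sc β) ≤ (y k).len := by rw [(hy k).2.2]; exact h.mono.monotone h3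
    have h9' : E (sc β) ≤ (y' k).len := by rw [(hy' k).2.2]; exact h.mono.monotone h3
    rw [← (Node.restr_le h9).2 η h4, ← (Node.restr_le h9').2 η h4, h8]

/-- the coded tree -/
def CT (T : Set (Node K)) (E sc : K → K) (q : C → Node K) (enc : K → (C → Node K) → K) (b : K)
    (hb : ∀ ξ, b ≤ ξ) : Set (Node K) :=
  {t | ∃ y ∈ Lv T E q t.len, t = Cd b hb E sc enc t.len y}

open Classical in
/-- decoding -/
noncomputable def dec (T : Set (Node K)) (E sc : K → K) (q : C → Node K)
    (enc : K → (C → Node K) → K) (b : K) (hb : ∀ ξ, b ≤ ξ) (t : Node K) : C → Node K :=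
  if h : ∃ y ∈ Lv T E q t.len, t = Cd b hb E sc enc t.len y then h.choose else q

theorem dec_spec (h : CD T E sc q enc b) {t : Node K} (ht : t ∈ CT T E sc q enc b h.hb) :
    dec T E sc q enc b h.hb t ∈ Lv T E q t.len ∧
      t = Cd b h.hb E sc enc t.len (dec T E sc q enc b h.hb t) := by
  have h1 : dec T E sc q enc b h.hb t = Exists.choose ht := dif_pos ht
  rw [h1]
  exact Exists.choose_spec ht

theorem Cd_mem (h : CD T E sc q enc b) {α : K} {y : C → Node K} (hy : y ∈ Lv T E q α) :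
    Cd b h.hb E sc enc α y ∈ CT T E sc q enc b h.hb :=
  ⟨y, hy, rfl⟩

theorem dec_Cd (h : CD T E sc q enc b) {α : K} {y : C → Node K} (hy : y ∈ Lv T E q α) :
    dec T E sc q enc b h.hb (Cd b h.hb E sc enc α y) = y := by
  have h1 := dec_spec h (Cd_mem h hy)
  exact (Cd_inj h hy h1.1 h1.2).symm

theorem eq_of_le_le {s t u : Node K} (h1 : s ≤ u) (h2 : t ≤ u) (h3 : s.len = t.len) : s = t :=
  le_antisymm (Node.le_of_le_of_le h1 h2 h3.le) (Node.le_of_le_of_le h2 h1 h3.ge)

theorem CT_down (h : CD T E sc q enc b) {t : Node K} (ht : t ∈ CT T E sc q enc b h.hb)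
    {s : Node K} (hs : s ≤ t) : s = Cd b h.hb E sc enc s.len
      (rs E s.len (dec T E sc q enc b h.hb t)) ∧ s ∈ CT T E sc q enc b h.hb ∧
      dec T E sc q enc b h.hb s = rs E s.len (dec T E sc q enc b h.hb t) := by
  have h1 := dec_spec h ht
  have h2 := Cd_le h hs.1 h1.1
  rw [← h1.2] at h2
  have h3 : s = Cd b h.hb E sc enc s.len (rs E s.len (dec T E sc q enc b h.hb t)) :=
    eq_of_le_le hs h2 rfl
  have h4 : s ∈ CT T E sc q enc b h.hb := ⟨_, rs_mem h hs.1 h1.1, h3⟩
  refine ⟨h3, h4, ?_⟩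
  have h5 := dec_spec h h4
  exact Cd_inj h h5.1 (rs_mem h hs.1 h1.1) (h5.2.symm.trans h3)

theorem dec_le (h : CD T E sc q enc b) {s t : Node K} (ht : t ∈ CT T E sc q enc b h.hb)
    (hs : s ≤ t) (k : C) : dec T E sc q enc b h.hb s k ≤ dec T E sc q enc b h.hb t k := by
  rw [(CT_down h ht hs).2.2]
  refine Node.restr_le ?_
  rw [((dec_spec h ht).1 k).2.2]
  exact h.mono.monotone hs.1

theorem Cd_le_Cd (h : CD T E sc q enc b) {α β : K} (hβ : β ≤ α) {y z : C → Node K}
    (hy : y ∈ Lv T E q α) (hz : z ∈ Lv T E q β) (hzy : ∀ k, z k ≤ y k) :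
    Cd b h.hb E sc enc β z ≤ Cd b h.hb E sc enc α y := by
  have h1 : z = rs E β y := by
    funext k
    have h2 := restr_of_le (hzy k)
    rw [(hz k).2.2] at h2
    exact h2.symm
  rw [h1]
  exact Cd_le h hβ hy

end code

end Pool.Agent.Helper39.HT
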