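import Pool.Agent.Helper39.HT.Code

/-!
# The coded tree is regular
-/

set_option autoImplicit false

open Cardinal Set Helper2.HB Pool.Agent.Helper58.HL Pool.Agent.Helper39.HL

namespace Pool.Agent.Helper39.HT

variable {κ : Cardinal.{0}} {T : Set (Node κ.ord.ToType)} {E sc : κ.ord.ToType → κ.ord.ToType}
  {C : Type} {q : C → Node κ.ord.ToType}
  {enc : κ.ord.ToType → (C → Node κ.ord.ToType) → κ.ord.ToType} {b : κ.ord.ToType}

theorem exists_lv (hT : IsRegularTree T) {α : κ.ord.ToType} (z : C → Node κ.ord.ToType)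
    (hz : ∀ k, z k ∈ T ∧ q k ≤ z k ∧ (z k).len ≤ E α) : ∃ y ∈ Lv T E q α, ∀ k, z k ≤ y k := by
  have h1 : ∀ k, ∃ y ∈ T, y.len = E α ∧ z k ≤ y := fun k => by
    obtain ⟨r, hr1, hr2⟩ := exists_level hT ⟨z k, (hz k).1⟩ (E α) (hz k).2.2
    exact ⟨r, r.2, hr2, hr1⟩
  choose y hy1 hy2 hy3 using h1
  exact ⟨y, fun k => ⟨hy1 k, (hz k).2.1.trans (hy3 k), hy2 k⟩, hy3⟩

theorem card_lv (hκ : κ.IsRegular) (hlim : ∀ x < κ, 2 ^ x < κ) (hT : IsRegularTree T)
    (hC : #C < κ) (α : κ.ord.ToType) : #(Lv T E q α) < κ := by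
  have h1 : #(Lv T E q α) ≤ #(C → {t // t ∈ T ∧ t.len = E α}) := by
    refine Cardinal.mk_le_of_injective
      (f := fun y k => (⟨y.1 k, (y.2 k).1, (y.2 k).2.2⟩ : {t // t ∈ T ∧ t.len = E α})) ?_
    intro y y' h
    refine Subtype.ext (funext fun k => ?_)
    exact congrArg Subtype.val (congrFun h k)
  refine lt_of_le_of_lt h1 ?_
  rw [← Cardinal.power_def]
  have h2 := hT.level (E α)
  rw [Cardinal.mk_ord_toType] at h2
  exact pow_lt hlim hκ.aleph0_le h2 hC

theorem CT_ub (hT : IsRegularTree T) (h : CD T E sc q enc b) {D : Set (Node κ.ord.ToType)}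
    (hD : D ⊆ CT T E sc q enc b h.hb) (hc : IsChain (· ≤ ·) D) (l : κ.ord.ToType)
    (hl : ∀ d ∈ D, d.len ≤ l) :
    ∃ u ∈ CT T E sc q enc b h.hb, u.len = l ∧ ∀ d ∈ D, d ≤ u := by
  have key : ∀ k, ∃ y ∈ T, y.len = E l ∧ q k ≤ y ∧
      ∀ d ∈ D, dec T E sc q enc b h.hb d k ≤ y := by
    intro k
    obtain ⟨r, hr, hrl, hub⟩ := hT.ub hK_toType
      (D := insert (q k) ((fun d => dec T E sc q enc b h.hb d k) '' D)) (by
        rintro _ (rfl | ⟨d, hd, rfl⟩)
        · exact h.q_mem k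
        · exact ((dec_spec h (hD hd)).1 k).1) (by
        rintro _ (rfl | ⟨d, hd, rfl⟩) _ (rfl | ⟨d', hd', rfl⟩) hne
        · exact absurd rfl hne
        · exact Or.inl ((dec_spec h (hD hd')).1 k).2.1
        · exact Or.inr ((dec_spec h (hD hd)).1 k).2.1
        · rcases hc.total hd hd' with h1 | h1
          · exact Or.inl (dec_le h (hD hd') h1 k)
          · exact Or.inr (dec_le h (hD hd) h1 k)) (E l) (by
        rintro _ (rfl | ⟨d, hd, rfl⟩)
        · rw [h.q_len]; exact h.mono.monotone (h.hb l)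
        · simp only [((dec_spec h (hD hd)).1 k).2.2]
          exact h.mono.monotone (hl d hd))
    exact ⟨r, hr, hrl, hub _ (mem_insert _ _), fun d hd => hub _ (mem_insert_of_mem _ ⟨d, hd, rfl⟩)⟩
  choose y hy1 hy2 hy3 hy4 using key
  have hy : y ∈ Lv T E q l := fun k => ⟨hy1 k, hy3 k, hy2 k⟩
  refine ⟨Cd b h.hb E sc enc l y, Cd_mem h hy, rfl, fun d hd => ?_⟩
  have h1 := dec_spec h (hD hd)
  rw [h1.2]
  exact Cd_le_Cd h (hl d hd) hy h1.1 fun k => hy4 k d hd

theorem CT_level (hκ : κ.IsRegular) (hlim : ∀ x < κ, 2 ^ x < κ) (hT : IsRegularTree T)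
    (h : CD T E sc q enc b) (hC : #C < κ) (ζ : κ.ord.ToType) :
    #{t // t ∈ CT T E sc q enc b h.hb ∧ t.len = ζ} < κ := by
  refine lt_of_le_of_lt ?_ (card_lv hκ hlim hT hC ζ (E := E) (q := q))
  refine Cardinal.mk_le_of_injective
    (f := fun t => (⟨dec T E sc q enc b h.hb t.1, fun k =>
      ⟨((dec_spec h t.2.1).1 k).1, ((dec_spec h t.2.1).1 k).2.1,
        ((dec_spec h t.2.1).1 k).2.2.trans (congrArg E t.2.2)⟩⟩ : Lv T E q ζ)) ?_
  intro t t' htt
  have h1 : dec T E sc q enc b h.hb t.1 = dec T E sc q enc b h.hb t'.1 :=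
    congrArg Subtype.val htt
  have h2 := (dec_spec h t.2.1).2
  have h3 := (dec_spec h t'.2.1).2
  refine Subtype.ext ?_
  rw [h2, h3, h1, t.2.2, t'.2.2]

theorem exists_splitting (hT : IsRegularTree T) (h : CD T E sc q enc b)
    [hne : Nonempty C] (hE : ∀ ζ, E b ≤ ζ → ∃ β β', β ⋖ β' ∧ E β ≤ ζ ∧ ζ < E β')
    {α : κ.ord.ToType} {y : C → Node κ.ord.ToType} (hy : y ∈ Lv T E q α) :
    ∃ β β' z u v, α ≤ β ∧ β ⋖ β' ∧ z ∈ Lv T E q β ∧ u ∈ Lv T E q β' ∧ v ∈ Lv T E q β' ∧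
      (∀ k, y k ≤ z k) ∧ (∀ k, z k ≤ u k) ∧ (∀ k, z k ≤ v k) ∧ u ≠ v := by
  classical
  obtain ⟨k₀⟩ := hne
  obtain ⟨s, hs, hys, a, ha, a', ha', hsa, hsa', hne, hcov, hlen⟩ := hT.perfect (y k₀) (hy k₀).1
  have h1 : E α ≤ s.len := (hy k₀).2.2 ▸ hys.1
  obtain ⟨β, β', hβ, h2, h3⟩ := hE s.len ((h.mono.monotone (h.hb α)).trans h1)
  have hαβ : α ≤ β := by
    by_contra hcon
    have h4 : β' ≤ α := hβ.ge_of_gt (not_le.1 hcon)
    exact absurd (h3.trans_le ((h.mono.monotone h4).trans h1)) (lt_irrefl _)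
  obtain ⟨w, hw, hyw⟩ := exists_lv (q := q) (E := E) (α := β) hT y fun k =>
    ⟨(hy k).1, (hy k).2.1, (hy k).2.2 ▸ h.mono.monotone hαβ⟩
  let z : C → Node κ.ord.ToType := fun k => if k = k₀ then s.restr (E β) else w k
  have hz : z ∈ Lv T E q β := by
    intro k
    by_cases hk : k = k₀
    · subst hk
      simp only [z, if_true]
      refine ⟨h.down _ hs _ (Node.restr_le h2), ?_, rfl⟩
      refine Node.le_restr ((hy k).2.1.trans hys) ?_
      rw [h.q_len]
      exact h.mono.monotone (h.hb β)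
    · simp only [z, if_neg hk]
      exact hw k
  have hyz : ∀ k, y k ≤ z k := by
    intro k
    by_cases hk : k = k₀
    · subst hk
      simp only [z, if_true]
      refine Node.le_restr hys ?_
      rw [(hy k).2.2]
      exact h.mono.monotone hαβ
    · simp only [z, if_neg hk]
      exact hyw k
  have key : ∀ a ∈ T, s ≤ a → a.len ≤ E β' → ∃ u ∈ Lv T E q β', (∀ k, z k ≤ u k) ∧
      a ≤ u k₀ := by
    intro a ha hsa hal
    obtain ⟨u, hu, hau⟩ := exists_lv (q := q) (E := E) (α := β') hT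
      (fun k => if k = k₀ then a else z k) (by
        intro k
        by_cases hk : k = k₀
        · subst hk
          simp only [if_true]
          exact ⟨ha, (hy k).2.1.trans (hys.trans hsa), hal⟩
        · simp only [if_neg hk]
          exact ⟨(hz k).1, (hz k).2.1, by rw [(hz k).2.2]; exact h.mono.monotone hβ.le⟩)
    refine ⟨u, hu, fun k => ?_, ?_⟩
    · have h5 := hau k
      by_cases hk : k = k₀
      · subst hk
        simp only [if_true] at h5
        simp only [z, if_true]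
        exact (Node.restr_le h2).trans (hsa.trans h5)
      · simp only [if_neg hk] at h5
        exact h5
    · have h5 := hau k₀
      simp only [if_true] at h5
      exact h5
  have hal : a.len ≤ E β' := hcov.ge_of_gt h3
  obtain ⟨u, hu, hzu, hau⟩ := key a ha hsa hal
  obtain ⟨v, hv, hzv, hav⟩ := key a' ha' hsa' (hlen ▸ hal)
  refine ⟨β, β', z, u, v, hαβ, hβ, hz, hu, hv, hyz, hzu, hzv, fun huv => ?_⟩
  rw [← huv] at hav
  exact hne (eq_of_le_le hau hav hlen)

/-- all nodes of the coded tree split if the levels are far enough apart -/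
theorem CT_splits (hT : IsRegularTree T) (h : CD T E sc q enc b) [hne : Nonempty C]
    (hsp : ∀ α, ∀ u ∈ T, u.len = E α → ∃ a ∈ T, ∃ a' ∈ T, u ≤ a ∧ u ≤ a' ∧ a ≠ a' ∧
      a.len = a'.len ∧ a.len ≤ E (sc α)) {t : Node κ.ord.ToType}
    (ht : t ∈ CT T E sc q enc b h.hb) : Splits (CT T E sc q enc b h.hb) t := by
  classical
  obtain ⟨k₀⟩ := hne
  have h1 := dec_spec h ht
  obtain ⟨a, ha, a', ha', hya, hya', hne, hlen, hal⟩ :=
    hsp t.len _ (h1.1 k₀).1 (h1.1 k₀).2.2
  have key : ∀ a ∈ T, dec T E sc q enc b h.hb t k₀ ≤ a → a.len ≤ E (sc t.len) →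
      ∃ u ∈ Lv T E q (sc t.len), (∀ k, dec T E sc q enc b h.hb t k ≤ u k) ∧ a ≤ u k₀ := by
    intro a ha hsa hal
    obtain ⟨u, hu, hau⟩ := exists_lv (q := q) (E := E) (α := sc t.len) hT
      (fun k => if k = k₀ then a else dec T E sc q enc b h.hb t k) (by
        intro k
        by_cases hk : k = k₀
        · subst hk
          simp only [if_true]
          exact ⟨ha, (h1.1 k).2.1.trans hsa, hal⟩
        · simp only [if_neg hk]
          exact ⟨(h1.1 k).1, (h1.1 k).2.1, by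
            rw [(h1.1 k).2.2]; exact h.mono.monotone (h.hsc _).le⟩)
    refine ⟨u, hu, fun k => ?_, ?_⟩
    · have h5 := hau k
      by_cases hk : k = k₀
      · subst hk
        simp only [if_true] at h5
        exact hsa.trans h5
      · simp only [if_neg hk] at h5
        exact h5
    · have h5 := hau k₀
      simp only [if_true] at h5
      exact h5
  obtain ⟨u, hu, hzu, hau⟩ := key a ha hya hal
  obtain ⟨v, hv, hzv, hav⟩ := key a' ha' hya' (hlen ▸ hal)
  have h6 : ∀ w ∈ Lv T E q (sc t.len), (∀ k, dec T E sc q enc b h.hb t k ≤ w k) →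
      t ≤ Cd b h.hb E sc enc (sc t.len) w := by
    intro w hw hle
    have h7 := Cd_le_Cd h (h.hsc _).le hw h1.1 hle
    rwa [← h1.2] at h7
  refine ⟨_, Cd_mem h hu, _, Cd_mem h hv, h6 u hu hzu, h6 v hv hzv, fun he => ?_, h.hsc _, rfl⟩
  have huv := Cd_inj h hu hv he
  rw [← huv] at hav
  exact hne (eq_of_le_le hau hav hlen)

/-- **The coded tree is regular.** -/
theorem CT_regular (hκ : κ.IsRegular) (hlim : ∀ x < κ, 2 ^ x < κ) (hT : IsRegularTree T)
    (h : CD T E sc q enc b) (hC : #C < κ) [hne : Nonempty C]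
    (hE : ∀ ζ, E b ≤ ζ → ∃ β β', β ⋖ β' ∧ E β ≤ ζ ∧ ζ < E β') :
    IsRegularTree (CT T E sc q enc b h.hb) := by
  classical
  have : NoMaxOrder κ.ord.ToType := Cardinal.noMaxOrder hκ.aleph0_le
  have hex : ∀ α, ∃ y, y ∈ Lv T E q α := by
    intro α
    obtain ⟨y, hy, -⟩ := exists_lv (q := q) (E := E) (α := α) hT q fun k =>
      ⟨h.q_mem k, le_rfl, by rw [h.q_len]; exact h.mono.monotone (h.hb α)⟩
    exact ⟨y, hy⟩
  refine ⟨fun t ht s hs => (CT_down h ht hs).2.1, ?_, ?_, ?_, ?_⟩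
  · refine le_antisymm ?_ ?_
    · have h1 : #(CT T E sc q enc b h.hb) ≤
          #(Σ ζ : κ.ord.ToType, {t // t ∈ CT T E sc q enc b h.hb ∧ t.len = ζ}) := by
        refine Cardinal.mk_le_of_injective (f := fun t : CT T E sc q enc b h.hb =>
          (⟨t.1.len, t.1, t.2, rfl⟩ :
            Σ ζ : κ.ord.ToType, {t // t ∈ CT T E sc q enc b h.hb ∧ t.len = ζ})) ?_
        intro t t' htt
        have key : ∀ z w : (Σ ζ : κ.ord.ToType,
            {t // t ∈ CT T E sc q enc b h.hb ∧ t.len = ζ}), z = w →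
            (z.2 : Node κ.ord.ToType) = (w.2 : Node κ.ord.ToType) := by
          rintro z w rfl; rfl
        exact Subtype.ext (key _ _ htt)
      refine h1.trans ?_
      rw [Cardinal.mk_sigma]
      refine (Cardinal.sum_le_sum _ (fun _ => κ)
        fun ζ => (CT_level hκ hlim hT h hC ζ).le).trans ?_
      rw [Cardinal.sum_const]
      simp only [Cardinal.lift_id]
      rw [Cardinal.mk_ord_toType, Cardinal.mul_eq_self hκ.aleph0_le]
    · choose y hy using hex
      refine Cardinal.mk_le_of_injective (f := fun α =>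
        (⟨Cd b h.hb E sc enc α (y α), Cd_mem h (hy α)⟩ : CT T E sc q enc b h.hb)) ?_
      intro α α' hαα
      have h1 := congrArg (fun t : CT T E sc q enc b h.hb => (t.1).len) hαα
      exact h1
  · intro ζ
    rw [Cardinal.mk_ord_toType]
    exact CT_level hκ hlim hT h hC ζ
  · intro t ht
    have h1 := dec_spec h ht
    obtain ⟨β, β', z, u, v, h2, h3, hz, hu, hv, hyz, hzu, hzv, huv⟩ :=
      exists_splitting hT h hE h1.1
    refine ⟨Cd b h.hb E sc enc β z, Cd_mem h hz, ?_, Cd b h.hb E sc enc β' u, Cd_mem h hu,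
      Cd b h.hb E sc enc β' v, Cd_mem h hv, Cd_le_Cd h h3.le hu hz hzu,
      Cd_le_Cd h h3.le hv hz hzv, fun he => huv (Cd_inj h hu hv he), h3, rfl⟩
    rw [h1.2]
    exact Cd_le_Cd h h2 hz h1.1 hyz
  · intro Ch hCh D hD hcof
    by_contra hcon
    rw [not_le, Cardinal.mk_ord_toType] at hcon
    obtain ⟨l, hl⟩ := exists_bound hκ hcon
      (fun d : D => ((d.1 : CT T E sc q enc b h.hb) : Node κ.ord.ToType).len)
    have hlall : ∀ c ∈ Ch, (c : Node κ.ord.ToType).len ≤ l := by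
      intro c hc
      obtain ⟨d, hd, hcd⟩ := hcof c hc
      have h3 : (c : Node κ.ord.ToType) ≤ (d : Node κ.ord.ToType) := hcd
      exact h3.1.trans (hl ⟨d, hd⟩)
    obtain ⟨l', hl'⟩ := exists_gt l
    obtain ⟨u, hu, hul, hub⟩ := CT_ub hT h (D := Subtype.val '' Ch) (by
        rintro _ ⟨x, -, rfl⟩; exact x.2) (by
        rintro _ ⟨x, hx, rfl⟩ _ ⟨y, hy, rfl⟩ hxy
        exact hCh.isChain hx hy (fun h => hxy (by rw [h]))) l' (by
        rintro _ ⟨x, hx, rfl⟩; exact (hlall x hx).trans hl'.le)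
    have h4 : IsChain (· ≤ ·) (insert (⟨u, hu⟩ : CT T E sc q enc b h.hb) Ch) :=
      hCh.isChain.insert fun b hb _ => Or.inr (hub b ⟨b, hb, rfl⟩)
    have h5 := hCh.2 h4 (subset_insert _ _)
    have h6 : (⟨u, hu⟩ : CT T E sc q enc b h.hb) ∈ Ch := by rw [h5]; exact mem_insert _ _
    have h7 := hlall _ h6
    exact absurd (hul ▸ hl' : l < u.len) (not_lt.2 h7)

end Pool.Agent.Helper39.HT
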