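import Pool.Agent.Helper39.HT.Basic

/-!
# Avoiding many rectangles at once
-/

set_option autoImplicit false

open Cardinal Set Helper2.HB Pool.Agent.Helper58.HL

namespace Pool.Agent.Helper39.HT

variable {κ : Cardinal.{0}} {T₀ T₁ : Set (Node κ.ord.ToType)} {ι : Type}

/-- `v` handles all tuples of nodes below `u.2` -/
def Rel (c : T₀ → T₁ → ι) (t₁ : T₁) {Θ R E : Type} (f : E → Θ → R) (col : E → ι)
    (u v : (R → T₀) × κ.ord.ToType) : Prop :=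
  u.2 < v.2 ∧ ∀ (e : E) (r : Θ → T₁), (∀ b, r b ∈ Low t₁ u.2) → ∃ Q : Θ → Set T₁,
    (∀ b, ∀ q ∈ Q b, r b ≤ q ∧ q ∈ Low t₁ v.2) ∧ ¬ HasBox c (fun a => v.1 (f e a)) Q (col e)

theorem Rel.anti {c : T₀ → T₁ → ι} {t₁ : T₁} {Θ R E : Type} {f : E → Θ → R} {col : E → ι}
    {u u' v : (R → T₀) × κ.ord.ToType} (h : Rel c t₁ f col u' v) (hu : u ≤ u') :
    Rel c t₁ f col u v :=
  ⟨lt_of_le_of_lt hu.2 h.1, fun e r hr => h.2 e r fun b => ⟨(hr b).1, (hr b).2.trans_le hu.2⟩⟩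

theorem exists_rel (hκ : κ.IsRegular) (hlim : ∀ x < κ, 2 ^ x < κ) (h₀ : IsRegularTree T₀)
    (h₁ : IsRegularTree T₁) (c : T₀ → T₁ → ι) (t₀ : T₀) (t₁ : T₁) {Θ R E : Type}
    (hΘ : #Θ < κ) (hE : #E < κ) (f : E → Θ → R)
    (hf : ∀ e, Function.Injective (f e)) (col : E → ι)
    (hbad : ∀ e, ¬ Good c t₀ t₁ Θ (col e)) (p₀ : R → T₀) (hp₀ : ∀ m, t₀ ≤ p₀ m)
    (u : (R → T₀) × κ.ord.ToType) (hu : p₀ ≤ u.1) : ∃ v, u ≤ v ∧ Rel c t₁ f col u v := by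
  classical
  have : NoMaxOrder κ.ord.ToType := Cardinal.noMaxOrder hκ.aleph0_le
  obtain ⟨p, ζ⟩ := u
  have hJ : #(E × (Θ → Low t₁ ζ)) < κ := by
    rw [Cardinal.mk_prod]
    simp only [Cardinal.lift_id]
    refine Cardinal.mul_lt_of_lt hκ.aleph0_le hE ?_
    rw [← Cardinal.power_def]
    exact pow_lt hlim hκ.aleph0_le (card_low hκ h₁ t₁ ζ) hΘ
  obtain ⟨p', hp', hreq⟩ := (Closed.pi (J := R) (closed_tree hκ h₀)).meet hκ.aleph0_le hJ
    (fun (j : E × (Θ → Low t₁ ζ)) (p' : R → T₀) => ∃ Q : Θ → Set T₁,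
      (∀ b, #(Q b) < κ ∧ ∀ q ∈ Q b, (j.2 b : T₁) ≤ q) ∧
        ¬ HasBox c (fun a => p' (f j.1 a)) Q (col j.1))
    (by
      rintro j p1 p2 h12 ⟨Q, hQ1, hQ2⟩
      exact ⟨Q, hQ1, fun h => hQ2 (h.anti fun a => h12 _)⟩) p (by
      rintro ⟨e, r⟩ p1 hp1
      have h1 := hbad e
      unfold Good at h1
      push Not at h1
      obtain ⟨p2, Q, h2, h3, h4⟩ := h1 (fun a => p1 (f e a)) (fun a => r a)
        (fun a => ⟨(hp₀ _).trans ((hu _).trans (hp1 _)), (r a).2.1⟩)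
      refine ⟨Function.extend (f e) p2 p1, fun m => ?_, Q, fun b => ⟨?_, (h3 b).2⟩, ?_⟩
      · by_cases hm : ∃ a, f e a = m
        · obtain ⟨a, rfl⟩ := hm
          rw [(hf e).extend_apply]
          exact h2 a
        · rw [Function.extend_apply' _ _ _ hm]
      · have h5 := (h3 b).1
        rwa [Cardinal.mk_ord_toType] at h5
      · simp only [(hf e).extend_apply]
        exact h4)
  choose Q hQ1 hQ2 using hreq
  have hcard : #(Σ z : (E × (Θ → Low t₁ ζ)) × Θ, Q z.1 z.2) < κ := by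
    rw [Cardinal.mk_sigma]
    refine Cardinal.sum_lt_of_isRegular hκ ?_ fun z => (hQ1 z.1 z.2).1
    rw [Cardinal.mk_prod]
    simp only [Cardinal.lift_id]
    exact Cardinal.mul_lt_of_lt hκ.aleph0_le hJ hΘ
  obtain ⟨l, hl⟩ := exists_bound hκ hcard
    (fun z : Σ z : (E × (Θ → Low t₁ ζ)) × Θ, Q z.1 z.2 => ((z.2 : T₁) : Node κ.ord.ToType).len)
  obtain ⟨ζ', hζ'⟩ := exists_gt (max l ζ)
  refine ⟨(p', ζ'), ⟨hp', ((le_max_right _ _).trans_lt hζ').le⟩,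
    (le_max_right _ _).trans_lt hζ', fun e r hr => ?_⟩
  refine ⟨Q (e, fun b => ⟨r b, hr b⟩), fun b q hq => ?_, hQ2 (e, fun b => ⟨r b, hr b⟩)⟩
  have h1 := (hQ1 (e, fun b => ⟨r b, hr b⟩) b).2 q hq
  refine ⟨h1, (hr b).1.trans h1, ?_⟩
  exact (hl ⟨((e, fun b => ⟨r b, hr b⟩), b), q, hq⟩).trans_lt ((le_max_left _ _).trans_lt hζ')

/-- **One final matrix without any of the forbidden rectangles.** -/
theorem avoid (hκ : κ.IsRegular) (hlim : ∀ x < κ, 2 ^ x < κ) (hκ0 : ℵ₀ < κ)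
    (h₀ : IsRegularTree T₀) (h₁ : IsRegularTree T₁) (c : T₀ → T₁ → ι) (t₀ : T₀) (t₁ : T₁)
    {Θ R C E : Type} (hΘ : #Θ < κ) (hR : #R < κ) (hC : #C < κ) (hE : #E < κ) (f : E → Θ → R)
    (hf : ∀ e, Function.Injective (f e)) (g : E → Θ → C) (col : E → ι)
    (hbad : ∀ e, ¬ Good c t₀ t₁ Θ (col e)) (p₀ : R → T₀) (hp₀ : ∀ m, t₀ ≤ p₀ m)
    (q₀ : C → T₁) (hq₀ : ∀ l, t₁ ≤ q₀ l) :
    ∃ (ζ : κ.ord.ToType) (x : R → T₀) (y : C → T₁),
      (∀ m, p₀ m ≤ x m ∧ (x m : Node κ.ord.ToType).len = ζ) ∧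
      (∀ l, q₀ l ≤ y l ∧ (y l : Node κ.ord.ToType).len = ζ) ∧
      ∀ e, ¬ ∀ a b, c (x (f e a)) (y (g e b)) = col e := by
  classical
  have : NoMaxOrder κ.ord.ToType := Cardinal.noMaxOrder hκ.aleph0_le
  have hsucc : ∀ x < κ, Order.succ x < κ := fun x hx =>
    lt_of_le_of_lt (Order.succ_le_of_lt (Cardinal.cantor x)) (hlim x hx)
  -- the length of the chain
  set μ : Cardinal.{0} := max ℵ₀ (max #E #Θ) with hμ
  have hμκ : μ < κ := max_lt hκ0 (max_lt hE hΘ)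
  have hμ0 : ℵ₀ ≤ μ := le_max_left _ _
  have hreg : (Order.succ μ).IsRegular := Cardinal.isRegular_succ hμ0
  have hΛ : Order.succ μ < κ := hsucc μ hμκ
  have hElt : #E < Order.succ μ := Order.lt_succ_of_le ((le_max_left _ _).trans (le_max_right _ _))
  have hΘlt : #Θ < Order.succ μ := Order.lt_succ_of_le ((le_max_right _ _).trans (le_max_right _ _))
  have hNM : NoMaxOrder (Order.succ μ).ord.ToType := Cardinal.noMaxOrder hreg.aleph0_le
  obtain ⟨l₀, hl₀⟩ := exists_bound hκ hC (fun l => (q₀ l : Node κ.ord.ToType).len)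
  obtain ⟨ζ₀, hζ₀⟩ := exists_gt l₀
  have hcl : Closed κ ((R → T₀) × κ.ord.ToType) :=
    (Closed.pi (closed_tree hκ h₀)).prod (closed_toType hκ)
  obtain ⟨G, hG⟩ := closed_seq_rel hκ.aleph0_le hcl (ι := (Order.succ μ).ord.ToType)
    (fun i => (Cardinal.mk_Iio_toType_ord_lt i).trans hΛ) (Rel c t₁ f col)
    (fun a b d hab h => h.anti hab) (p₀, ζ₀)
    (fun p hp => exists_rel hκ hlim h₀ h₁ c t₀ t₁ hΘ hE f hf col hbad p₀ hp₀ p hp.1)
  -- the limit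
  have hrange : #(range G) < κ := lt_of_le_of_lt Cardinal.mk_range_le (by
    rw [Cardinal.mk_ord_toType]; exact hΛ)
  have hchain : IsChain (· ≤ ·) (range G) := by
    rintro _ ⟨i, rfl⟩ _ ⟨j, rfl⟩ hij
    rcases lt_trichotomy i j with h | h | h
    · exact Or.inl ((hG j).1 i h).1
    · exact absurd (by rw [h]) hij
    · exact Or.inr ((hG i).1 j h).1
  have hne : Nonempty (Order.succ μ).ord.ToType := by
    rw [← Cardinal.mk_ne_zero_iff, Cardinal.mk_ord_toType]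
    exact hreg.pos.ne'
  obtain ⟨⟨p', ζ'⟩, hub⟩ := hcl (range G) (range_nonempty G) hchain hrange
  have hGub : ∀ i, G i ≤ (p', ζ') := fun i => hub ⟨i, rfl⟩
  -- the set of nodes
  set N : Set T₁ := {s | t₁ ≤ s ∧ ∃ i, (s : Node κ.ord.ToType).len < (G i).2} with hN
  have hNlow : ∀ r : Θ → T₁, (∀ b, r b ∈ N) → ∃ i, ∀ b, r b ∈ Low t₁ (G i).2 := by
    intro r hr
    choose k hk using fun b => (hr b).2
    obtain ⟨i, hi⟩ := exists_bound hreg hΘlt k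
    refine ⟨i, fun b => ⟨(hr b).1, (hk b).trans_le ?_⟩⟩
    rcases eq_or_lt_of_le (hi b) with h | h
    · rw [h]
    · exact ((hG i).1 _ h).1.2
  have hstar : ∀ (e : E) (r : Θ → T₁), (∀ b, r b ∈ N) → ∃ Q : Θ → Set T₁,
      (∀ b, ∀ q ∈ Q b, r b ≤ q ∧ q ∈ N) ∧ ¬ HasBox c (fun a => p' (f e a)) Q (col e) := by
    intro e r hr
    obtain ⟨i, hi⟩ := hNlow r hr
    obtain ⟨j, hj⟩ := exists_gt i
    obtain ⟨Q, hQ1, hQ2⟩ := ((hG j).1 i hj).2.2 e r hi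
    exact ⟨Q, fun b q hq => ⟨(hQ1 b q hq).1, (hQ1 b q hq).2.1, j, (hQ1 b q hq).2.2⟩,
      fun h => hQ2 (h.anti fun a => (hGub j).1 _)⟩
  -- the common level
  obtain ⟨l₁, hl₁⟩ := exists_bound hκ hR (fun m => (p' m : Node κ.ord.ToType).len)
  set ζ := max l₁ ζ' with hζ
  have hx : ∀ m, ∃ x : T₀, p' m ≤ x ∧ (x : Node κ.ord.ToType).len = ζ := fun m =>
    exists_level h₀ (p' m) ζ ((hl₁ m).trans (le_max_left _ _))
  choose x hx1 hx2 using hx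
  have hY : ∀ u : T₁, ∃ y : T₁, u ∈ N → u ≤ y ∧ (y : Node κ.ord.ToType).len = ζ := by
    intro u
    by_cases hu : u ∈ N
    · obtain ⟨i, hi⟩ := hu.2
      obtain ⟨y, hy⟩ := exists_level h₁ u ζ
        ((hi.le.trans (hGub i).2).trans (le_max_right _ _))
      exact ⟨y, fun _ => hy⟩
    · exact ⟨u, fun h => absurd h hu⟩
  choose Y hY using hY
  -- tuples of nodes of `N` are closed
  have hclN : Closed (Order.succ μ) N := by
    intro D hDne hD hDcard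
    choose k hk using fun d : D => (d.1 : N).2.2
    obtain ⟨i, hi⟩ := exists_bound hreg hDcard k
    obtain ⟨j, hj⟩ := exists_gt i
    have hlen : ∀ d : D, (((d.1 : N) : T₁) : Node κ.ord.ToType).len ≤ (G i).2 := by
      intro d
      refine (hk d).le.trans ?_
      rcases eq_or_lt_of_le (hi d) with h | h
      · rw [h]
      · exact ((hG i).1 _ h).1.2
    obtain ⟨r, hr, hrl, hrub⟩ := h₁.ub hK_toType
      (D := (fun d : N => ((d : T₁) : Node κ.ord.ToType)) '' D) (by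
        rintro _ ⟨d, -, rfl⟩; exact d.1.2) (by
        rintro _ ⟨d, hd, rfl⟩ _ ⟨d', hd', rfl⟩ hdd
        exact hD hd hd' (fun h => hdd (by rw [h]))) (G i).2 (by
        rintro _ ⟨d, hd, rfl⟩; exact hlen ⟨d, hd⟩)
    obtain ⟨d₀, hd₀⟩ := hDne
    have hrN : (⟨r, hr⟩ : T₁) ∈ N := by
      refine ⟨(d₀.2.1 : t₁ ≤ d₀.1).trans (hrub _ ⟨d₀, hd₀, rfl⟩), j, ?_⟩
      have h1 : (G i).2 < (G j).2 := ((hG j).1 i hj).2.1
      change r.len < _
      rw [hrl]; exact h1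
    exact ⟨⟨⟨r, hr⟩, hrN⟩, fun d hd => hrub _ ⟨d, hd, rfl⟩⟩
  obtain ⟨i₀⟩ := hne
  have hq₀N : ∀ l, q₀ l ∈ N := fun l =>
    ⟨hq₀ l, i₀, (hl₀ l).trans_lt (hζ₀.trans_le (hG i₀).2.2)⟩
  obtain ⟨s, hs1, hs2⟩ := (Closed.pi (J := C) hclN).meet hreg.aleph0_le hElt
    (fun (e : E) (s : C → N) => ∃ b, ∀ u ∈ N, ((s (g e b) : N) : T₁) ≤ u →
      ¬ ∀ a, c (x (f e a)) (Y u) = col e)
    (by
      rintro e s s' hss ⟨b, hb⟩
      exact ⟨b, fun u hu hsu => hb u hu (le_trans (hss (g e b)) hsu)⟩)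
    (fun l => ⟨q₀ l, hq₀N l⟩) (by
      intro e s _
      obtain ⟨Q, hQ1, hQ2⟩ := hstar e (fun b => (s (g e b) : T₁)) (fun b => (s (g e b)).2)
      have h1 : ∃ b, ∃ q ∈ Q b, ∀ u ∈ N, q ≤ u → ¬ ∀ a, c (x (f e a)) (Y u) = col e := by
        by_contra hcon
        push Not at hcon
        refine hQ2 ?_
        choose! w hw1 hw2 hw3 using hcon
        refine ⟨ζ, fun a => x (f e a), fun b q => Y (w b q), fun a => ⟨hx1 _, hx2 _⟩,
          fun b q hq => ⟨(hw2 b q hq).trans (hY _ (hw1 b q hq)).1, (hY _ (hw1 b q hq)).2⟩,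
          fun a b q hq => hw3 b q hq a⟩
      obtain ⟨b, q, hq, h2⟩ := h1
      refine ⟨Function.update s (g e b) ⟨q, (hQ1 b q hq).2⟩, ?_, b, fun u hu hqu => ?_⟩
      · intro l
        by_cases hl : l = g e b
        · subst hl
          rw [Function.update_self]
          exact (hQ1 b q hq).1
        · rw [Function.update_of_ne hl]
      · rw [Function.update_self] at hqu
        exact h2 u hu hqu)
  refine ⟨ζ, x, fun l => Y (s l), fun m => ⟨?_, hx2 m⟩, fun l => ⟨?_, (hY _ (s l).2).2⟩,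
    fun e he => ?_⟩
  · exact (((hG i₀).2.trans (hGub i₀)).1 m).trans (hx1 m)
  · exact le_trans (hs1 l) (hY _ (s l).2).1
  · obtain ⟨b, hb⟩ := hs2 e
    exact hb _ (s (g e b)).2 le_rfl fun a => he a b

end Pool.Agent.Helper39.HT
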