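import Pool.Agent.Helper39.HT.DefD

/-!
# Patterns of colours in several dimensions: definitions
-/

set_option autoImplicit false

open Cardinal Set Helper2.HB Pool.Agent.Helper58.HL Pool.Agent.Helper39.HL

namespace Pool.Agent.Helper39.HT

variable {K : Type} [LinearOrder K] {d : ℕ} {T₀ : Set (Node K)} {T : Fin d → Set (Node K)}
  {ι : Type}

/-- At one common level there are extensions `x a` of `p a` (`a ∈ A`) and extensions `y l q` of
all `q ∈ Q l` (`l < d`) such that the colour of `(x a, (y l (q l))_l)` is in `F a` for all `a` and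
all `q l ∈ Q l`. -/
def HasBoxP (c : T₀ → ((l : Fin d) → T l) → ι) {A : Type} (p : A → T₀)
    (Q : (l : Fin d) → Set (T l)) (F : A → Set ι) : Prop :=
  ∃ (ζ : K) (x : A → T₀) (y : (l : Fin d) → T l → T l),
    (∀ a, p a ≤ x a ∧ (x a : Node K).len = ζ) ∧
    (∀ l, ∀ q ∈ Q l, q ≤ y l q ∧ (y l q : Node K).len = ζ) ∧
    ∀ (a : A) (q : (l : Fin d) → T l), (∀ l, q l ∈ Q l) → c (x a) (fun l => y l (q l)) ∈ F a

/-- The pattern `F` is good above the nodes `P a` (`a ∈ A`) and `r l` (`l < d`): there are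
extensions `p a` of `P a` and `s l` of `r l` such that for all further extensions `p' a` of `p a`
and all families `Q l` of fewer than `κ` extensions of `s l` there is a box for `F`. -/
def GoodP (c : T₀ → ((l : Fin d) → T l) → ι) {A : Type} (P : A → T₀) (r : (l : Fin d) → T l)
    (F : A → Set ι) : Prop :=
  ∃ (p : A → T₀) (s : (l : Fin d) → T l), (∀ a, P a ≤ p a) ∧ (∀ l, r l ≤ s l) ∧
    ∀ (p' : A → T₀) (Q : (l : Fin d) → Set (T l)), (∀ a, p a ≤ p' a) →
      (∀ l, #(Q l) < #K ∧ ∀ q ∈ Q l, s l ≤ q) → HasBoxP c p' Q F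

/-- The set `S` of colours has all boxes above `(t₀, t)`. -/
def AllBoxes (c : T₀ → ((l : Fin d) → T l) → ι) (t₀ : T₀) (t : (l : Fin d) → T l)
    (S : Set ι) : Prop :=
  ∀ (A : Type) (p : A → T₀) (Q : (l : Fin d) → Set (T l)), #A < #K → (∀ a, t₀ ≤ p a) →
    (∀ l, #(Q l) < #K ∧ ∀ q ∈ Q l, t l ≤ q) → HasBoxP c p Q (fun _ => S)

theorem HasBoxP.anti {c : T₀ → ((l : Fin d) → T l) → ι} {A : Type} {p p' : A → T₀}
    {Q : (l : Fin d) → Set (T l)} {F : A → Set ι} (h : HasBoxP c p' Q F)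
    (hp : ∀ a, p a ≤ p' a) : HasBoxP c p Q F := by
  obtain ⟨ζ, x, y, h1, h2, h3⟩ := h
  exact ⟨ζ, x, y, fun a => ⟨(hp a).trans (h1 a).1, (h1 a).2⟩, h2, h3⟩

theorem GoodP.of_le {c : T₀ → ((l : Fin d) → T l) → ι} {A : Type} {P P' : A → T₀}
    {r r' : (l : Fin d) → T l} {F : A → Set ι} (h : GoodP c P' r' F) (hP : ∀ a, P a ≤ P' a)
    (hr : ∀ l, r l ≤ r' l) : GoodP c P r F := by
  obtain ⟨p, s, h1, h2, h3⟩ := h
  exact ⟨p, s, fun a => (hP a).trans (h1 a), fun l => (hr l).trans (h2 l), h3⟩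

/-- a pattern good for a large index set is good for a small one -/
theorem GoodP.comp {c : T₀ → ((l : Fin d) → T l) → ι} {A B : Type} {P : B → T₀}
    {r : (l : Fin d) → T l} {F : B → Set ι} (h : GoodP c P r F) (φ : A ↪ B) :
    GoodP c (fun a => P (φ a)) r (fun a => F (φ a)) := by
  classical
  obtain ⟨p, s, h0, h1, h2⟩ := h
  refine ⟨fun a => p (φ a), s, fun a => h0 _, h1, fun p' Q hp' hQ => ?_⟩
  obtain ⟨ζ, x, y, h3, h4, h5⟩ := h2 (Function.extend φ p' p) Q (by
      intro b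
      by_cases hb : ∃ a, φ a = b
      · obtain ⟨a, rfl⟩ := hb
        rw [φ.injective.extend_apply]
        exact hp' a
      · rw [Function.extend_apply' _ _ _ hb]) hQ
  refine ⟨ζ, fun a => x (φ a), y, fun a => ?_, h4, fun a q hq => h5 (φ a) q hq⟩
  have := h3 (φ a)
  rwa [φ.injective.extend_apply] at this

end Pool.Agent.Helper39.HT
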