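import Pool.Agent.Helper39.HT.BoxHL
import Pool.Agent.Helper39.HT.DefP
import Pool.Agent.Helper39.HL.Levels

/-!
# Avoiding many patterns at once
-/

set_option autoImplicit false

open Cardinal Set Helper2.HB Pool.Agent.Helper58.HL Pool.Agent.Helper39.HL

namespace Pool.Agent.Helper39.HT

variable {κ : Cardinal.{0}} {n : ℕ} {T₀ : Set (Node κ.ord.ToType)}
  {T : Fin (n + 1) → Set (Node κ.ord.ToType)} {ι : Type}

/-- `p'` kills all tuples of nodes of length less than `ζ` above the given ones -/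
def ReqP (c : T₀ → ((l : Fin (n + 1)) → T l) → ι) {Θ R C E : Type} (f : E → Θ → R)
    (g : E → Fin (n + 1) → C) (F : E → Θ → Set ι) (q₀ : (l : Fin (n + 1)) → C → T l)
    (ζ : κ.ord.ToType) (p' : R → T₀) : Prop :=
  ∀ (e : E) (r : (l : Fin (n + 1)) → T l),
    (∀ l, q₀ l (g e l) ≤ r l ∧ (r l : Node κ.ord.ToType).len < ζ) →
    ∃ Q : (l : Fin (n + 1)) → Set (T l), (∀ l, #(Q l) < κ ∧ ∀ q ∈ Q l, r l ≤ q) ∧
      ¬ HasBoxP c (fun a => p' (f e a)) Q (F e)

theorem card_lowtup (hκ : κ.IsRegular) (hlim : ∀ x < κ, 2 ^ x < κ)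
    (hT : ∀ l, IsRegularTree (T l)) (ζ : κ.ord.ToType) :
    #{r : (l : Fin (n + 1)) → T l // ∀ l, (r l : Node κ.ord.ToType).len < ζ} < κ := by
  have h1 : #{r : (l : Fin (n + 1)) → T l // ∀ l, (r l : Node κ.ord.ToType).len < ζ} ≤
      #(Fin (n + 1) → Σ l : Fin (n + 1), Σ η : Iio ζ,
        {t // t ∈ T l ∧ t.len = (η : κ.ord.ToType)}) := by
    refine Cardinal.mk_le_of_injective (f := fun r l =>
      (⟨l, ⟨(r.1 l : Node κ.ord.ToType).len, r.2 l⟩, r.1 l, (r.1 l).2, rfl⟩ :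
        Σ l : Fin (n + 1), Σ η : Iio ζ, {t // t ∈ T l ∧ t.len = (η : κ.ord.ToType)})) ?_
    intro r r' h
    refine Subtype.ext (funext fun l => Subtype.ext ?_)
    have h2 := congrFun h l
    have key : ∀ z w : (Σ l : Fin (n + 1), Σ η : Iio ζ,
        {t // t ∈ T l ∧ t.len = (η : κ.ord.ToType)}), z = w →
        (z.2.2 : Node κ.ord.ToType) = (w.2.2 : Node κ.ord.ToType) := by
      rintro z w rfl; rfl
    exact key _ _ h2
  refine lt_of_le_of_lt h1 ?_
  rw [← Cardinal.power_def]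
  have hfin : #(Fin (n + 1)) < κ :=
    lt_of_lt_of_le (Cardinal.lt_aleph0_of_finite _) hκ.aleph0_le
  refine pow_lt hlim hκ.aleph0_le ?_ hfin
  rw [Cardinal.mk_sigma]
  refine Cardinal.sum_lt_of_isRegular hκ hfin fun l => ?_
  rw [Cardinal.mk_sigma]
  refine Cardinal.sum_lt_of_isRegular hκ (Cardinal.mk_Iio_toType_ord_lt ζ) fun η => ?_
  have h2 := (hT l).level η.1
  rwa [Cardinal.mk_ord_toType] at h2

theorem exists_reqP (hκ : κ.IsRegular) (hlim : ∀ x < κ, 2 ^ x < κ) (h₀ : IsRegularTree T₀)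
    (hT : ∀ l, IsRegularTree (T l)) (c : T₀ → ((l : Fin (n + 1)) → T l) → ι)
    {Θ R C E : Type} (hE : #E < κ) (f : E → Θ → R) (hf : ∀ e, Function.Injective (f e))
    (g : E → Fin (n + 1) → C) (F : E → Θ → Set ι) (p₀ : R → T₀)
    (q₀ : (l : Fin (n + 1)) → C → T l)
    (hbad : ∀ e, ¬ GoodP c (fun a => p₀ (f e a)) (fun l => q₀ l (g e l)) (F e))
    (ζ : κ.ord.ToType) (p : R → T₀) (hp : p₀ ≤ p) :
    ∃ p', p ≤ p' ∧ (∀ m, ζ ≤ (p' m : Node κ.ord.ToType).len) ∧ ReqP c f g F q₀ ζ p' := by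
  classical
  have hJ : #(E × {r : (l : Fin (n + 1)) → T l //
      ∀ l, (r l : Node κ.ord.ToType).len < ζ}) < κ := by
    rw [Cardinal.mk_prod]
    simp only [Cardinal.lift_id]
    exact Cardinal.mul_lt_of_lt hκ.aleph0_le hE (card_lowtup hκ hlim hT ζ)
  obtain ⟨p1, hp1, hreq⟩ := (Closed.pi (J := R) (closed_tree hκ h₀)).meet hκ.aleph0_le hJ
    (fun (j : E × {r : (l : Fin (n + 1)) → T l // ∀ l, (r l : Node κ.ord.ToType).len < ζ})
      (p' : R → T₀) => (∀ l, q₀ l (g j.1 l) ≤ j.2.1 l) →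
        ∃ Q : (l : Fin (n + 1)) → Set (T l), (∀ l, #(Q l) < κ ∧ ∀ q ∈ Q l, j.2.1 l ≤ q) ∧
        ¬ HasBoxP c (fun a => p' (f j.1 a)) Q (F j.1))
    (by
      intro j p1 p2 h12 h hle
      obtain ⟨Q, hQ1, hQ2⟩ := h hle
      exact ⟨Q, hQ1, fun h => hQ2 (h.anti fun a => h12 _)⟩) p (by
      rintro ⟨e, r⟩ p1 hp1
      by_cases hle : ∀ l, q₀ l (g e l) ≤ r.1 l
      · have h1 := hbad e
        unfold GoodP at h1
        push Not at h1
        obtain ⟨p2, Q, h2, h3, h4⟩ := h1 (fun a => p1 (f e a)) r.1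
          (fun a => (hp _).trans (hp1 _)) hle
        refine ⟨Function.extend (f e) p2 p1, fun m => ?_, fun _ =>
          ⟨Q, fun l => ⟨?_, (h3 l).2⟩, ?_⟩⟩
        · by_cases hm : ∃ a, f e a = m
          · obtain ⟨a, rfl⟩ := hm
            rw [(hf e).extend_apply]
            exact h2 a
          · rw [Function.extend_apply' _ _ _ hm]
        · have h5 := (h3 l).1
          rwa [Cardinal.mk_ord_toType] at h5
        · simp only [(hf e).extend_apply]
          exact h4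
      · exact ⟨p1, le_rfl, fun h => absurd h hle⟩)
  have h6 : ∀ m, ∃ u : T₀, p1 m ≤ u ∧ (u : Node κ.ord.ToType).len =
      max ζ (p1 m : Node κ.ord.ToType).len := fun m =>
    exists_level h₀ (p1 m) _ (le_max_right _ _)
  choose p' hp'1 hp'2 using h6
  refine ⟨p', fun m => (hp1 m).trans (hp'1 m), fun m => by rw [hp'2]; exact le_max_left _ _,
    fun e r hr => ?_⟩
  obtain ⟨Q, hQ1, hQ2⟩ := hreq (e, ⟨r, fun l => (hr l).2⟩) (fun l => (hr l).1)
  exact ⟨Q, hQ1, fun h => hQ2 (h.anti fun a => hp'1 _)⟩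

/-- **One final matrix without any of the patterns.** -/
theorem avoidP (hκ : κ.IsInaccessible) (hHL : HLProp κ (n + 1)) (h₀ : IsRegularTree T₀)
    (hT : ∀ l, IsRegularTree (T l)) (hι : #ι < κ) (c : T₀ → ((l : Fin (n + 1)) → T l) → ι)
    {Θ R C E : Type} (hR : #R < κ) (hC : #C < κ) [Nonempty C] (hE : #E < κ) (f : E → Θ → R)
    (hf : ∀ e, Function.Injective (f e)) (g : E → Fin (n + 1) → C) (F : E → Θ → Set ι)
    (p₀ : R → T₀) (q₀ : (l : Fin (n + 1)) → C → T l)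
    (hbad : ∀ e, ¬ GoodP c (fun a => p₀ (f e a)) (fun l => q₀ l (g e l)) (F e)) :
    ∃ (ζ : κ.ord.ToType) (x : R → T₀) (y : (l : Fin (n + 1)) → C → T l),
      (∀ m, p₀ m ≤ x m ∧ (x m : Node κ.ord.ToType).len = ζ) ∧
      (∀ l k, q₀ l k ≤ y l k ∧ (y l k : Node κ.ord.ToType).len = ζ) ∧
      ∀ e, ¬ ∀ a : Θ, c (x (f e a)) (fun l => y l (g e l)) ∈ F e a := by
  classical
  have hreg := hκ.isRegular
  have hlim : ∀ x < κ, 2 ^ x < κ := fun x hx => hκ.isStrongLimit.isStrongPrelimit hx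
  have : NoMaxOrder κ.ord.ToType := Cardinal.noMaxOrder hreg.aleph0_le
  have hfin : #(Fin (n + 1)) < κ :=
    lt_of_lt_of_le (Cardinal.lt_aleph0_of_finite _) hreg.aleph0_le
  obtain ⟨G, hG⟩ := closed_seq hreg.aleph0_le (Closed.pi (J := R) (closed_tree hreg h₀))
    (ι := κ.ord.ToType) (fun ζ => Cardinal.mk_Iio_toType_ord_lt ζ)
    (fun ζ p' => (∀ m, ζ ≤ (p' m : Node κ.ord.ToType).len) ∧ ReqP c f g F q₀ ζ p') p₀
    (fun ζ p hp => exists_reqP hreg hlim h₀ hT c hE f hf g F p₀ q₀ hbad ζ p hp)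
  have hGmono : ∀ η ζ, η ≤ ζ → G η ≤ G ζ := by
    intro η ζ h
    rcases eq_or_lt_of_le h with h | h
    · rw [h]
    · exact (hG ζ).1 η h
  let x : R → κ.ord.ToType → T₀ := fun m ζ =>
    ⟨(G ζ m : Node κ.ord.ToType).restr ζ, h₀.down _ (G ζ m).2 _ (Node.restr_le ((hG ζ).2.2.1 m))⟩
  have hxge : ∀ m ζ (u : T₀), u ≤ G ζ m → (u : Node κ.ord.ToType).len ≤ ζ → u ≤ x m ζ :=
    fun m ζ u h1 h2 => Node.le_restr h1 h2
  have hι' : #(R → (Fin (n + 1) → C) → ι) < κ := by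
    rw [← Cardinal.power_def]
    refine pow_lt hlim hreg.aleph0_le ?_ hR
    rw [← Cardinal.power_def]
    refine pow_lt hlim hreg.aleph0_le hι ?_
    rw [← Cardinal.power_def]
    exact pow_lt hlim hreg.aleph0_le hC hfin
  obtain ⟨s, e, hs, hbox⟩ := box_of_hl hκ hHL hT hC q₀ hι'
    (fun ζ Y m k => c (x m ζ) (fun l => Y l (k l)))
  have hrect : ∀ ε : E, ¬ ∀ a : Θ, e (f ε a) (g ε) ∈ F ε a := by
    intro ε hall
    obtain ⟨l₀, hl₀⟩ := exists_bound hreg hfin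
      (fun l => (s l (g ε l) : Node κ.ord.ToType).len)
    obtain ⟨ζ₁, hζ₁⟩ := exists_gt l₀
    obtain ⟨Q, hQ1, hQ2⟩ := (hG ζ₁).2.2.2 ε (fun l => s l (g ε l))
      (fun l => ⟨hs l _, (hl₀ l).trans_lt hζ₁⟩)
    obtain ⟨η₂, hη₂⟩ := exists_bound hreg hR (fun m => (G ζ₁ m : Node κ.ord.ToType).len)
    obtain ⟨ζ, hζ, y, hy, hyc⟩ := hbox
      (fun l => {z | ∃ q ∈ Q l, z = Function.update (s l) (g ε l) q}) (by
        intro l
        refine ⟨?_, ?_⟩
        · have h1 : #{z : C → T l | ∃ q ∈ Q l, z = Function.update (s l) (g ε l) q} ≤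
              #(Q l) := by
            refine Cardinal.mk_le_of_surjective (f := fun z : Q l =>
              (⟨Function.update (s l) (g ε l) z, z, z.2, rfl⟩ :
                {z : C → T l | ∃ q ∈ Q l, z = Function.update (s l) (g ε l) q})) ?_
            rintro ⟨z, q, hq, rfl⟩
            exact ⟨⟨q, hq⟩, rfl⟩
          exact lt_of_le_of_lt h1 (hQ1 l).1
        · rintro z ⟨q, hq, rfl⟩ k
          by_cases hk : k = g ε l
          · subst hk
            rw [Function.update_self]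
            exact (hQ1 l).2 q hq
          · rw [Function.update_of_ne hk]) (max ζ₁ η₂)
    refine hQ2 ⟨ζ, fun a => x (f ε a) ζ,
      fun l q => y l (Function.update (s l) (g ε l) q) (g ε l), fun a => ⟨?_, rfl⟩,
      fun l q hq => ?_, fun a q hq => ?_⟩
    · refine hxge _ _ _ (hGmono ζ₁ ζ ((le_max_left _ _).trans hζ) _) ?_
      exact (hη₂ _).trans ((le_max_right _ _).trans hζ)
    · have h1 := hy l (Function.update (s l) (g ε l) q) ⟨q, hq, rfl⟩ (g ε l)
      rw [Function.update_self] at h1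
      exact h1
    · have h1 := hyc (fun l => Function.update (s l) (g ε l) (q l)) (fun l => ⟨q l, hq l, rfl⟩)
      have h2 : c (x (f ε a) ζ)
          (fun l => y l (Function.update (s l) (g ε l) (q l)) (g ε l)) = e (f ε a) (g ε) :=
        congrFun (congrFun h1 (f ε a)) (g ε)
      change c (x (f ε a) ζ)
          (fun l => y l (Function.update (s l) (g ε l) (q l)) (g ε l)) ∈ F ε a
      rw [h2]
      exact hall a
  obtain ⟨η₀, hη₀⟩ := exists_bound hreg hR (fun m => (p₀ m : Node κ.ord.ToType).len)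
  obtain ⟨ζ, hζ, y, hy, hyc⟩ := hbox (fun l => {s l}) (by
      intro l
      refine ⟨?_, ?_⟩
      · rw [Cardinal.mk_singleton]
        exact lt_of_lt_of_le one_lt_aleph0 hreg.aleph0_le
      · rintro z rfl k
        exact le_rfl) η₀
  refine ⟨ζ, fun m => x m ζ, fun l => y l (s l), fun m => ⟨?_, rfl⟩, fun l k => ?_,
    fun ε hall => hrect ε fun a => ?_⟩
  · exact hxge m ζ _ ((hG ζ).2.1 m) ((hη₀ m).trans hζ)
  · have h1 := hy l (s l) rfl k
    exact ⟨(hs l k).trans h1.1, h1.2⟩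
  · have h1 := hyc s (fun l => rfl)
    have h2 : c (x (f ε a) ζ) (fun l => y l (s l) (g ε l)) = e (f ε a) (g ε) :=
      congrFun (congrFun h1 (f ε a)) (g ε)
    rw [← h2]
    exact hall a

end Pool.Agent.Helper39.HT
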