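import Pool.Agent.Helper39.HT.Core

/-!
# Avoiding all colours that are not good
-/

set_option autoImplicit false

open Cardinal Set Helper2.HB Pool.Agent.Helper58.HL

namespace Pool.Agent.Helper39.HT

variable {κ : Cardinal.{0}} {T₀ T₁ : Set (Node κ.ord.ToType)} {ι : Type}

/-- Pigeonhole for blocks: a matrix with enough duplicates of every row and of every column that
has no rectangle `Θ × Θ` of a colour in `S` has a choice of duplicates without colours in `S`. -/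
theorem block_choice {P Q Θ Λ' Λ'' ι : Type} (S : Set ι) (hΘ' : #Θ ≤ #Λ')
    (hΘ'' : #Θ ≤ #Λ'') (h' : (#Λ').IsRegular) (h'' : (#Λ'').IsRegular)
    (hQ : #(Q → ι) < #Λ') (hR : #(P × Λ' → ι) < #Λ'') (M : P × Λ' → Q × Λ'' → ι)
    (hM : ∀ i ∈ S, ∀ (f : Θ → P × Λ') (g : Θ → Q × Λ''), Function.Injective f →
      Function.Injective g → ¬ ∀ a b, M (f a) (g b) = i) :
    ∃ (u : P → Λ') (v : Q → Λ''), ∀ p q, M (p, u p) (q, v q) ∉ S := by
  classical
  have h1 : ∀ q : Q, ∃ e : P × Λ' → ι,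
      #Λ'' ≤ #((fun (k : Λ'') (m : P × Λ') => M m (q, k)) ⁻¹' {e}) := fun q =>
    Cardinal.infinite_pigeonhole_card _ _ le_rfl h''.aleph0_le (by rwa [h''.cof_ord])
  choose e he using h1
  have h2 : ∀ p : P, ∃ τ : Q → ι,
      #Λ' ≤ #((fun (m : Λ') (q : Q) => e q (p, m)) ⁻¹' {τ}) := fun p =>
    Cardinal.infinite_pigeonhole_card _ _ le_rfl h'.aleph0_le (by rwa [h'.cof_ord])
  choose τ hτ using h2
  have hne' : ∀ p, ∃ m, (fun q : Q => e q (p, m)) = τ p := by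
    intro p
    have h3 : #((fun (m : Λ') (q : Q) => e q (p, m)) ⁻¹' {τ p}) ≠ 0 :=
      (lt_of_lt_of_le h'.pos (hτ p)).ne'
    obtain ⟨m, hm⟩ := (Cardinal.mk_ne_zero_iff.1 h3)
    exact ⟨m, hm⟩
  have hne'' : ∀ q, ∃ k, (fun m : P × Λ' => M m (q, k)) = e q := by
    intro q
    have h3 : #((fun (k : Λ'') (m : P × Λ') => M m (q, k)) ⁻¹' {e q}) ≠ 0 :=
      (lt_of_lt_of_le h''.pos (he q)).ne'
    obtain ⟨m, hm⟩ := (Cardinal.mk_ne_zero_iff.1 h3)
    exact ⟨m, hm⟩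
  choose u hu using hne'
  choose v hv using hne''
  refine ⟨u, v, fun p q hS => ?_⟩
  have h3 : M (p, u p) (q, v q) = τ p q := by
    rw [← hu p]
    exact congrFun (hv q) (p, u p)
  rw [h3] at hS
  obtain ⟨φ⟩ := hΘ'.trans (hτ p)
  obtain ⟨ψ⟩ := hΘ''.trans (he q)
  refine hM _ hS (fun a => (p, (φ a : Λ'))) (fun b => (q, (ψ b : Λ''))) ?_ ?_ ?_
  · intro a b hab
    exact φ.injective (Subtype.ext (congrArg Prod.snd hab))
  · intro a b hab
    exact ψ.injective (Subtype.ext (congrArg Prod.snd hab))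
  · intro a b
    have h4 : (fun m : P × Λ' => M m (q, (ψ b : Λ''))) = e q := (ψ b).2
    have h5 : (fun q : Q => e q (p, (φ a : Λ'))) = τ p := (φ a).2
    calc M (p, (φ a : Λ')) (q, (ψ b : Λ'')) = e q (p, (φ a : Λ')) := congrFun h4 _
      _ = τ p q := congrFun h5 q

/-- If the colours in `S` are not good above `(t₀, t₁)`, then all families of fewer than `κ`
nodes above `t₀` and `t₁` have extensions to a common level without colours in `S`. -/
theorem avoid_colors (hκ : κ.IsInaccessible) (h₀ : IsRegularTree T₀)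
    (h₁ : IsRegularTree T₁) (hι : #ι < κ) (c : T₀ → T₁ → ι) (t₀ : T₀) (t₁ : T₁) (S : Set ι)
    (hS : ∀ i ∈ S, ∃ A : Type, #A < κ ∧ ¬ Good c t₀ t₁ A i) (P Q : Type) (hP : #P < κ)
    (hQ : #Q < κ) (p : P → T₀) (hp : ∀ m, t₀ ≤ p m) (q : Q → T₁) (hq : ∀ j, t₁ ≤ q j) :
    ∃ (ζ : κ.ord.ToType) (x : P → T₀) (y : Q → T₁),
      (∀ m, p m ≤ x m ∧ (x m : Node κ.ord.ToType).len = ζ) ∧
      (∀ j, q j ≤ y j ∧ (y j : Node κ.ord.ToType).len = ζ) ∧
      ∀ m j, c (x m) (y j) ∉ S := by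
  classical
  have hreg := hκ.isRegular
  have hlim : ∀ x < κ, 2 ^ x < κ := fun x hx => hκ.isStrongLimit.isStrongPrelimit hx
  have hsucc : ∀ x < κ, Order.succ x < κ := fun x hx =>
    lt_of_le_of_lt (Order.succ_le_of_lt (Cardinal.cantor x)) (hlim x hx)
  have h0 := hreg.aleph0_le
  choose! A hA hbad using hS
  -- one index set for all colours
  let θ : Cardinal.{0} := max ℵ₀ (⨆ i : S, #(A i))
  have hθ : θ < κ := max_lt hκ.aleph0_lt
    (Cardinal.iSup_lt_of_lt_cof_ord (by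
      rw [hreg.cof_ord]; exact lt_of_le_of_lt (Cardinal.mk_set_le S) hι) fun i => hA i i.2)
  have hAθ : ∀ i ∈ S, #(A i) ≤ θ := fun i hi =>
    (le_ciSup (Cardinal.bddAbove_range _) (⟨i, hi⟩ : S)).trans (le_max_right _ _)
  let Θ : Type := θ.out
  have hΘ : #Θ = θ := Cardinal.mk_out θ
  have hbadΘ : ∀ i ∈ S, ¬ Good c t₀ t₁ Θ i := by
    intro i hi hgood
    have h1 : #(A i) ≤ #Θ := by rw [hΘ]; exact hAθ i hi
    obtain ⟨φ⟩ := h1
    exact hbad i hi (hgood.mono φ)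
  -- the duplicates
  let l' : Cardinal.{0} := Order.succ (max θ #(Q → ι))
  have hQι : #(Q → ι) < κ := by
    rw [← Cardinal.power_def]; exact pow_lt hlim h0 hι hQ
  have hl' : l' < κ := hsucc _ (max_lt hθ hQι)
  let Λ' : Type := l'.out
  have hΛ' : #Λ' = l' := Cardinal.mk_out l'
  have hreg' : (#Λ').IsRegular := by
    rw [hΛ']; exact Cardinal.isRegular_succ ((le_max_left _ _).trans (le_max_left _ _))
  have hPΛ : #(P × Λ') < κ := by
    rw [Cardinal.mk_prod]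
    simp only [Cardinal.lift_id]
    exact Cardinal.mul_lt_of_lt h0 hP (hΛ' ▸ hl')
  have hPι : #(P × Λ' → ι) < κ := by
    rw [← Cardinal.power_def]; exact pow_lt hlim h0 hι hPΛ
  let l'' : Cardinal.{0} := Order.succ (max θ #(P × Λ' → ι))
  have hl'' : l'' < κ := hsucc _ (max_lt hθ hPι)
  let Λ'' : Type := l''.out
  have hΛ'' : #Λ'' = l'' := Cardinal.mk_out l''
  have hreg'' : (#Λ'').IsRegular := by
    rw [hΛ'']; exact Cardinal.isRegular_succ ((le_max_left _ _).trans (le_max_left _ _))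
  have hQΛ : #(Q × Λ'') < κ := by
    rw [Cardinal.mk_prod]
    simp only [Cardinal.lift_id]
    exact Cardinal.mul_lt_of_lt h0 hQ (hΛ'' ▸ hl'')
  have hΘκ : #Θ < κ := by rw [hΘ]; exact hθ
  have hE : #(S × (Θ ↪ P × Λ') × (Θ ↪ Q × Λ'')) < κ := by
    have h1 : #(Θ ↪ P × Λ') < κ := by
      refine lt_of_le_of_lt (Cardinal.mk_embedding_le_arrow _ _) ?_
      rw [← Cardinal.power_def]; exact pow_lt hlim h0 hPΛ hΘκ
    have h2 : #(Θ ↪ Q × Λ'') < κ := by
      refine lt_of_le_of_lt (Cardinal.mk_embedding_le_arrow _ _) ?_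
      rw [← Cardinal.power_def]; exact pow_lt hlim h0 hQΛ hΘκ
    rw [Cardinal.mk_prod, Cardinal.mk_prod]
    simp only [Cardinal.lift_id]
    exact Cardinal.mul_lt_of_lt h0 (lt_of_le_of_lt (Cardinal.mk_set_le S) hι)
      (Cardinal.mul_lt_of_lt h0 h1 h2)
  obtain ⟨ζ, x, y, hx, hy, hxy⟩ := avoid hreg hlim hκ.aleph0_lt h₀ h₁ c t₀ t₁ hΘκ hPΛ hQΛ hE
    (fun e a => e.2.1 a) (fun e => e.2.1.injective) (fun e b => e.2.2 b) (fun e => (e.1 : ι))
    (fun e => hbadΘ _ e.1.2) (fun m => p m.1) (fun m => hp _) (fun l => q l.1) (fun l => hq _)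
  obtain ⟨u, v, huv⟩ := block_choice (P := P) (Q := Q) (Θ := Θ) (Λ' := Λ') (Λ'' := Λ'') S
    (by rw [hΘ, hΛ']; exact (le_max_left _ _).trans (Order.le_succ _))
    (by rw [hΘ, hΛ'']; exact (le_max_left _ _).trans (Order.le_succ _)) hreg' hreg''
    (by rw [hΛ']; exact Order.lt_succ_of_le (le_max_right _ _))
    (by rw [hΛ'']; exact Order.lt_succ_of_le (le_max_right _ _))
    (fun m l => c (x m) (y l)) (by
      intro i hi f g hf hg hall
      exact hxy (⟨i, hi⟩, ⟨f, hf⟩, ⟨g, hg⟩) hall)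
  exact ⟨ζ, fun m => x (m, u m), fun j => y (j, v j), fun m => hx (m, u m), fun j => hy (j, v j), huv⟩

end Pool.Agent.Helper39.HT
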