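import Pool.Agent.Helper39.HT.CoreP

/-!
# Avoiding all colours that are not good, several dimensions
-/

set_option autoImplicit false

open Cardinal Set Helper2.HB Pool.Agent.Helper58.HL Pool.Agent.Helper39.HL

namespace Pool.Agent.Helper39.HT

variable {κ : Cardinal.{0}} {n : ℕ} {T₀ : Set (Node κ.ord.ToType)}
  {T : Fin (n + 1) → Set (Node κ.ord.ToType)} {ι : Type}

/-- `avoidP` for sets of columns -/
theorem avoid_sets (hκ : κ.IsInaccessible) (hHL : HLProp κ (n + 1)) (h₀ : IsRegularTree T₀)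
    (hT : ∀ l, IsRegularTree (T l)) (hι : #ι < κ) (c : T₀ → ((l : Fin (n + 1)) → T l) → ι)
    {Θ R E : Type} (hR : #R < κ) (hE : #E < κ) (f : E → Θ → R)
    (hf : ∀ e, Function.Injective (f e)) (F : E → Θ → Set ι) (p₀ : R → T₀)
    (r : (l : Fin (n + 1)) → T l) (Q : (l : Fin (n + 1)) → Set (T l))
    (hQ : ∀ l, #(Q l) < κ ∧ ∀ q ∈ Q l, r l ≤ q)
    (hbad : ∀ e, ¬ GoodP c (fun a => p₀ (f e a)) r (F e)) :
    ∃ (ζ : κ.ord.ToType) (x : R → T₀) (y : (l : Fin (n + 1)) → T l → T l),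
      (∀ m, p₀ m ≤ x m ∧ (x m : Node κ.ord.ToType).len = ζ) ∧
      (∀ l, ∀ q ∈ Q l, q ≤ y l q ∧ (y l q : Node κ.ord.ToType).len = ζ) ∧
      ∀ e (q : (l : Fin (n + 1)) → T l), (∀ l, q l ∈ Q l) →
        ¬ ∀ a : Θ, c (x (f e a)) (fun l => y l (q l)) ∈ F e a := by
  classical
  have hreg := hκ.isRegular
  have hlim : ∀ x < κ, 2 ^ x < κ := fun x hx => hκ.isStrongLimit.isStrongPrelimit hx
  have hfin : #(Fin (n + 1)) < κ :=
    lt_of_lt_of_le (Cardinal.lt_aleph0_of_finite _) hreg.aleph0_le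
  have hC : #(Option (Σ l, Q l)) < κ := by
    rw [Cardinal.mk_option]
    refine Cardinal.add_lt_of_lt hreg.aleph0_le ?_
      (lt_of_lt_of_le one_lt_aleph0 hreg.aleph0_le)
    rw [Cardinal.mk_sigma]
    exact Cardinal.sum_lt_of_isRegular hreg hfin fun l => (hQ l).1
  have hE' : #(E × (Fin (n + 1) → Option (Σ l, Q l))) < κ := by
    rw [Cardinal.mk_prod]
    simp only [Cardinal.lift_id]
    refine Cardinal.mul_lt_of_lt hreg.aleph0_le hE ?_
    rw [← Cardinal.power_def]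
    exact pow_lt hlim hreg.aleph0_le hC hfin
  have hinj : ∀ l : Fin (n + 1), Function.Injective
      (fun q : Q l => (some ⟨l, q⟩ : Option (Σ l, Q l))) := by
    intro l q q' h
    simpa using h
  obtain ⟨q₀, hq₀⟩ : ∃ q₀ : (l : Fin (n + 1)) → Option (Σ l, Q l) → T l,
      ∀ l, q₀ l = Function.extend (fun q : Q l => (some ⟨l, q⟩ : Option (Σ l, Q l)))
        (fun q => q.1) (fun _ => r l) := ⟨_, fun l => rfl⟩
  have hrq : ∀ l k, r l ≤ q₀ l k := by
    intro l k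
    rw [hq₀]
    by_cases hk : ∃ q : Q l, (some ⟨l, q⟩ : Option (Σ l, Q l)) = k
    · obtain ⟨q, rfl⟩ := hk
      rw [(hinj l).extend_apply]
      exact (hQ l).2 q q.2
    · rw [Function.extend_apply' _ _ _ hk]
  obtain ⟨ζ, x, y, hx, hy, hxy⟩ := avoidP hκ hHL h₀ hT hι c hR hC hE'
    (fun e => f e.1) (fun e => hf e.1) (fun e => e.2) (fun e => F e.1) p₀ q₀
    (fun e h => hbad e.1 (h.of_le (fun _ => le_rfl) fun l => hrq l _))
  obtain ⟨y', hy'⟩ : ∃ y' : (l : Fin (n + 1)) → T l → T l,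
      ∀ l q (h : q ∈ Q l), y' l q = y l (some ⟨l, ⟨q, h⟩⟩) :=
    ⟨fun l q => if h : q ∈ Q l then y l (some ⟨l, ⟨q, h⟩⟩) else q, fun l q h => dif_pos h⟩
  refine ⟨ζ, x, y', hx, fun l q hq => ?_, fun e q hq hall => ?_⟩
  · rw [hy' l q hq]
    have h1 := hy l (some ⟨l, ⟨q, hq⟩⟩)
    rw [hq₀, (hinj l).extend_apply] at h1
    exact h1
  · refine hxy (e, fun l => some ⟨l, ⟨q l, hq l⟩⟩) fun a => ?_
    have h1 := hall a
    have h2 : (fun l => y' l (q l)) = fun l => y l (some ⟨l, ⟨q l, hq l⟩⟩) := by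
      funext l
      exact hy' l (q l) (hq l)
    rw [h2] at h1
    exact h1

/-- **Colours that are not good can be avoided**, all at the same time. -/
theorem avoid_colorsP (hκ : κ.IsInaccessible) (hHL : HLProp κ (n + 1))
    (h₀ : IsRegularTree T₀) (hT : ∀ l, IsRegularTree (T l)) (hι : #ι < κ)
    (c : T₀ → ((l : Fin (n + 1)) → T l) → ι) (t₀ : T₀) (t : (l : Fin (n + 1)) → T l)
    (S : Set ι)
    (hS : ∀ i ∈ S, ∃ A : Type, #A < κ ∧ ¬ GoodP c (fun _ : A => t₀) t (fun _ => {i})) :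
    AllBoxes c t₀ t Sᶜ := by
  classical
  have hreg := hκ.isRegular
  have hlim : ∀ x < κ, 2 ^ x < κ := fun x hx => hκ.isStrongLimit.isStrongPrelimit hx
  have hsucc : ∀ x < κ, Order.succ x < κ := fun x hx =>
    lt_of_le_of_lt (Order.succ_le_of_lt (Cardinal.cantor x)) (hlim x hx)
  have h0 := hreg.aleph0_le
  have hfin : #(Fin (n + 1)) < κ := lt_of_lt_of_le (Cardinal.lt_aleph0_of_finite _) h0
  choose! A hA hbad using hS
  intro B p Q hB hp hQ
  rw [Cardinal.mk_ord_toType] at hB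
  have hQ' : ∀ l, #(Q l) < κ ∧ ∀ q ∈ Q l, t l ≤ q := fun l => by
    have h1 := hQ l
    rwa [Cardinal.mk_ord_toType] at h1
  -- one index set for all colours
  let θ : Cardinal.{0} := max ℵ₀ (⨆ i : S, #(A i))
  have hθ : θ < κ := max_lt hκ.aleph0_lt
    (Cardinal.iSup_lt_of_lt_cof_ord (by
      rw [hreg.cof_ord]; exact lt_of_le_of_lt (Cardinal.mk_set_le S) hι) fun i => hA i i.2)
  have hAθ : ∀ i ∈ S, #(A i) ≤ θ := fun i hi =>
    (le_ciSup Cardinal.bddAbove_of_small (⟨i, hi⟩ : S)).trans (le_max_right _ _)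
  let Θ : Type := θ.out
  have hΘ : #Θ = θ := Cardinal.mk_out θ
  have hbadΘ : ∀ i ∈ S, ¬ GoodP c (fun _ : Θ => t₀) t (fun _ => {i}) := by
    intro i hi hgood
    have h1 : #(A i) ≤ #Θ := by rw [hΘ]; exact hAθ i hi
    obtain ⟨φ⟩ := h1
    exact hbad i hi (hgood.comp φ)
  have hΘκ : #Θ < κ := by rw [hΘ]; exact hθ
  -- the column tuples
  have hV : #((l : Fin (n + 1)) → Q l) < κ := by
    have h1 : #((l : Fin (n + 1)) → Q l) ≤ #(Fin (n + 1) → Σ l, Q l) := by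
      refine Cardinal.mk_le_of_injective (f := fun v l => (⟨l, v l⟩ : Σ l, Q l)) ?_
      intro v w h
      funext l
      have h2 := congrFun h l
      simpa using h2
    refine lt_of_le_of_lt h1 ?_
    rw [← Cardinal.power_def]
    refine pow_lt hlim h0 ?_ hfin
    rw [Cardinal.mk_sigma]
    exact Cardinal.sum_lt_of_isRegular hreg hfin fun l => (hQ' l).1
  have hVι : #(((l : Fin (n + 1)) → Q l) → ι) < κ := by
    rw [← Cardinal.power_def]; exact pow_lt hlim h0 hι hV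
  -- the duplicates of the rows
  let l' : Cardinal.{0} := Order.succ (max θ #(((l : Fin (n + 1)) → Q l) → ι))
  have hl' : l' < κ := hsucc _ (max_lt hθ hVι)
  let Λ' : Type := l'.out
  have hΛ' : #Λ' = l' := Cardinal.mk_out l'
  have hreg' : (#Λ').IsRegular := by
    rw [hΛ']; exact Cardinal.isRegular_succ ((le_max_left _ _).trans (le_max_left _ _))
  have hR : #(B × Λ') < κ := by
    rw [Cardinal.mk_prod]
    simp only [Cardinal.lift_id]
    exact Cardinal.mul_lt_of_lt h0 hB (hΛ' ▸ hl')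
  have hE : #(S × (Θ ↪ B × Λ')) < κ := by
    have h1 : #(Θ ↪ B × Λ') < κ := by
      refine lt_of_le_of_lt (Cardinal.mk_embedding_le_arrow _ _) ?_
      rw [← Cardinal.power_def]; exact pow_lt hlim h0 hR hΘκ
    rw [Cardinal.mk_prod]
    simp only [Cardinal.lift_id]
    exact Cardinal.mul_lt_of_lt h0 (lt_of_le_of_lt (Cardinal.mk_set_le S) hι) h1
  obtain ⟨ζ, x, y, hx, hy, hxy⟩ := avoid_sets hκ hHL h₀ hT hι c hR hE
    (fun e a => e.2 a) (fun e => e.2.injective) (fun e _ => {(e.1 : ι)}) (fun m => p m.1) t Q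
    hQ' (fun e h => hbadΘ _ e.1.2 (h.of_le (fun a => hp _) fun l => le_rfl))
  have h2 : ∀ w : B, ∃ ρ : ((l : Fin (n + 1)) → Q l) → ι,
      #Λ' ≤ #((fun (m : Λ') (v : (l : Fin (n + 1)) → Q l) =>
        c (x (w, m)) (fun l => y l (v l))) ⁻¹' {ρ}) := fun w =>
    Cardinal.infinite_pigeonhole_card _ _ le_rfl hreg'.aleph0_le (by
      rw [hreg'.cof_ord, hΛ']
      exact Order.lt_succ_of_le (le_max_right _ _))
  choose ρ hρ using h2
  have hu : ∀ w, ∃ m, (fun v : (l : Fin (n + 1)) → Q l =>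
      c (x (w, m)) (fun l => y l (v l))) = ρ w := by
    intro w
    have h3 : #((fun (m : Λ') (v : (l : Fin (n + 1)) → Q l) =>
        c (x (w, m)) (fun l => y l (v l))) ⁻¹' {ρ w}) ≠ 0 :=
      (lt_of_lt_of_le hreg'.pos (hρ w)).ne'
    obtain ⟨m, hm⟩ := Cardinal.mk_ne_zero_iff.1 h3
    exact ⟨m, hm⟩
  choose u hu using hu
  refine ⟨ζ, fun w => x (w, u w), y, fun w => hx (w, u w), hy, fun w q hq hmem => ?_⟩
  let v : (l : Fin (n + 1)) → Q l := fun l => ⟨q l, hq l⟩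
  have h3 : c (x (w, u w)) (fun l => y l (q l)) = ρ w v := congrFun (hu w) v
  have hmem' : ρ w v ∈ S := by rw [← h3]; exact hmem
  have h4 : #Θ ≤ #((fun (m : Λ') (v : (l : Fin (n + 1)) → Q l) =>
      c (x (w, m)) (fun l => y l (v l))) ⁻¹' {ρ w}) := by
    refine le_trans ?_ (hρ w)
    rw [hΘ, hΛ']
    exact (le_max_left _ _).trans (Order.le_succ _)
  obtain ⟨φ⟩ := h4
  refine hxy (⟨ρ w v, hmem'⟩, ⟨fun a => (w, (φ a : Λ')), fun a a' h =>
    φ.injective (Subtype.ext (congrArg Prod.snd h))⟩) q hq fun a => ?_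
  exact congrFun (φ a).2 v

end Pool.Agent.Helper39.HT
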