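import Pool.Agent.Helper39.HT.Main
import Pool.Agent.Helper39.HT.DefD

/-!
# `HL(1)` for fewer than `κ` colours at an inaccessible cardinal

Proof. Let `T := T 0`, `c' : T → T → ι`, `c' x y := c (fun _ => y)` (a colour that depends on the
second node only); pick a node `t` of `T` (`#T = #K`, so `T` is nonempty) and apply `main` of
HT/Main.lean to `c'`, `t`, `t`. First alternative: the strong subtree `T₁'` (with `A`, `i`) works.
Second alternative: a colour `i` with `Good c' t t PUnit i`, i.e. nodes `p`, `r` such that all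
families of fewer than `κ` nodes above `r` have a box of colour `i` over every `p' ≥ p`. Apply
`strong_of_all_boxes` (HT/Main.lean) to `c'`, `s := p`, `t := r`, `i`: given `p' : M → T`,
`q : J → T` above `p`, `r`, take for `Q` the nodes `q j` and the node `r`, extended to levels that
are at least all lengths of `p' m` (`exists_level`, `exists_bound`); the level `ζ` of the box is
then at least this bound, and the `p' m` are extended to the level `ζ` arbitrarily, because `c'`
does not depend on the first node.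
-/

set_option autoImplicit false

open Cardinal Set Helper2.HB Pool.Agent.Helper58.HL Pool.Agent.Helper39.HL

namespace Pool.Agent.Helper39.HT

variable {κ : Cardinal.{0}}

/-- boxes of a colour which depends on the second node only -/
theorem levels_one (hκ : κ.IsRegular) {T : Set (Node κ.ord.ToType)} (hT : IsRegularTree T)
    {ι : Type} (c : T → ι) (t : T) (i : ι) (p r : T)
    (h : ∀ (p' : PUnit.{1} → T) (Q : PUnit.{1} → Set T), (∀ a, p ≤ p' a) →
      (∀ a, #(Q a) < #κ.ord.ToType ∧ ∀ q ∈ Q a, r ≤ q) →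
      HasBox (fun (_ : T) y => c y) p' Q i)
    (M J : Type) (hM : #M < κ) (hJ : #J < κ) (p' : M → T) (q : J → T)
    (hq : ∀ j, r ≤ q j) :
    (levels (fun (_ : T) y => c y) i p' q).Nonempty := by
  classical
  obtain ⟨b, hb⟩ := exists_bound hκ hM (fun m => (p' m : Node κ.ord.ToType).len)
  -- the nodes `q j` and `r`, extended beyond the level `b`
  let q₀ : Option J → T := fun o => o.elim r q
  have hr₀ : ∀ o, r ≤ q₀ o := by
    rintro (_ | j)
    · exact le_rfl
    · exact hq j
  have hext : ∀ o, ∃ u : T, q₀ o ≤ u ∧ b ≤ (u : Node κ.ord.ToType).len := by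
    intro o
    obtain ⟨u, hu, hul⟩ := exists_level hT (q₀ o) (max b (q₀ o : Node κ.ord.ToType).len)
      (le_max_right _ _)
    exact ⟨u, hu, hul ▸ le_max_left _ _⟩
  choose u hu hub using hext
  have hO : #(Option J) < κ := by
    rw [Cardinal.mk_option]
    exact Cardinal.add_lt_of_lt hκ.aleph0_le hJ (lt_of_lt_of_le one_lt_aleph0 hκ.aleph0_le)
  obtain ⟨ζ, x₀, y, -, hy, hxy⟩ := h (fun _ => p) (fun _ => range u) (fun _ => le_rfl) (by
    intro _
    refine ⟨?_, ?_⟩
    · rw [Cardinal.mk_ord_toType]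
      exact lt_of_le_of_lt Cardinal.mk_range_le hO
    · rintro _ ⟨o, rfl⟩
      exact (hr₀ o).trans (hu o))
  have hy' : ∀ o, u o ≤ y PUnit.unit (u o) ∧
      (y PUnit.unit (u o) : Node κ.ord.ToType).len = ζ := fun o =>
    hy PUnit.unit (u o) (mem_range_self o)
  have hbζ : b ≤ ζ := by
    rw [← (hy' none).2]
    exact (hub none).trans
      (show (u none : Node κ.ord.ToType) ≤ (y PUnit.unit (u none) : Node κ.ord.ToType) from
        (hy' none).1).1
  have hx : ∀ m, ∃ x : T, p' m ≤ x ∧ (x : Node κ.ord.ToType).len = ζ := fun m =>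
    exists_level hT (p' m) ζ ((hb m).trans hbζ)
  choose x hx1 hx2 using hx
  refine ⟨ζ, x, fun j => y PUnit.unit (u (some j)), fun m => ⟨hx1 m, hx2 m⟩, fun j => ?_,
    fun m j => ?_⟩
  · exact ⟨(hu (some j)).trans (hy' (some j)).1, (hy' (some j)).2⟩
  · exact hxy PUnit.unit PUnit.unit (u (some j)) (mem_range_self _)

theorem hlProp_one (hκ : κ.IsInaccessible) : HLProp κ 1 := by
  classical
  intro T hT _ ι hι c
  have hreg := hκ.isRegular
  have hne : Nonempty (T 0) := by
    rw [← Cardinal.mk_ne_zero_iff, (hT 0).card, Cardinal.mk_ord_toType]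
    exact hreg.pos.ne'
  obtain ⟨t⟩ := hne
  let c₀ : T 0 → ι := fun y => c (fun _ => (y : Node κ.ord.ToType))
  have key : ∃ A : Set κ.ord.ToType, (∀ a, ∃ ζ ∈ A, a < ζ) ∧
      ∃ (T₀' T₁' : Set (Node κ.ord.ToType)) (i : ι),
      IsStrongSubtree (T 0) A T₀' ∧ IsStrongSubtree (T 0) A T₁' ∧
      ∀ ζ ∈ A, {j | ∃ (x : T 0) (y : T 0), (x : Node κ.ord.ToType) ∈ T₀' ∧
        (y : Node κ.ord.ToType) ∈ T₁' ∧ (x : Node κ.ord.ToType).len = ζ ∧
        (y : Node κ.ord.ToType).len = ζ ∧ c₀ y = j} = {i} := by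
    rcases main hκ (hT 0) (hT 0) hι (fun (_ : T 0) y => c₀ y) t t with
      ⟨A, hA, T₀', T₁', i, -, -, hS₀, hS₁, -, -, h⟩ | ⟨i, j, -, h⟩
    · exact ⟨A, hA, T₀', T₁', i, hS₀, hS₁, h⟩
    · have hone : #PUnit.{1} < κ := by
        rw [Cardinal.mk_punit]; exact lt_of_lt_of_le one_lt_aleph0 hreg.aleph0_le
      obtain ⟨p, r, hpr, hG⟩ := (h PUnit.{1} hone).1
      obtain ⟨A, hA, T₀', T₁', -, -, hS₀, hS₁, -, -, h2⟩ :=
        strong_of_all_boxes hreg (hT 0) (hT 0) (fun (_ : T 0) y => c₀ y)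
          (p PUnit.unit) (r PUnit.unit) i (by
            intro M J hM hJ p' q _ hq
            exact levels_one hreg (hT 0) c₀ t i (p PUnit.unit) (r PUnit.unit)
              (fun p' Q hp' hQ => hG p' Q (fun a => hp' a) (fun a => hQ a)) M J hM hJ p' q hq)
      exact ⟨A, hA, T₀', T₁', i, hS₀, hS₁, h2⟩
  obtain ⟨A, hA, T₀', T₁', i, hS₀, hS₁, h⟩ := key
  refine ⟨A, hA, fun _ => T₁', i, ?_, fun ζ hζ => ?_⟩
  · intro l
    have hl : l = 0 := Subsingleton.elim _ _
    rw [hl]
    exact hS₁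
  · have hh := h ζ hζ
    have hi : i ∈ ({i} : Set ι) := mem_singleton i
    rw [← hh] at hi
    obtain ⟨x₀, y₀, hx₀, hy₀, hx₀l, hy₀l, hc₀⟩ := hi
    ext j
    constructor
    · rintro ⟨v, hv, rfl⟩
      rw [← hh]
      refine ⟨x₀, ⟨v 0, hS₁.subset (hv 0).1⟩, hx₀, (hv 0).1, hx₀l, (hv 0).2, ?_⟩
      change c (fun _ => v 0) = c v
      congr 1
      funext l
      rw [Subsingleton.elim l 0]
    · rintro rfl
      exact ⟨fun _ => (y₀ : Node κ.ord.ToType), fun _ => ⟨hy₀, hy₀l⟩, hc₀⟩

end Pool.Agent.Helper39.HT
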