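import Pool.Agent.Helper39.HT.Dup

/-!
# Homogeneous strong subtrees or two good colours
-/

set_option autoImplicit false

open Cardinal Set Helper2.HB Pool.Agent.Helper58.HL Pool.Agent.Helper39.HL

namespace Pool.Agent.Helper39.HT

variable {κ : Cardinal.{0}} {T₀ T₁ : Set (Node κ.ord.ToType)} {ι : Type}

/-- the levels of the boxes of colour `i` above given families -/
def levels (c : T₀ → T₁ → ι) (i : ι) {M J : Type} (p : M → T₀) (q : J → T₁) :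
    Set κ.ord.ToType :=
  {ζ | ∃ (x : M → T₀) (y : J → T₁),
    (∀ m, p m ≤ x m ∧ (x m : Node κ.ord.ToType).len = ζ) ∧
    (∀ j, q j ≤ y j ∧ (y j : Node κ.ord.ToType).len = ζ) ∧ ∀ m j, c (x m) (y j) = i}

/-- Boxes for all families give strong subtrees. -/
theorem strong_of_all_boxes (hκ : κ.IsRegular) (h₀ : IsRegularTree T₀)
    (h₁ : IsRegularTree T₁) (c : T₀ → T₁ → ι) (s : T₀) (t : T₁) (i : ι)
    (hbox : ∀ (M J : Type), #M < κ → #J < κ → ∀ (p : M → T₀) (q : J → T₁), (∀ m, s ≤ p m) →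
      (∀ j, t ≤ q j) → (levels c i p q).Nonempty) :
    ∃ A : Set κ.ord.ToType, (∀ a, ∃ ζ ∈ A, a < ζ) ∧ ∃ T₀' T₁' : Set (Node κ.ord.ToType),
      (s : Node κ.ord.ToType) ∈ T₀' ∧ (t : Node κ.ord.ToType) ∈ T₁' ∧
      IsStrongSubtree T₀ A T₀' ∧ IsStrongSubtree T₁ A T₁' ∧
      ((∀ u ∈ T₀, u.len ∈ A → Splits T₀ u) → IsRegularTree T₀') ∧
      ((∀ u ∈ T₁, u.len ∈ A → Splits T₁ u) → IsRegularTree T₁') ∧
      ∀ ζ ∈ A, {j | ∃ (x : T₀) (y : T₁), (x : Node κ.ord.ToType) ∈ T₀' ∧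
        (y : Node κ.ord.ToType) ∈ T₁' ∧ (x : Node κ.ord.ToType).len = ζ ∧
        (y : Node κ.ord.ToType).len = ζ ∧ c x y = j} = {i} := by
  classical
  have : NoMaxOrder κ.ord.ToType := Cardinal.noMaxOrder hκ.aleph0_le
  let F : Filter κ.ord.ToType :=
    { sets := {U | ∃ (M J : Type) (p : M → T₀) (q : J → T₁), #M < κ ∧ #J < κ ∧
        (∀ m, s ≤ p m) ∧ (∀ j, t ≤ q j) ∧ levels c i p q ⊆ U}
      univ_sets := ⟨PEmpty, PEmpty, fun m => m.elim, fun j => j.elim, by simpa using hκ.pos,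
        by simpa using hκ.pos, fun m => m.elim, fun j => j.elim, subset_univ _⟩
      sets_of_superset := by
        rintro U V ⟨M, J, p, q, h1, h2, h3, h4, h5⟩ hUV
        exact ⟨M, J, p, q, h1, h2, h3, h4, h5.trans hUV⟩
      inter_sets := by
        rintro U V ⟨M, J, p, q, h1, h2, h3, h4, h5⟩ ⟨M', J', p', q', h1', h2', h3', h4', h5'⟩
        refine ⟨M ⊕ M', J ⊕ J', Sum.elim p p', Sum.elim q q', ?_, ?_, ?_, ?_, ?_⟩
        · rw [Cardinal.mk_sum]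
          simp only [Cardinal.lift_id]
          exact Cardinal.add_lt_of_lt hκ.aleph0_le h1 h1'
        · rw [Cardinal.mk_sum]
          simp only [Cardinal.lift_id]
          exact Cardinal.add_lt_of_lt hκ.aleph0_le h2 h2'
        · rintro (m | m)
          · exact h3 m
          · exact h3' m
        · rintro (m | m)
          · exact h4 m
          · exact h4' m
        · rintro ζ ⟨x, y, hx, hy, hxy⟩
          refine ⟨h5 ⟨fun m => x (Sum.inl m), fun j => y (Sum.inl j), fun m => hx (Sum.inl m),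
            fun j => hy (Sum.inl j), fun m j => hxy _ _⟩, h5' ⟨fun m => x (Sum.inr m),
            fun j => y (Sum.inr j), fun m => hx (Sum.inr m), fun j => hy (Sum.inr j),
            fun m j => hxy _ _⟩⟩ }
  have hmem : ∀ U, U ∈ F ↔ ∃ (M J : Type) (p : M → T₀) (q : J → T₁), #M < κ ∧ #J < κ ∧
        (∀ m, s ≤ p m) ∧ (∀ j, t ≤ q j) ∧ levels c i p q ⊆ U := fun U => Iff.rfl
  have hne : F.NeBot := by
    rw [Filter.neBot_iff, Ne, ← Filter.empty_mem_iff_bot, hmem]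
    rintro ⟨M, J, p, q, h1, h2, h3, h4, h5⟩
    obtain ⟨ζ, hζ⟩ := hbox M J h1 h2 p q h3 h4
    exact h5 hζ
  have htail : ∀ a, Ioi a ∈ F := by
    intro a
    obtain ⟨b, hb⟩ := exists_gt (max a (s : Node κ.ord.ToType).len)
    obtain ⟨r, hr, hrl⟩ := exists_level h₀ s b ((le_max_right _ _).trans hb.le)
    rw [hmem]
    refine ⟨PUnit, PEmpty, fun _ => r, fun j => j.elim, ?_, by simpa using hκ.pos, fun _ => hr,
      fun j => j.elim, ?_⟩
    · rw [Cardinal.mk_punit]; exact lt_of_lt_of_le one_lt_aleph0 hκ.aleph0_le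
    · rintro ζ ⟨x, y, hx, -, -⟩
      have h1 := (hx PUnit.unit).1
      have h2 := (hx PUnit.unit).2
      have h3 : b ≤ ζ := by
        rw [← h2, ← hrl]
        exact (show (r : Node κ.ord.ToType) ≤ (x PUnit.unit : Node κ.ord.ToType) from h1).1
      exact ((le_max_left _ _).trans_lt hb).trans_le h3
  obtain ⟨A, -, hA, T₀', T₁', hs, ht, hS₀, hS₁, hl₀, hl₁, hr₀, hr₁, hc⟩ :=
    strong_of_boxes hκ h₀ h₁ F htail c s t i (by
      intro M J hM hJ p q hp hq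
      rw [hmem]
      exact ⟨M, J, p, q, hM, hJ, hp, hq, subset_rfl⟩) univ Filter.univ_mem
  refine ⟨A, hA, T₀', T₁', hs, ht, hS₀, hS₁, hr₀, hr₁, fun ζ hζ => ?_⟩
  ext j
  constructor
  · rintro ⟨x, y, hx, hy, hxl, hyl, rfl⟩
    exact hc x y hx hy (hxl ▸ hζ) (hxl.trans hyl.symm)
  · rintro rfl
    obtain ⟨x, hx, hxl⟩ := hl₀ ζ
    obtain ⟨y, hy, hyl⟩ := hl₁ ζ
    refine ⟨⟨x, hS₀.subset hx⟩, ⟨y, hS₁.subset hy⟩, hx, hy, hxl, hyl, ?_⟩
    exact hc _ _ hx hy (hxl ▸ hζ) (hxl.trans hyl.symm)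

/-- **Homogeneous strong subtrees, or two good colours.** -/
theorem main (hκ : κ.IsInaccessible) (h₀ : IsRegularTree T₀) (h₁ : IsRegularTree T₁)
    (hι : #ι < κ) (c : T₀ → T₁ → ι) (t₀ : T₀) (t₁ : T₁) :
    (∃ A : Set κ.ord.ToType, (∀ a, ∃ ζ ∈ A, a < ζ) ∧ ∃ (T₀' T₁' : Set (Node κ.ord.ToType))
      (i : ι), (t₀ : Node κ.ord.ToType) ∈ T₀' ∧ (t₁ : Node κ.ord.ToType) ∈ T₁' ∧
      IsStrongSubtree T₀ A T₀' ∧ IsStrongSubtree T₁ A T₁' ∧
      ((∀ u ∈ T₀, u.len ∈ A → Splits T₀ u) → IsRegularTree T₀') ∧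
      ((∀ u ∈ T₁, u.len ∈ A → Splits T₁ u) → IsRegularTree T₁') ∧
      ∀ ζ ∈ A, {j | ∃ (x : T₀) (y : T₁), (x : Node κ.ord.ToType) ∈ T₀' ∧
        (y : Node κ.ord.ToType) ∈ T₁' ∧ (x : Node κ.ord.ToType).len = ζ ∧
        (y : Node κ.ord.ToType).len = ζ ∧ c x y = j} = {i}) ∨
    ∃ i j : ι, i ≠ j ∧ ∀ A : Type, #A < κ → Good c t₀ t₁ A i ∧ Good c t₀ t₁ A j := by
  classical
  by_cases h : ∃ i j : ι, i ≠ j ∧ ∀ A : Type, #A < κ → Good c t₀ t₁ A i ∧ Good c t₀ t₁ A j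
  · exact Or.inr h
  left
  let G : Set ι := {i | ∀ A : Type, #A < κ → Good c t₀ t₁ A i}
  have hG : ∀ i ∈ G, ∀ j ∈ G, i = j := by
    intro i hi j hj
    by_contra hij
    exact h ⟨i, j, hij, fun A hA => ⟨hi A hA, hj A hA⟩⟩
  have hav : ∀ (M J : Type), #M < κ → #J < κ → ∀ (p : M → T₀) (q : J → T₁),
      (∀ m, t₀ ≤ p m) → (∀ j, t₁ ≤ q j) →
      ∃ (ζ : κ.ord.ToType) (x : M → T₀) (y : J → T₁),
      (∀ m, p m ≤ x m ∧ (x m : Node κ.ord.ToType).len = ζ) ∧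
      (∀ j, q j ≤ y j ∧ (y j : Node κ.ord.ToType).len = ζ) ∧ ∀ m j, c (x m) (y j) ∈ G := by
    intro M J hM hJ p q hp hq
    obtain ⟨ζ, x, y, hx, hy, hxy⟩ := avoid_colors hκ h₀ h₁ hι c t₀ t₁ Gᶜ (by
      intro i hi
      have h1 : ¬ ∀ A : Type, #A < κ → Good c t₀ t₁ A i := hi
      push Not at h1
      exact h1) M J hM hJ p hp q hq
    exact ⟨ζ, x, y, hx, hy, fun m j => not_not.1 (hxy m j)⟩
  have hone : #PUnit.{1} < κ := by
    rw [Cardinal.mk_punit]; exact lt_of_lt_of_le one_lt_aleph0 hκ.isRegular.aleph0_le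
  obtain ⟨ζ, x, y, -, -, hxy⟩ := hav PUnit PUnit hone hone (fun _ => t₀) (fun _ => t₁)
    (fun _ => le_rfl) (fun _ => le_rfl)
  set i := c (x PUnit.unit) (y PUnit.unit) with hi
  have hiG : i ∈ G := hxy PUnit.unit PUnit.unit
  obtain ⟨A, hA, T₀', T₁', hs, ht, hS₀, hS₁, hr₀, hr₁, hc⟩ :=
    strong_of_all_boxes hκ.isRegular h₀ h₁ c t₀ t₁ i (by
      intro M J hM hJ p q hp hq
      obtain ⟨ζ, x, y, hx, hy, hxy⟩ := hav M J hM hJ p q hp hq
      exact ⟨ζ, x, y, hx, hy, fun m j => hG _ (hxy m j) _ hiG⟩)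
  exact ⟨A, hA, T₀', T₁', i, hs, ht, hS₀, hS₁, hr₀, hr₁, hc⟩

end Pool.Agent.Helper39.HT
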