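import Pool.Agent.Helper39.HT.TransP
import Pool.Agent.Helper39.HT.HLOne

/-!
# Colourings without homogeneous strong subtrees
-/

set_option autoImplicit false

open Cardinal Set Helper2.HB Pool.Agent.Helper58.HL Pool.Agent.Helper39.HL

namespace Pool.Agent.Helper39.HT

variable {κ : Cardinal.{0}} {n : ℕ} {T₀ : Set (Node κ.ord.ToType)}
  {T : Fin (n + 1) → Set (Node κ.ord.ToType)} {ι : Type}

/-- Boxes of one colour for all families give strong subtrees. -/
theorem AllBoxes.homogeneous (hκ : κ.IsRegular) (h₀ : IsRegularTree T₀)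
    (hT : ∀ l, IsRegularTree (T l)) {c : T₀ → ((l : Fin (n + 1)) → T l) → ι} {t₀ : T₀}
    {t : (l : Fin (n + 1)) → T l} {S : Set ι} (hS : ∀ i ∈ S, ∀ j ∈ S, i = j)
    (h : AllBoxes c t₀ t S) : Homogeneous c t₀ t := by
  classical
  have hone : #PUnit.{1} < #κ.ord.ToType := by
    rw [Cardinal.mk_punit, Cardinal.mk_ord_toType]
    exact lt_of_lt_of_le one_lt_aleph0 hκ.aleph0_le
  obtain ⟨ζ, x, y, -, -, hxy⟩ := h PUnit (fun _ => t₀) (fun l => {t l}) hone
    (fun _ => le_rfl) (fun l => ⟨by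
      rw [Cardinal.mk_singleton, Cardinal.mk_ord_toType]
      exact lt_of_lt_of_le one_lt_aleph0 hκ.aleph0_le, by rintro q rfl; exact le_rfl⟩)
  have hi : c (x PUnit.unit) (fun l => y l (t l)) ∈ S := hxy PUnit.unit t fun l => rfl
  refine strong_of_all_boxesD hκ h₀ hT c t₀ t (c (x PUnit.unit) (fun l => y l (t l))) ?_
  intro W _ hW p q hp hq
  obtain ⟨ζ', x', y', hx', hy', hxy'⟩ := h W p (fun l => range (q l))
    (by rw [Cardinal.mk_ord_toType]; exact hW) hp (fun l => ⟨by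
      rw [Cardinal.mk_ord_toType]
      exact lt_of_le_of_lt Cardinal.mk_range_le hW, by rintro _ ⟨w, rfl⟩; exact hq l w⟩)
  exact ⟨ζ', x', fun l w => y' l (q l w), hx', fun l w => hy' l (q l w) ⟨w, rfl⟩,
    fun m j => hS _ (hxy' m (fun l => q l (j l)) fun l => ⟨j l, rfl⟩) _ hi⟩

theorem GoodL.of_le {Large : Set κ.ord.ToType → Prop}
    {c : T₀ → ((l : Fin (n + 1)) → T l) → ι} {A : Type} {P P' : A → T₀}
    {r r' : (l : Fin (n + 1)) → T l} {F : A → Set ι} (h : GoodL Large c P' r' F)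
    (hP : ∀ a, P a ≤ P' a) (hr : ∀ l, r l ≤ r' l) : GoodL Large c P r F := by
  obtain ⟨p, s, h1, h2, h3⟩ := h
  exact ⟨p, s, fun a => (hP a).trans (h1 a), fun l => (hr l).trans (h2 l), h3⟩

/-- **Colours that are not good can be avoided**, all at the same time. -/
theorem avoidL (hκ : κ.IsInaccessible) (hHL : HLProp κ (n + 1)) (h₀ : IsRegularTree T₀)
    (hT : ∀ l, IsRegularTree (T l)) (hι : #ι < κ) (c : T₀ → ((l : Fin (n + 1)) → T l) → ι)
    (Large : Set κ.ord.ToType → Prop) (hL : IsLarge Large) (t₀ : T₀)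
    (t : (l : Fin (n + 1)) → T l) (S : Set ι)
    (hS : ∀ i ∈ S, ∃ A : Type, #A < κ ∧ ¬ GoodL Large c (fun _ : A => t₀) t (fun _ => {i})) :
    AllBoxes c t₀ t Sᶜ := by
  classical
  choose! A hA hbad using hS
  obtain ⟨c', h1, h2⟩ := transfer hκ h₀ hT c Large hL (E := S)
    (lt_of_le_of_lt (Cardinal.mk_set_le S) hι) (fun i => A i) (fun i => hA i i.2)
    (fun i _ => t₀) t (fun i _ => {(i : ι)}) (fun i => hbad i i.2)
  have h3 := avoid_colorsP hκ hHL h₀ hT hι c' t₀ t S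
    (fun i hi => ⟨A i, hA i hi, h1 ⟨i, hi⟩⟩)
  exact fun B p Q hB hp hQ => h2 B p Q _ (h3 B p Q hB hp hQ)

/-- **The pattern theorem.** -/
theorem patternL (hκ : κ.IsInaccessible) (hHL : HLProp κ (n + 1)) (h₀ : IsRegularTree T₀)
    (hT : ∀ l, IsRegularTree (T l)) (hι : #ι < κ) (c : T₀ → ((l : Fin (n + 1)) → T l) → ι)
    (Large : Set κ.ord.ToType → Prop) (hL : IsLarge Large) {A : Type} [Nonempty A]
    (hA : #A < κ) (P : A → T₀) (r : (l : Fin (n + 1)) → T l) (F : A → Set ι)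
    (hF : ∀ a s, (∀ l, r l ≤ s l) → ¬ AllBoxes c (P a) s (F a)ᶜ) : GoodL Large c P r F := by
  by_contra hbad
  obtain ⟨c', h1, h2⟩ := transfer hκ h₀ hT c Large hL (E := PUnit.{1})
    (by rw [Cardinal.mk_punit]; exact lt_trans one_lt_aleph0 hκ.aleph0_lt)
    (fun _ => A) (fun _ => hA) (fun _ => P) r (fun _ => F) (fun _ => hbad)
  refine h1 PUnit.unit (patternP hκ hHL h₀ hT hι c' hA P r F fun a s hs hall => ?_)
  exact hF a s hs fun B p Q hB hp hQ => h2 B p Q _ (hall B p Q hB hp hQ)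

/-- **Homogeneous strong subtrees, or two good colours.** -/
theorem dichotomyL (hκ : κ.IsInaccessible) (hHL : HLProp κ (n + 1)) (h₀ : IsRegularTree T₀)
    (hT : ∀ l, IsRegularTree (T l)) (hι : #ι < κ) (c : T₀ → ((l : Fin (n + 1)) → T l) → ι)
    (Large : Set κ.ord.ToType → Prop) (hL : IsLarge Large) (t₀ : T₀)
    (t : (l : Fin (n + 1)) → T l) (hno : ¬ Homogeneous c t₀ t) :
    ∃ i j : ι, i ≠ j ∧ ∀ A : Type, #A < κ →
      GoodL Large c (fun _ : A => t₀) t (fun _ => {i}) ∧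
      GoodL Large c (fun _ : A => t₀) t (fun _ => {j}) := by
  by_contra h
  let G : Set ι := {i | ∀ A : Type, #A < κ → GoodL Large c (fun _ : A => t₀) t (fun _ => {i})}
  have hG : ∀ i ∈ G, ∀ j ∈ G, i = j := by
    intro i hi j hj
    by_contra hij
    exact h ⟨i, j, hij, fun A hA => ⟨hi A hA, hj A hA⟩⟩
  refine hno (AllBoxes.homogeneous hκ.isRegular h₀ hT (S := G) hG ?_)
  have h1 := avoidL hκ hHL h₀ hT hι c Large hL t₀ t Gᶜ (by
    intro i hi
    have h1 : ¬ ∀ A : Type, #A < κ → GoodL Large c (fun _ : A => t₀) t (fun _ => {i}) := hi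
    push Not at h1
    exact h1)
  rwa [compl_compl] at h1

/-- **Two colours good everywhere** above some nodes. -/
theorem stableL (hκ : κ.IsInaccessible) (hHL : HLProp κ (n + 1)) (h₀ : IsRegularTree T₀)
    (hT : ∀ l, IsRegularTree (T l)) (hι : #ι < κ) (c : T₀ → ((l : Fin (n + 1)) → T l) → ι)
    (Large : Set κ.ord.ToType → Prop) (hL : IsLarge Large) (t₀ : T₀)
    (t : (l : Fin (n + 1)) → T l)
    (hno : ∀ (s₀ : T₀) (s : (l : Fin (n + 1)) → T l), t₀ ≤ s₀ → (∀ l, t l ≤ s l) →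
      ¬ Homogeneous c s₀ s) :
    ∃ (s₀ : T₀) (s : (l : Fin (n + 1)) → T l), t₀ ≤ s₀ ∧ (∀ l, t l ≤ s l) ∧
      ∃ i j : ι, i ≠ j ∧ ∀ (u₀ : T₀) (u : (l : Fin (n + 1)) → T l), s₀ ≤ u₀ →
        (∀ l, s l ≤ u l) → ∀ A : Type, #A < κ →
          GoodL Large c (fun _ : A => u₀) u (fun _ => {i}) ∧
          GoodL Large c (fun _ : A => u₀) u (fun _ => {j}) := by
  classical
  have hreg := hκ.isRegular
  let Gd : ι → T₀ × ((l : Fin (n + 1)) → T l) → Prop := fun i u =>
    ∀ A : Type, #A < κ → GoodL Large c (fun _ : A => u.1) u.2 (fun _ => {i})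
  have hanti : ∀ i u v, u ≤ v → Gd i v → Gd i u := fun i u v huv h A hA =>
    (h A hA).of_le (fun _ => huv.1) (fun l => huv.2 l)
  have hclT : Closed κ ((l : Fin (n + 1)) → T l) := by
    intro C hne hch hcard
    have h : ∀ l, ∃ b, ∀ f ∈ C, f l ≤ b := by
      intro l
      obtain ⟨b, hb⟩ := closed_tree hreg (hT l) ((fun f : (l : Fin (n + 1)) → T l => f l) '' C)
        (hne.image _) (by
        rintro a ⟨x, hx, rfl⟩ b ⟨y, hy, rfl⟩ hab
        rcases hch hx hy (fun h => hab (by rw [h])) with h | h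
        · exact Or.inl (h l)
        · exact Or.inr (h l)) (lt_of_le_of_lt mk_image_le hcard)
      exact ⟨b, fun f hf => hb ⟨f, hf, rfl⟩⟩
    choose b hb using h
    exact ⟨b, fun f hf l => hb l f hf⟩
  obtain ⟨u, hu, hall⟩ := ((closed_tree hreg h₀).prod hclT).meet hreg.aleph0_le hι
    (fun i u => (∀ v, u ≤ v → Gd i v) ∨ ¬ Gd i u) (by
      rintro i u v huv (h | h)
      · exact Or.inl fun w hw => h w (huv.trans hw)
      · exact Or.inr fun h' => h (hanti i u v huv h')) (t₀, t) (by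
      intro i u hu
      by_cases h : ∀ v, u ≤ v → Gd i v
      · exact ⟨u, le_rfl, Or.inl h⟩
      · push Not at h
        obtain ⟨v, huv, hv⟩ := h
        exact ⟨v, huv, Or.inr hv⟩)
  obtain ⟨i, j, hij, hG⟩ := dichotomyL hκ hHL h₀ hT hι c Large hL u.1 u.2
    (hno u.1 u.2 hu.1 (fun l => hu.2 l))
  have hi : ∀ v, u ≤ v → Gd i v := by
    rcases hall i with h | h
    · exact h
    · exact absurd (fun A hA => (hG A hA).1) h
  have hj : ∀ v, u ≤ v → Gd j v := by
    rcases hall j with h | h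
    · exact h
    · exact absurd (fun A hA => (hG A hA).2) h
  exact ⟨u.1, u.2, hu.1, fun l => hu.2 l, i, j, hij, fun u₀ u' h1 h2 A hA =>
    ⟨hi (u₀, u') ⟨h1, fun l => h2 l⟩ A hA, hj (u₀, u') ⟨h1, fun l => h2 l⟩ A hA⟩⟩

/-- **All patterns are good**, two colours. -/
theorem twoL (hκ : κ.IsInaccessible) (hHL : HLProp κ (n + 1)) (h₀ : IsRegularTree T₀)
    (hT : ∀ l, IsRegularTree (T l)) (c : T₀ → ((l : Fin (n + 1)) → T l) → Bool)
    (Large : Set κ.ord.ToType → Prop) (hL : IsLarge Large) (t₀ : T₀)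
    (t : (l : Fin (n + 1)) → T l)
    (hno : ∀ (s₀ : T₀) (s : (l : Fin (n + 1)) → T l), t₀ ≤ s₀ → (∀ l, t l ≤ s l) →
      ¬ Homogeneous c s₀ s) {A : Type}
    [Nonempty A] (hA : #A < κ) (P : A → T₀) (hP : ∀ a, t₀ ≤ P a) (f : A → Bool) :
    GoodL Large c P t (fun a => {f a}) := by
  have hι : #Bool < κ := lt_of_lt_of_le (Cardinal.lt_aleph0_of_finite _) hκ.aleph0_lt.le
  refine patternL hκ hHL h₀ hT hι c Large hL hA P t _ fun a s hs hall => ?_
  refine hno (P a) s (hP a) hs (AllBoxes.homogeneous hκ.isRegular h₀ hT (S := {f a}ᶜ) ?_ hall)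
  intro i hi j hj
  have hi' : i ≠ f a := hi
  have hj' : j ≠ f a := hj
  revert hi' hj'
  cases i <;> cases j <;> cases f a <;> simp

end Pool.Agent.Helper39.HT
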