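import Pool.Agent.Helper39.HT.MainP

/-!
# Rows one after the other: definitions, branches and the avoidance argument
-/

set_option autoImplicit false

open Cardinal Set Helper2.HB Pool.Agent.Helper58.HL Pool.Agent.Helper39.HL

namespace Pool.Agent.Helper39.HT

section defs

variable {K : Type} [LinearOrder K] {d : ℕ} {T₀ : Set (Node K)} {T : Fin d → Set (Node K)}
  {ι B : Type}

/-- `Y` extends all nodes of length `< ζ'` above the `s b` to the level `ζ`, and all tuples of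
these extensions have the property `Ψ b`. -/
def Ext (s : B → (l : Fin d) → T l) (ζ' ζ : K) (Ψ : B → ((l : Fin d) → T l) → Prop)
    (Y : B → (l : Fin d) → T l → T l) : Prop :=
  (∀ b l (u : T l), s b l ≤ u → (u : Node K).len < ζ' →
    u ≤ Y b l u ∧ (Y b l u : Node K).len = ζ) ∧
  ∀ b (u : (l : Fin d) → T l), (∀ l, s b l ≤ u l ∧ (u l : Node K).len < ζ') →
    Ψ b (fun l => Y b l (u l))

/-- The property `Φ` is full above `s`: for every `ζ'` there is a level `ζ ≥ ζ'` to which all nodes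
of length `< ζ'` above the `s b` can be extended with all tuples having the property `Φ ζ b`. -/
def Full (Φ : K → B → ((l : Fin d) → T l) → Prop) (s : B → (l : Fin d) → T l) : Prop :=
  ∀ ζ', ∃ ζ, ζ' ≤ ζ ∧ ∃ Y : B → (l : Fin d) → T l → T l, Ext s ζ' ζ (Φ ζ) Y

/-- `p` and `r` force that a further row can be added -/
def StepGood (c : T₀ → ((l : Fin d) → T l) → ι) (Φ : K → B → ((l : Fin d) → T l) → Prop)
    (V : B → Set ι) (p : T₀) (r : B → (l : Fin d) → T l) : Prop :=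
  ∀ p', p ≤ p' → ∀ ζ', ∃ ζ, ζ' ≤ ζ ∧ ∃ x : T₀, p' ≤ x ∧ (x : Node K).len = ζ ∧
    ∃ Y : B → (l : Fin d) → T l → T l, Ext r ζ' ζ (fun b y => Φ ζ b y ∧ c x y ∈ V b) Y

/-- `x₀` kills `r` from the level `ζ'` on -/
def Killed (c : T₀ → ((l : Fin d) → T l) → ι) (Φ : K → B → ((l : Fin d) → T l) → Prop)
    (V : B → Set ι) (x₀ : T₀) (r : B → (l : Fin d) → T l) (ζ' : K) : Prop :=
  ∀ ζ, ζ' ≤ ζ → ∀ x : T₀, x₀ ≤ x → (x : Node K).len = ζ →
    ∀ Y : B → (l : Fin d) → T l → T l, ¬ Ext r ζ' ζ (fun b y => Φ ζ b y ∧ c x y ∈ V b) Y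

theorem Killed.mono {c : T₀ → ((l : Fin d) → T l) → ι}
    {Φ : K → B → ((l : Fin d) → T l) → Prop} {V : B → Set ι} {x₀ x₁ : T₀}
    {r : B → (l : Fin d) → T l} {ζ' : K} (h : Killed c Φ V x₀ r ζ') (hx : x₀ ≤ x₁) :
    Killed c Φ V x₁ r ζ' :=
  fun ζ hζ x hx1 hxl Y => h ζ hζ x (hx.trans hx1) hxl Y

end defs

variable {κ : Cardinal.{0}} {n : ℕ} {T₀ : Set (Node κ.ord.ToType)}
  {T : Fin (n + 1) → Set (Node κ.ord.ToType)} {ι B : Type}

/-- **The new row is a branch.** -/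
theorem branch_of_good (hκ : κ.IsRegular) (h₀ : IsRegularTree T₀)
    (c : T₀ → ((l : Fin (n + 1)) → T l) → ι)
    (Φ : κ.ord.ToType → B → ((l : Fin (n + 1)) → T l) → Prop) (V : B → Set ι) (p : T₀)
    (r : B → (l : Fin (n + 1)) → T l) (hg : StepGood c Φ V p r) :
    ∃ x : κ.ord.ToType → T₀, (∀ ζ, (x ζ : Node κ.ord.ToType).len = ζ) ∧
      (∀ ζ ξ, ζ ≤ ξ → x ζ ≤ x ξ) ∧ (∀ ζ, (p : Node κ.ord.ToType).len ≤ ζ → p ≤ x ζ) ∧
      Full (fun ζ b y => Φ ζ b y ∧ c (x ζ) y ∈ V b) r := by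
  classical
  obtain ⟨G, hG⟩ := closed_seq hκ.aleph0_le (closed_tree hκ h₀)
    (ι := κ.ord.ToType) (fun ζ => Cardinal.mk_Iio_toType_ord_lt ζ)
    (fun ζ' x => ζ' ≤ (x : Node κ.ord.ToType).len ∧
      ∃ Y : B → (l : Fin (n + 1)) → T l → T l, Ext r ζ' (x : Node κ.ord.ToType).len
        (fun b y => Φ (x : Node κ.ord.ToType).len b y ∧ c x y ∈ V b) Y) p (by
      intro ζ' p' hp'
      obtain ⟨ζ, hζ, x, hx, hxl, Y, hY⟩ := hg p' hp' ζ'
      refine ⟨x, hx, ?_, Y, ?_⟩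
      · rw [hxl]; exact hζ
      · rw [hxl]; exact hY)
  have hGmono : ∀ η ζ, η ≤ ζ → G η ≤ G ζ := by
    intro η ζ h
    rcases eq_or_lt_of_le h with h | h
    · rw [h]
    · exact (hG ζ).1 η h
  have hlen : ∀ ζ, ζ ≤ (G ζ : Node κ.ord.ToType).len := fun ζ => (hG ζ).2.2.1
  refine ⟨fun ζ => ⟨(G ζ : Node κ.ord.ToType).restr ζ,
    h₀.down _ (G ζ).2 _ (Node.restr_le (hlen ζ))⟩, fun ζ => rfl, fun ζ ξ h => ?_,
    fun ζ h => ?_, fun ζ' => ?_⟩
  · exact Node.le_of_le_of_le ((Node.restr_le (hlen ζ)).trans (hGmono ζ ξ h))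
      (Node.restr_le (hlen ξ)) h
  · exact Node.le_restr (hG ζ).2.1 h
  · obtain ⟨h1, Y, hY⟩ := (hG ζ').2.2
    refine ⟨(G ζ' : Node κ.ord.ToType).len, h1, Y, ?_⟩
    have h2 : (⟨(G (G ζ' : Node κ.ord.ToType).len : Node κ.ord.ToType).restr
        (G ζ' : Node κ.ord.ToType).len, h₀.down _ (G (G ζ' : Node κ.ord.ToType).len).2 _
          (Node.restr_le (hlen _))⟩ : T₀) = G ζ' :=
      Subtype.ext (restr_of_le (hGmono _ _ (hlen ζ')))
    simp only [h2]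
    exact hY

theorem card_len_lt (hκ : κ.IsRegular) (h₀ : IsRegularTree T₀) (ζ : κ.ord.ToType) :
    #{u : T₀ // (u : Node κ.ord.ToType).len < ζ} < κ := by
  have h1 : #{u : T₀ // (u : Node κ.ord.ToType).len < ζ} ≤
      #(Σ η : Iio ζ, {t // t ∈ T₀ ∧ t.len = (η : κ.ord.ToType)}) := by
    refine Cardinal.mk_le_of_injective (f := fun u =>
      (⟨⟨(u.1 : Node κ.ord.ToType).len, u.2⟩, u.1, u.1.2, rfl⟩ :
        Σ η : Iio ζ, {t // t ∈ T₀ ∧ t.len = (η : κ.ord.ToType)})) ?_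
    intro u u' h
    have key : ∀ z w : (Σ η : Iio ζ, {t // t ∈ T₀ ∧ t.len = (η : κ.ord.ToType)}), z = w →
        (z.2 : Node κ.ord.ToType) = (w.2 : Node κ.ord.ToType) := by
      rintro z w rfl; rfl
    exact Subtype.ext (Subtype.ext (key _ _ h))
  refine lt_of_le_of_lt h1 ?_
  rw [Cardinal.mk_sigma]
  refine Cardinal.sum_lt_of_isRegular hκ (Cardinal.mk_Iio_toType_ord_lt ζ) fun η => ?_
  have h2 := h₀.level η.1
  rwa [Cardinal.mk_ord_toType] at h2

theorem card_lowB (hκ : κ.IsRegular) (hlim : ∀ x < κ, 2 ^ x < κ)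
    (hT : ∀ l, IsRegularTree (T l)) {C : Type} (hC : #C < κ) (ζ : κ.ord.ToType) :
    #{r : (l : Fin (n + 1)) → C → T l // ∀ l k, (r l k : Node κ.ord.ToType).len < ζ} < κ := by
  have h1 : #{r : (l : Fin (n + 1)) → C → T l // ∀ l k, (r l k : Node κ.ord.ToType).len < ζ} ≤
      #(Fin (n + 1) × C → Σ l : Fin (n + 1), {u : T l // (u : Node κ.ord.ToType).len < ζ}) := by
    refine Cardinal.mk_le_of_injective (f := fun r z =>
      (⟨z.1, r.1 z.1 z.2, r.2 z.1 z.2⟩ :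
        Σ l : Fin (n + 1), {u : T l // (u : Node κ.ord.ToType).len < ζ})) ?_
    intro r r' h
    refine Subtype.ext (funext fun l => funext fun k => Subtype.ext ?_)
    have h2 := congrFun h (l, k)
    have key : ∀ z w : (Σ l : Fin (n + 1), {u : T l // (u : Node κ.ord.ToType).len < ζ}),
        z = w → ((z.2 : T z.1) : Node κ.ord.ToType) = ((w.2 : T w.1) : Node κ.ord.ToType) := by
      rintro z w rfl; rfl
    exact key _ _ h2
  refine lt_of_le_of_lt h1 ?_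
  rw [← Cardinal.power_def]
  have hfin : #(Fin (n + 1)) < κ :=
    lt_of_lt_of_le (Cardinal.lt_aleph0_of_finite _) hκ.aleph0_le
  refine pow_lt hlim hκ.aleph0_le ?_ ?_
  · rw [Cardinal.mk_sigma]
    exact Cardinal.sum_lt_of_isRegular hκ hfin fun l => card_len_lt hκ (hT l) ζ
  · rw [Cardinal.mk_prod]
    simp only [Cardinal.lift_id]
    exact Cardinal.mul_lt_of_lt hκ.aleph0_le hfin hC

/-- One level for all labellings, in powers. -/
theorem exists_level_label_pow (hκ : κ.IsInaccessible) (hHL : HLProp κ (n + 1))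
    (hT : ∀ l, IsRegularTree (T l)) {A : Type} (hA : #A < κ) {C : Type} (hC : #C < κ)
    [Nonempty C] (r : (l : Fin (n + 1)) → C → T l)
    (Q : A → ((l : Fin (n + 1)) → C → T l) → (l : Fin (n + 1)) → Set (C → T l))
    (hQ : ∀ a s, (∀ l k, r l k ≤ s l k) → ∀ l, #(Q a s l) < κ ∧
      ∀ z ∈ Q a s l, ∀ k, s l k ≤ z k) :
    ∃ ζ : κ.ord.ToType, ∀ lab : ((l : Fin (n + 1)) → C → T l) → A,
      ∃ (a : A) (s : (l : Fin (n + 1)) → C → T l),
        (∀ l k, r l k ≤ s l k ∧ (s l k : Node κ.ord.ToType).len ≤ ζ) ∧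
        ∃ y : (l : Fin (n + 1)) → (C → T l) → (C → T l),
          (∀ l, ∀ z ∈ Q a s l, ∀ k, z k ≤ y l z k ∧ (y l z k : Node κ.ord.ToType).len = ζ) ∧
          ∀ z : (l : Fin (n + 1)) → (C → T l), (∀ l, z l ∈ Q a s l) →
            lab (fun l => y l (z l)) = a := by
  classical
  have hreg := hκ.isRegular
  have hfin : #(Fin (n + 1)) < κ :=
    lt_of_lt_of_le (Cardinal.lt_aleph0_of_finite _) hreg.aleph0_le
  by_contra hcon
  push Not at hcon
  choose lab hlab using hcon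
  obtain ⟨s, a, hs, hbox⟩ := box_of_hl hκ hHL hT hC r hA (fun ζ Y => lab ζ Y)
  have hFC : #(Fin (n + 1) × C) < κ := by
    rw [Cardinal.mk_prod]
    simp only [Cardinal.lift_id]
    exact Cardinal.mul_lt_of_lt hreg.aleph0_le hfin hC
  obtain ⟨l₀, hl₀⟩ := exists_bound hreg hFC (fun z => (s z.1 z.2 : Node κ.ord.ToType).len)
  obtain ⟨ζ, hζ, y, hy, hyc⟩ := hbox (fun l => Q a s l) (fun l => hQ a s hs l) l₀
  obtain ⟨z, hz1, hz2⟩ := hlab ζ a s (fun l k => ⟨hs l k, (hl₀ (l, k)).trans hζ⟩) y hy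
  exact hz2 (hyc z hz1)

end Pool.Agent.Helper39.HT
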