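import Pool.Agent.Helper39.HT.MatA

/-!
# The avoidance argument relative to a full property
-/

set_option autoImplicit false

open Cardinal Set Helper2.HB Pool.Agent.Helper58.HL Pool.Agent.Helper39.HL

namespace Pool.Agent.Helper39.HT

variable {κ : Cardinal.{0}} {n : ℕ} {T₀ : Set (Node κ.ord.ToType)}
  {T : Fin (n + 1) → Set (Node κ.ord.ToType)} {ι B : Type}

/-- killing all tuples of nodes of length `< ζ` -/
theorem exists_killed (hκ : κ.IsRegular) (hlim : ∀ x < κ, 2 ^ x < κ) (h₀ : IsRegularTree T₀)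
    (hT : ∀ l, IsRegularTree (T l)) (hB : #B < κ) (c : T₀ → ((l : Fin (n + 1)) → T l) → ι)
    (Φ : κ.ord.ToType → B → ((l : Fin (n + 1)) → T l) → Prop) (V : B → Set ι) (p : T₀)
    (r : B → (l : Fin (n + 1)) → T l)
    (hbad : ∀ (p₁ : T₀) (r₁ : B → (l : Fin (n + 1)) → T l), p ≤ p₁ →
      (∀ b l, r b l ≤ r₁ b l) → ¬ StepGood c Φ V p₁ r₁) {R : Type} (hR : #R < κ)
    (p₀ : R → T₀) (hp₀ : ∀ m, p ≤ p₀ m) (ζ : κ.ord.ToType) (p₁ : R → T₀) (hp₁ : p₀ ≤ p₁) :
    ∃ p', p₁ ≤ p' ∧ (∀ m, ζ ≤ (p' m : Node κ.ord.ToType).len) ∧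
      ∀ (m : R) (r₁ : B → (l : Fin (n + 1)) → T l),
        (∀ b l, r b l ≤ r₁ b l ∧ (r₁ b l : Node κ.ord.ToType).len < ζ) →
        ∃ ζ', Killed c Φ V (p' m) r₁ ζ' := by
  classical
  have hJ : #(R × {w : (l : Fin (n + 1)) → B → T l //
      ∀ l b, (w l b : Node κ.ord.ToType).len < ζ}) < κ := by
    rw [Cardinal.mk_prod]
    simp only [Cardinal.lift_id]
    exact Cardinal.mul_lt_of_lt hκ.aleph0_le hR (card_lowB hκ hlim hT hB ζ)
  obtain ⟨p2, hp2, hreq⟩ := (Closed.pi (J := R) (closed_tree hκ h₀)).meet hκ.aleph0_le hJ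
    (fun (j : R × {w : (l : Fin (n + 1)) → B → T l //
      ∀ l b, (w l b : Node κ.ord.ToType).len < ζ}) (p' : R → T₀) =>
        (∀ b l, r b l ≤ j.2.1 l b) → ∃ ζ', Killed c Φ V (p' j.1) (fun b l => j.2.1 l b) ζ')
    (by
      intro j p1 p2 h12 h hle
      obtain ⟨ζ', h'⟩ := h hle
      exact ⟨ζ', h'.mono (h12 j.1)⟩) p₁ (by
      rintro ⟨m, w⟩ p1 hp1
      by_cases hle : ∀ b l, r b l ≤ w.1 l b
      · have h1 := hbad (p1 m) (fun b l => w.1 l b)
          ((hp₀ m).trans ((hp₁ m).trans (hp1 m))) hle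
        unfold StepGood at h1
        push Not at h1
        obtain ⟨x, hx, ζ', h2⟩ := h1
        refine ⟨Function.update p1 m x, fun m' => ?_, fun _ => ⟨ζ', ?_⟩⟩
        · by_cases hm : m' = m
          · subst hm
            rw [Function.update_self]
            exact hx
          · rw [Function.update_of_ne hm]
        · rw [Function.update_self]
          exact fun ζ hζ x hx hxl Y => h2 ζ hζ x hx hxl Y
      · exact ⟨p1, le_rfl, fun h => absurd h hle⟩)
  have h6 : ∀ m, ∃ u : T₀, p2 m ≤ u ∧ (u : Node κ.ord.ToType).len =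
      max ζ (p2 m : Node κ.ord.ToType).len := fun m =>
    exists_level h₀ (p2 m) _ (le_max_right _ _)
  choose p' hp'1 hp'2 using h6
  refine ⟨p', fun m => (hp2 m).trans (hp'1 m), fun m => by rw [hp'2]; exact le_max_left _ _,
    fun m r₁ hr => ?_⟩
  obtain ⟨ζ', h⟩ := hreq (m, ⟨fun l b => r₁ b l, fun l b => (hr b l).2⟩) (fun b l => (hr b l).1)
  exact ⟨ζ', h.mono (hp'1 m)⟩

/-- **The avoidance argument** relative to a full property: if no row can be added, all rows can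
be chosen such that no row has the values `V` on any choice of column tuples. -/
theorem avoidA (hκ : κ.IsInaccessible) (hHL : HLProp κ (n + 1)) (h₀ : IsRegularTree T₀)
    (hT : ∀ l, IsRegularTree (T l)) (hB : #B < κ) [hBne : Nonempty B]
    (c : T₀ → ((l : Fin (n + 1)) → T l) → ι)
    (Φ : κ.ord.ToType → B → ((l : Fin (n + 1)) → T l) → Prop)
    (r : B → (l : Fin (n + 1)) → T l) (hfull : Full Φ r) (V : B → Set ι) (p : T₀)
    (hbad : ∀ (p₁ : T₀) (r₁ : B → (l : Fin (n + 1)) → T l), p ≤ p₁ →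
      (∀ b l, r b l ≤ r₁ b l) → ¬ StepGood c Φ V p₁ r₁) {R C : Type} (hR : #R < κ)
    [hRne : Nonempty R] (hC : #C < κ) [hCne : Nonempty C] (p₀ : R → T₀) (hp₀ : ∀ m, p ≤ p₀ m)
    (q₀ : B → (l : Fin (n + 1)) → C → T l) (hq₀ : ∀ b l k, r b l ≤ q₀ b l k) :
    ∃ (ζ : κ.ord.ToType) (x : R → T₀) (y : B → (l : Fin (n + 1)) → C → T l),
      (∀ m, p₀ m ≤ x m ∧ (x m : Node κ.ord.ToType).len = ζ) ∧
      (∀ b l k, q₀ b l k ≤ y b l k ∧ (y b l k : Node κ.ord.ToType).len = ζ) ∧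
      ∀ (m : R) (k : B → Fin (n + 1) → C),
        ¬ ∀ b, c (x m) (fun l => y b l (k b l)) ∈ V b := by
  classical
  have hreg := hκ.isRegular
  have hlim : ∀ x < κ, 2 ^ x < κ := fun x hx => hκ.isStrongLimit.isStrongPrelimit hx
  have h0 := hreg.aleph0_le
  have hNM : NoMaxOrder κ.ord.ToType := Cardinal.noMaxOrder h0
  have hfin : #(Fin (n + 1)) < κ := lt_of_lt_of_le (Cardinal.lt_aleph0_of_finite _) h0
  -- the rows
  obtain ⟨G, hG⟩ := closed_seq h0 (Closed.pi (J := R) (closed_tree hreg h₀))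
    (ι := κ.ord.ToType) (fun ζ => Cardinal.mk_Iio_toType_ord_lt ζ)
    (fun ζ p' => (∀ m, ζ ≤ (p' m : Node κ.ord.ToType).len) ∧
      ∀ (m : R) (r₁ : B → (l : Fin (n + 1)) → T l),
        (∀ b l, r b l ≤ r₁ b l ∧ (r₁ b l : Node κ.ord.ToType).len < ζ) →
        ∃ ζ', Killed c Φ V (p' m) r₁ ζ') p₀
    (fun ζ p' hp' => exists_killed hreg hlim h₀ hT hB c Φ V p r hbad hR p₀ hp₀ ζ p' hp')
  have hGmono : ∀ η ζ, η ≤ ζ → G η ≤ G ζ := by
    intro η ζ h
    rcases eq_or_lt_of_le h with h | h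
    · rw [h]
    · exact (hG ζ).1 η h
  let x : R → κ.ord.ToType → T₀ := fun m ζ =>
    ⟨(G ζ m : Node κ.ord.ToType).restr ζ, h₀.down _ (G ζ m).2 _ (Node.restr_le ((hG ζ).2.2.1 m))⟩
  have hxge : ∀ m ζ (u : T₀), u ≤ G ζ m → (u : Node κ.ord.ToType).len ≤ ζ → u ≤ x m ζ :=
    fun m ζ u h1 h2 => Node.le_restr h1 h2
  -- the labels
  let A : Type := R × (B → Fin (n + 1) → C)
  have hA : #A < κ := by
    have h1 : #(R × (B → Fin (n + 1) → C)) < κ := by
      rw [Cardinal.mk_prod]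
      simp only [Cardinal.lift_id]
      refine Cardinal.mul_lt_of_lt h0 hR ?_
      rw [← Cardinal.power_def]
      refine pow_lt hlim h0 ?_ hB
      rw [← Cardinal.power_def]
      exact pow_lt hlim h0 hC hfin
    exact h1
  have hANe : Nonempty A := ⟨(hRne.some, fun _ _ => hCne.some)⟩
  let D : Type := B × C
  have hD : #D < κ := by
    have h1 : #(B × C) < κ := by
      rw [Cardinal.mk_prod]
      simp only [Cardinal.lift_id]
      exact Cardinal.mul_lt_of_lt h0 hB hC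
    exact h1
  have hDne : Nonempty D := ⟨(hBne.some, hCne.some)⟩
  let r' : (l : Fin (n + 1)) → D → T l := fun l z => q₀ z.1 l z.2
  have hrr' : ∀ l (z : D), r z.1 l ≤ r' l z := fun l z => hq₀ z.1 l z.2
  have hBF : #(B × Fin (n + 1)) < κ := by
    rw [Cardinal.mk_prod]
    simp only [Cardinal.lift_id]
    exact Cardinal.mul_lt_of_lt h0 hB hfin
  have hkill : ∀ (a : A) (w : (l : Fin (n + 1)) → D → T l), ∃ ζ₁ ζ', (∀ l z, r' l z ≤ w l z) →
      Killed c Φ V (G ζ₁ a.1) (fun b l => w l (b, a.2 b l)) ζ' := by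
    intro a w
    by_cases hw : ∀ l z, r' l z ≤ w l z
    · obtain ⟨l₀, hl₀⟩ := exists_bound hreg hBF
        (fun z => (w z.2 (z.1, a.2 z.1 z.2) : Node κ.ord.ToType).len)
      obtain ⟨ζ₁, hζ₁⟩ := exists_gt l₀
      obtain ⟨ζ', h⟩ := (hG ζ₁).2.2.2 a.1 (fun b l => w l (b, a.2 b l))
        (fun b l => ⟨(hrr' l (b, a.2 b l)).trans (hw l _), (hl₀ (b, l)).trans_lt hζ₁⟩)
      exact ⟨ζ₁, ζ', fun _ => h⟩
    · obtain ⟨b⟩ := hBne
      obtain ⟨k⟩ := hCne
      exact ⟨(q₀ b 0 k : Node κ.ord.ToType).len, (q₀ b 0 k : Node κ.ord.ToType).len,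
        fun h => absurd h hw⟩
  choose ζ₁ ζk hk using hkill
  -- the families
  let Q : A → ((l : Fin (n + 1)) → D → T l) → (l : Fin (n + 1)) → Set (D → T l) :=
    fun a w l => {z | ∃ (b : B) (u : T l), w l (b, a.2 b l) ≤ u ∧
      (u : Node κ.ord.ToType).len < ζk a w ∧ z = Function.update (w l) (b, a.2 b l) u}
  have hQ : ∀ a w, (∀ l z, r' l z ≤ w l z) → ∀ l, #(Q a w l) < κ ∧
      ∀ z ∈ Q a w l, ∀ k, w l k ≤ z k := by
    intro a w _ l
    refine ⟨?_, ?_⟩
    · have h1 : #(Q a w l) ≤ #(B × {u : T l // (u : Node κ.ord.ToType).len < ζk a w}) := by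
        have h2 : Q a w l ⊆ range (fun z : B × {u : T l // (u : Node κ.ord.ToType).len <
            ζk a w} => Function.update (w l) (z.1, a.2 z.1 l) (z.2 : T l)) := by
          rintro z ⟨b, u, -, hu, rfl⟩
          exact ⟨(b, ⟨u, hu⟩), rfl⟩
        exact (Cardinal.mk_le_mk_of_subset h2).trans Cardinal.mk_range_le
      refine lt_of_le_of_lt h1 ?_
      rw [Cardinal.mk_prod]
      simp only [Cardinal.lift_id]
      exact Cardinal.mul_lt_of_lt h0 hB (card_len_lt hreg (hT l) _)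
    · rintro z ⟨b, u, hu, -, rfl⟩ k
      by_cases hk : k = (b, a.2 b l)
      · subst hk
        rw [Function.update_self]
        exact hu
      · rw [Function.update_of_ne hk]
  obtain ⟨ζs, hζs⟩ := exists_level_label_pow hκ hHL hT hA hD r' Q hQ
  obtain ⟨ζt, hζt⟩ := exists_gt ζs
  -- the final level
  have hI : #(A × {w : (l : Fin (n + 1)) → D → T l //
      ∀ l k, (w l k : Node κ.ord.ToType).len < ζt}) < κ := by
    rw [Cardinal.mk_prod]
    simp only [Cardinal.lift_id]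
    exact Cardinal.mul_lt_of_lt h0 hA (card_lowB hreg hlim hT hD ζt)
  obtain ⟨f1, hf1⟩ := exists_bound hreg hI (fun z => ζ₁ z.1 z.2.1)
  obtain ⟨f2, hf2⟩ := exists_bound hreg hI (fun z => ζk z.1 z.2.1)
  obtain ⟨f3, hf3⟩ := exists_bound hreg hI
    (fun z => (G (ζ₁ z.1 z.2.1) z.1.1 : Node κ.ord.ToType).len)
  obtain ⟨f4, hf4⟩ := exists_bound hreg hR (fun m => (p₀ m : Node κ.ord.ToType).len)
  obtain ⟨ζ, hζ, Y, hY1, hY2⟩ := hfull (max ζt (max (max f1 f2) (max f3 f4)))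
  have g0 : ζt ≤ ζ := (le_max_left _ _).trans hζ
  have g' : max (max f1 f2) (max f3 f4) ≤ ζ := (le_max_right _ _).trans hζ
  have g1 : f1 ≤ ζ := ((le_max_left _ _).trans (le_max_left _ _)).trans g'
  have g2 : f2 ≤ ζ := ((le_max_right _ _).trans (le_max_left _ _)).trans g'
  have g3 : f3 ≤ ζ := ((le_max_left _ _).trans (le_max_right _ _)).trans g'
  have g4 : f4 ≤ ζ := ((le_max_right _ _).trans (le_max_right _ _)).trans g'
  have hlow : ∀ b l (u : T l), r b l ≤ u → (u : Node κ.ord.ToType).len = ζs →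
      u ≤ Y b l u ∧ (Y b l u : Node κ.ord.ToType).len = ζ := fun b l u hu hul =>
    hY1 b l u hu ((hul.trans_lt hζt).trans_le (le_max_left _ _))
  by_contra hcon
  push Not at hcon
  have hlab : ∀ w : (l : Fin (n + 1)) → D → T l, ∃ a : A,
      (∀ l z, r' l z ≤ w l z ∧ (w l z : Node κ.ord.ToType).len = ζs) →
        ∀ b, c (x a.1 ζ) (fun l => Y b l (w l (b, a.2 b l))) ∈ V b := by
    intro w
    by_cases hw : ∀ l z, r' l z ≤ w l z ∧ (w l z : Node κ.ord.ToType).len = ζs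
    · obtain ⟨m, k, hmk⟩ := hcon ζ (fun m => x m ζ) (fun b l k => Y b l (w l (b, k)))
        (fun m => ⟨hxge m ζ _ ((hG ζ).2.1 m) ((hf4 m).trans g4), rfl⟩)
        (fun b l k => by
          have h1 := hlow b l (w l (b, k)) ((hrr' l (b, k)).trans (hw l (b, k)).1)
            (hw l (b, k)).2
          exact ⟨le_trans (hw l (b, k)).1 h1.1, h1.2⟩)
      exact ⟨(m, k), fun _ => hmk⟩
    · exact ⟨hANe.some, fun h => absurd h hw⟩
  choose lab hlab using hlab
  obtain ⟨a, w, hw, yy, hyy, hyyc⟩ := hζs lab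
  have hrw : ∀ l z, r' l z ≤ w l z := fun l z => (hw l z).1
  have hwt : ∀ l k, (w l k : Node κ.ord.ToType).len < ζt := fun l k =>
    (hw l k).2.trans_lt hζt
  refine hk a w hrw ζ ((hf2 (a, ⟨w, hwt⟩)).trans g2) (x a.1 ζ)
    (hxge _ _ _ (hGmono _ _ ((hf1 (a, ⟨w, hwt⟩)).trans g1) _)
      ((hf3 (a, ⟨w, hwt⟩)).trans g3)) rfl
    (fun b l u => Y b l (yy l (Function.update (w l) (b, a.2 b l) u) (b, a.2 b l))) ⟨?_, ?_⟩
  · intro b l u hu hul
    have h1 := hyy l (Function.update (w l) (b, a.2 b l) u) ⟨b, u, hu, hul, rfl⟩ (b, a.2 b l)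
    rw [Function.update_self] at h1
    have h2 := hlow b l _ (((hrr' l (b, a.2 b l)).trans (hrw l _)).trans (le_trans hu h1.1)) h1.2
    exact ⟨h1.1.trans h2.1, h2.2⟩
  · intro b u hu
    have hz : ∀ l, Function.update (w l) (b, a.2 b l) (u l) ∈ Q a w l := fun l =>
      ⟨b, u l, (hu l).1, (hu l).2, rfl⟩
    have h3 : ∀ l z, w l z ≤ Function.update (w l) (b, a.2 b l) (u l) z := fun l z =>
      (hQ a w hrw l).2 _ (hz l) z
    refine ⟨?_, ?_⟩
    · refine hY2 b (fun l => yy l (Function.update (w l) (b, a.2 b l) (u l)) (b, a.2 b l))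
        fun l => ?_
      have h1 := hyy l _ (hz l) (b, a.2 b l)
      refine ⟨((hrr' l (b, a.2 b l)).trans (hrw l _)).trans ((h3 l _).trans h1.1), ?_⟩
      exact (h1.2.trans_lt hζt).trans_le (le_max_left _ _)
    · have h1 := hyyc (fun l => Function.update (w l) (b, a.2 b l) (u l)) hz
      have h2 := hlab (fun l => yy l (Function.update (w l) (b, a.2 b l) (u l))) (fun l z =>
        ⟨(hrw l z).trans ((h3 l z).trans (hyy l _ (hz l) z).1), (hyy l _ (hz l) z).2⟩) b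
      rw [h1] at h2
      exact h2

end Pool.Agent.Helper39.HT
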