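import Pool.Agent.Helper39.HT.MatB

/-!
# Matrices of colours
-/

set_option autoImplicit false

open Cardinal Set Helper2.HB Pool.Agent.Helper58.HL Pool.Agent.Helper39.HL

namespace Pool.Agent.Helper39.HT

variable {κ : Cardinal.{0}} {n : ℕ} {T₀ : Set (Node κ.ord.ToType)}
  {T : Fin (n + 1) → Set (Node κ.ord.ToType)} {ι B : Type}

/-- **A further row can be added.** -/
theorem exists_stepGood (hκ : κ.IsInaccessible) (hHL : HLProp κ (n + 1)) (hHL1 : HLProp κ 1)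
    (h₀ : IsRegularTree T₀) (hT : ∀ l, IsRegularTree (T l)) (hB : #B < κ) [hBne : Nonempty B]
    (c : T₀ → ((l : Fin (n + 1)) → T l) → ι)
    (Φ : κ.ord.ToType → B → ((l : Fin (n + 1)) → T l) → Prop)
    (s : B → (l : Fin (n + 1)) → T l) (hfull : Full Φ s) (V : B → Set ι) (p : T₀)
    (hno : ∀ (b : B) (p₁ : T₀) (s₁ : (l : Fin (n + 1)) → T l), p ≤ p₁ →
      (∀ l, s b l ≤ s₁ l) → ¬ AllBoxes c p₁ s₁ (V b)ᶜ) :
    ∃ (p₁ : T₀) (r₁ : B → (l : Fin (n + 1)) → T l), p ≤ p₁ ∧ (∀ b l, s b l ≤ r₁ b l) ∧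
      StepGood c Φ V p₁ r₁ := by
  classical
  have hreg := hκ.isRegular
  have hlim : ∀ x < κ, 2 ^ x < κ := fun x hx => hκ.isStrongLimit.isStrongPrelimit hx
  have h0 := hreg.aleph0_le
  have hNM : NoMaxOrder κ.ord.ToType := Cardinal.noMaxOrder h0
  have hfin : #(Fin (n + 1)) < κ := lt_of_lt_of_le (Cardinal.lt_aleph0_of_finite _) h0
  by_contra hcon
  have hbad : ∀ (p₁ : T₀) (r₁ : B → (l : Fin (n + 1)) → T l), p ≤ p₁ →
      (∀ b l, s b l ≤ r₁ b l) → ¬ StepGood c Φ V p₁ r₁ :=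
    fun p₁ r₁ h1 h2 h3 => hcon ⟨p₁, r₁, h1, h2, h3⟩
  -- the killing families
  have h1 : ∀ (b : B) (p₁ : T₀), ∃ (A : Type) (π : A → T₀)
      (Q : (l : Fin (n + 1)) → Set (T l)), p ≤ p₁ →
        (#A < κ ∧ (∀ a, p₁ ≤ π a) ∧ (∀ l, #(Q l) < κ ∧ ∀ q ∈ Q l, s b l ≤ q) ∧
          ¬ HasBoxP c π Q (fun _ => (V b)ᶜ)) := by
    intro b p₁
    by_cases hp : p ≤ p₁
    · have h2 := hno b p₁ (s b) hp (fun l => le_rfl)
      unfold AllBoxes at h2
      push Not at h2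
      obtain ⟨A, π, Q, h3, h4, h5, h6⟩ := h2
      simp only [Cardinal.mk_ord_toType] at h3 h5
      exact ⟨A, π, Q, fun _ => ⟨h3, h4, h5, h6⟩⟩
    · exact ⟨PUnit, fun _ => p₁, fun _ => ∅, fun h => absurd h hp⟩
  choose A π Q hAπ using h1
  obtain ⟨ζs, hζs⟩ := exists_level_label hκ hHL1 (T := fun _ : Fin (0 + 1) => T₀)
    (fun _ => h₀) hB (fun _ => p) (fun b v _ => range (π b (v 0))) (by
      intro b v hv l
      have h2 := hAπ b (v 0) (hv 0)
      refine ⟨lt_of_le_of_lt Cardinal.mk_range_le h2.1, ?_⟩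
      rintro _ ⟨a, rfl⟩
      have hl : l = 0 := Subsingleton.elim (α := Fin 1) _ _
      subst hl
      exact h2.2.1 a)
  obtain ⟨ζt, hζt⟩ := exists_gt ζs
  -- a bound for the killing families
  have hbd : ∃ ζ₃ : κ.ord.ToType, (∀ l, (s hBne.some l : Node κ.ord.ToType).len < ζ₃) ∧
      ∀ (b : B) (p₁ : T₀), p ≤ p₁ → (p₁ : Node κ.ord.ToType).len < ζt → ∀ l, ∀ q ∈ Q b p₁ l,
        (q : Node κ.ord.ToType).len < ζ₃ := by
    obtain ⟨e1, he1⟩ := exists_bound hreg hfin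
      (fun l => (s hBne.some l : Node κ.ord.ToType).len)
    have hI : #(B × {u : {u : T₀ // (u : Node κ.ord.ToType).len < ζt} // p ≤ u.1}) < κ := by
      rw [Cardinal.mk_prod]
      simp only [Cardinal.lift_id]
      exact Cardinal.mul_lt_of_lt h0 hB
        (lt_of_le_of_lt (Cardinal.mk_subtype_le _) (card_len_lt hreg h₀ ζt))
    have hJ : #(Σ z : B × {u : {u : T₀ // (u : Node κ.ord.ToType).len < ζt} // p ≤ u.1},
        Σ l : Fin (n + 1), Q z.1 z.2.1.1 l) < κ := by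
      rw [Cardinal.mk_sigma]
      refine Cardinal.sum_lt_of_isRegular hreg hI fun z => ?_
      rw [Cardinal.mk_sigma]
      exact Cardinal.sum_lt_of_isRegular hreg hfin fun l =>
        ((hAπ z.1 z.2.1.1 z.2.2).2.2.1 l).1
    obtain ⟨e2, he2⟩ := exists_bound hreg hJ
      (fun z => ((z.2.2 : T z.2.1) : Node κ.ord.ToType).len)
    obtain ⟨ζ₃, hζ₃⟩ := exists_gt (max e1 e2)
    refine ⟨ζ₃, fun l => (he1 l).trans_lt ((le_max_left _ _).trans_lt hζ₃),
      fun b p₁ hp hpl l q hq => ?_⟩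
    exact (he2 ⟨(b, ⟨⟨p₁, hpl⟩, hp⟩), l, q, hq⟩).trans_lt ((le_max_right _ _).trans_lt hζ₃)
  obtain ⟨ζ₃, hζ₃, hQ₃⟩ := hbd
  -- rows and columns
  let R : Type := {u : T₀ // p ≤ u ∧ (u : Node κ.ord.ToType).len = ζs}
  have hR : #R < κ := by
    refine lt_of_le_of_lt ?_ (card_len_lt hreg h₀ ζt)
    refine Cardinal.mk_le_of_injective (f := fun u : R =>
      (⟨u.1, u.2.2.trans_lt hζt⟩ : {u : T₀ // (u : Node κ.ord.ToType).len < ζt})) ?_
    intro u v h
    exact Subtype.ext (congrArg (fun w => w.1) h)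
  let C : Type := {w : (l : Fin (n + 1)) → T l // ∀ l, (w l : Node κ.ord.ToType).len < ζ₃}
  have hC : #C < κ := card_lowtup hreg hlim hT ζ₃
  have hCne : Nonempty C := ⟨⟨s hBne.some, hζ₃⟩⟩
  have hpζ : (p : Node κ.ord.ToType).len ≤ ζs := by
    obtain ⟨b, v, hv, -⟩ := hζs (fun _ => hBne.some)
    exact (show (p : Node κ.ord.ToType) ≤ (v 0 : Node κ.ord.ToType) from (hv 0).1).1.trans
      (hv 0).2
  have hRne : Nonempty R := by
    obtain ⟨u, hu1, hu2⟩ := exists_level h₀ p ζs hpζ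
    exact ⟨⟨u, hu1, hu2⟩⟩
  obtain ⟨ζ, x, y, hx, hy, hxy⟩ := avoidA hκ hHL h₀ hT hB c Φ s hfull V p hbad hR hC
    (fun u : R => u.1) (fun u => u.2.1)
    (fun b l k => if s b l ≤ k.1 l then k.1 l else s b l) (by
      intro b l k
      split_ifs with h
      · exact h
      · exact le_rfl)
  -- the labels
  have hlab : ∀ v : Fin (0 + 1) → T₀, ∃ b : B, ∀ h : p ≤ v 0 ∧
      (v 0 : Node κ.ord.ToType).len = ζs, ∀ k : Fin (n + 1) → C,
        c (x ⟨v 0, h⟩) (fun l => y b l (k l)) ∉ V b := by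
    intro v
    by_cases h : p ≤ v 0 ∧ (v 0 : Node κ.ord.ToType).len = ζs
    · by_contra hcon2
      push Not at hcon2
      have h3 : ∀ b, ∃ k : Fin (n + 1) → C, c (x ⟨v 0, h⟩) (fun l => y b l (k l)) ∈ V b := by
        intro b
        obtain ⟨_, k, hk⟩ := hcon2 b
        exact ⟨k, hk⟩
      choose k hk using h3
      exact hxy ⟨v 0, h⟩ k hk
    · exact ⟨hBne.some, fun h' => absurd h' h⟩
  choose lab hlab using hlab
  obtain ⟨b, v, hv, yy, hyy, hyyc⟩ := hζs lab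
  have hpv : p ≤ v 0 := (hv 0).1
  have hvt : (v 0 : Node κ.ord.ToType).len < ζt := (hv 0).2.trans_lt hζt
  have hA := hAπ b (v 0) hpv
  have hrow : ∀ a : A b (v 0), p ≤ yy 0 (π b (v 0) a) ∧
      (yy 0 (π b (v 0) a) : Node κ.ord.ToType).len = ζs := fun a =>
    ⟨hpv.trans ((hA.2.1 a).trans (hyy 0 _ ⟨a, rfl⟩).1), (hyy 0 _ ⟨a, rfl⟩).2⟩
  have hcol : ∀ (l : Fin (n + 1)) (q : T l), ∃ z : T l, q ∈ Q b (v 0) l →
      (q ≤ z ∧ (z : Node κ.ord.ToType).len = ζ ∧ ∃ k : C, y b l k = z) := by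
    intro l q
    by_cases hq : q ∈ Q b (v 0) l
    · have hql := hQ₃ b (v 0) hpv hvt l q hq
      have hsq : s b l ≤ q := (hA.2.2.1 l).2 q hq
      let k : C := ⟨Function.update (s hBne.some) l q, fun l' => by
        by_cases hl : l' = l
        · subst hl
          rw [Function.update_self]
          exact hql
        · rw [Function.update_of_ne hl]
          exact hζ₃ l'⟩
      have hk : k.1 l = q := Function.update_self _ _ _
      refine ⟨y b l k, fun _ => ⟨?_, (hy b l k).2, k, rfl⟩⟩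
      have h4 := (hy b l k).1
      rw [hk, if_pos hsq] at h4
      exact h4
    · exact ⟨q, fun h => absurd h hq⟩
  choose y' hy' using hcol
  refine hA.2.2.2 ⟨ζ, fun a => x ⟨yy 0 (π b (v 0) a), hrow a⟩, y', fun a => ?_, fun l q hq => ?_,
    fun a q hq => ?_⟩
  · have h5 := hx ⟨yy 0 (π b (v 0) a), hrow a⟩
    exact ⟨(hyy 0 _ ⟨a, rfl⟩).1.trans h5.1, h5.2⟩
  · exact ⟨(hy' l q hq).1, (hy' l q hq).2.1⟩
  · have h6 : ∀ l, ∃ k : C, y b l k = y' l (q l) := fun l => (hy' l (q l) (hq l)).2.2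
    choose k hk using h6
    have h7 : (fun l => y' l (q l)) = fun l => y b l (k l) := funext fun l => (hk l).symm
    rw [h7]
    have h8 := hyyc (fun _ => π b (v 0) a) (fun _ => ⟨a, rfl⟩)
    have h9 := hlab (fun l => yy l (π b (v 0) a)) (hrow a) k
    rw [h8] at h9
    exact h9

/-- fullness of the trivial property -/
theorem full_true (hT : ∀ l, IsRegularTree (T l))
    (Φ : κ.ord.ToType → B → ((l : Fin (n + 1)) → T l) → Prop) (hΦ : ∀ ζ b y, Φ ζ b y)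
    (s : B → (l : Fin (n + 1)) → T l) : Full Φ s := by
  classical
  intro ζ'
  have h1 : ∀ (l : Fin (n + 1)) (u : T l), ∃ z : T l,
      (u : Node κ.ord.ToType).len < ζ' → (u ≤ z ∧ (z : Node κ.ord.ToType).len = ζ') := by
    intro l u
    by_cases hu : (u : Node κ.ord.ToType).len < ζ'
    · obtain ⟨z, hz1, hz2⟩ := exists_level (hT l) u ζ' hu.le
      exact ⟨z, fun _ => ⟨hz1, hz2⟩⟩
    · exact ⟨u, fun h => absurd h hu⟩
  choose Y hY using h1
  exact ⟨ζ', le_rfl, fun _ => Y, fun b l u _ hul => hY l u hul, fun b u _ => hΦ _ _ _⟩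

/-- **The matrix theorem.** -/
theorem matrixP (hκ : κ.IsInaccessible) (hHL : HLProp κ (n + 1)) (hHL1 : HLProp κ 1)
    (h₀ : IsRegularTree T₀) (hT : ∀ l, IsRegularTree (T l)) (hB : #B < κ) [hBne : Nonempty B]
    (c : T₀ → ((l : Fin (n + 1)) → T l) → ι) (R : B → (l : Fin (n + 1)) → T l) :
    ∀ (m : ℕ) (P : Fin m → T₀) (V : Fin m → B → Set ι),
      (∀ (i : Fin m) (b : B) (p : T₀) (s : (l : Fin (n + 1)) → T l), P i ≤ p →
        (∀ l, R b l ≤ s l) → ¬ AllBoxes c p s (V i b)ᶜ) →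
      ∃ (x : Fin m → κ.ord.ToType → T₀) (s : B → (l : Fin (n + 1)) → T l),
        (∀ i ζ, (x i ζ : Node κ.ord.ToType).len = ζ) ∧ (∀ i ζ ξ, ζ ≤ ξ → x i ζ ≤ x i ξ) ∧
        (∀ i ζ, (P i : Node κ.ord.ToType).len ≤ ζ → P i ≤ x i ζ) ∧ (∀ b l, R b l ≤ s b l) ∧
        Full (fun ζ b y => ∀ i, c (x i ζ) y ∈ V i b) s := by
  intro m
  induction m with
  | zero =>
    intro P V _
    exact ⟨fun i => i.elim0, R, fun i => i.elim0, fun i => i.elim0, fun i => i.elim0,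
      fun b l => le_rfl, full_true hT _ (fun _ _ _ i => i.elim0) R⟩
  | succ m ih =>
    intro P V hno
    obtain ⟨x, s, hx1, hx2, hx3, hs, hfull⟩ := ih (fun i => P i.succ) (fun i => V i.succ)
      (fun i => hno i.succ)
    obtain ⟨p₁, r₁, hp, hr, hg⟩ := exists_stepGood hκ hHL hHL1 h₀ hT hB c _ s hfull (V 0) (P 0)
      (fun b p₁ s₁ h1 h2 => hno 0 b p₁ s₁ h1 fun l => (hs b l).trans (h2 l))
    obtain ⟨x₀, h1, h2, h3, h4⟩ := branch_of_good hκ.isRegular h₀ c _ (V 0) p₁ r₁ hg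
    refine ⟨Fin.cons x₀ x, r₁, ?_, ?_, ?_, fun b l => (hs b l).trans (hr b l), ?_⟩
    · intro i
      refine Fin.cases ?_ (fun j => ?_) i
      · simpa using h1
      · simpa using hx1 j
    · intro i
      refine Fin.cases ?_ (fun j => ?_) i
      · simpa using h2
      · simpa using hx2 j
    · intro i
      refine Fin.cases ?_ (fun j => ?_) i
      · intro ζ hζ
        simp only [Fin.cons_zero]
        have h5 : (x₀ ζ : Node κ.ord.ToType).len = ζ := h1 ζ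
        -- compare with a higher level
        have h6 := h3 (max ζ (p₁ : Node κ.ord.ToType).len) (le_max_right _ _)
        have h7 := h2 ζ (max ζ (p₁ : Node κ.ord.ToType).len) (le_max_left _ _)
        exact Node.le_of_le_of_le (hp.trans h6) h7 (by rw [h5]; exact hζ)
      · simpa using hx3 j
    · intro ζ'
      obtain ⟨ζ, hζ, Y, hY1, hY2⟩ := h4 ζ'
      refine ⟨ζ, hζ, Y, hY1, fun b u hu => ?_⟩
      obtain ⟨h8, h9⟩ := hY2 b u hu
      intro i
      refine Fin.cases ?_ (fun j => ?_) i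
      · simpa using h9
      · simpa using h8 j

/-- **All matrices appear**, two colours. -/
theorem matrix_two (hκ : κ.IsInaccessible) (hHL : HLProp κ (n + 1)) (hHL1 : HLProp κ 1)
    (h₀ : IsRegularTree T₀) (hT : ∀ l, IsRegularTree (T l)) (hB : #B < κ) [hBne : Nonempty B]
    (c : T₀ → ((l : Fin (n + 1)) → T l) → Bool) (t₀ : T₀) (t : (l : Fin (n + 1)) → T l)
    (hno : ∀ (s₀ : T₀) (s : (l : Fin (n + 1)) → T l), t₀ ≤ s₀ → (∀ l, t l ≤ s l) →
      ¬ Homogeneous c s₀ s) (m : ℕ) (P : Fin m → T₀) (hP : ∀ i, t₀ ≤ P i)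
    (R : B → (l : Fin (n + 1)) → T l) (hR : ∀ b l, t l ≤ R b l) (e : Fin m → B → Bool) :
    ∃ (x : Fin m → κ.ord.ToType → T₀) (s : B → (l : Fin (n + 1)) → T l),
      (∀ i ζ, (x i ζ : Node κ.ord.ToType).len = ζ) ∧ (∀ i ζ ξ, ζ ≤ ξ → x i ζ ≤ x i ξ) ∧
      (∀ i ζ, (P i : Node κ.ord.ToType).len ≤ ζ → P i ≤ x i ζ) ∧ (∀ b l, R b l ≤ s b l) ∧
      Full (fun ζ b y => ∀ i, c (x i ζ) y = e i b) s := by
  refine matrixP hκ hHL hHL1 h₀ hT hB c R m P (fun i b => {e i b}) fun i b p s hp hs hall => ?_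
  refine hno p s ((hP i).trans hp) (fun l => (hR b l).trans (hs l))
    (AllBoxes.homogeneous hκ.isRegular h₀ hT (S := {e i b}ᶜ) ?_ hall)
  intro j hj k hk
  have hj' : j ≠ e i b := hj
  have hk' : k ≠ e i b := hk
  revert hj' hk'
  cases j <;> cases k <;> cases e i b <;> simp

end Pool.Agent.Helper39.HT
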