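import Pool.Agent.Helper39.HT.MatC

/-!
# The structure of colorings without homogeneous strong subtrees
-/

set_option autoImplicit false

open Cardinal Set Helper2.HB Pool.Agent.Helper58.HL Pool.Agent.Helper39.HL

namespace Pool.Agent.Helper39.HT

variable {κ : Cardinal.{0}} {n : ℕ} {T₀ : Set (Node κ.ord.ToType)}
  {T : Fin (n + 1) → Set (Node κ.ord.ToType)} {ι : Type}

/-- homogeneous strong subtrees, or all patterns are avoided -/
theorem pattern_ne (hκ : κ.IsInaccessible) (hHL : HLProp κ (n + 1)) (h₀ : IsRegularTree T₀)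
    (hT : ∀ l, IsRegularTree (T l)) (hι : #ι < κ) (c : T₀ → ((l : Fin (n + 1)) → T l) → ι)
    (t₀ : T₀) (t : (l : Fin (n + 1)) → T l)
    (hno : ∀ (s₀ : T₀) (s : (l : Fin (n + 1)) → T l), t₀ ≤ s₀ → (∀ l, t l ≤ s l) →
      ¬ Homogeneous c s₀ s) (Large : Set κ.ord.ToType → Prop) (hL : IsLarge Large) (A : Type)
    (hA : #A < κ) (P : A → T₀) (hP : ∀ a, t₀ ≤ P a) (f : A → ι) :
    GoodL Large c P t (fun a => {f a}ᶜ) := by
  classical
  -- a nonempty index set
  have hone : #PUnit.{1} < κ := by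
    rw [Cardinal.mk_punit]; exact lt_of_lt_of_le one_lt_aleph0 hκ.aleph0_lt.le
  have hA' : #(Option A) < κ := by
    rw [Cardinal.mk_option]
    exact Cardinal.add_lt_of_lt hκ.aleph0_lt.le hA (lt_trans one_lt_aleph0 hκ.aleph0_lt)
  obtain ⟨p, s, h1, h2, h3⟩ := patternL hκ hHL h₀ hT hι c Large hL (A := Option A) hA'
    (fun a => a.elim t₀ P) t (fun a => a.elim {c t₀ t}ᶜ (fun a => {f a}ᶜ)) (by
      intro a s hs hall
      refine hno (a.elim t₀ P) s ?_ hs
        (AllBoxes.homogeneous hκ.isRegular h₀ hT ?_ hall)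
      · cases a with
        | none => exact le_rfl
        | some a => exact hP a
      · cases a with
        | none =>
          intro i hi j hj
          simp only [Option.elim_none, compl_compl, mem_singleton_iff] at hi hj
          rw [hi, hj]
        | some a =>
          intro i hi j hj
          simp only [Option.elim_some, compl_compl, mem_singleton_iff] at hi hj
          rw [hi, hj])
  refine ⟨fun a => p (some a), s, fun a => h1 (some a), h2, fun p' Q hp' hQ => ?_⟩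
  have h4 := h3 (fun a => a.elim (p none) p') Q (by
    intro a
    cases a with
    | none => exact le_rfl
    | some a => exact hp' a) hQ
  have h5 : boxLevels c (fun a : Option A => a.elim (p none) p') Q
      (fun a => a.elim {c t₀ t}ᶜ (fun a => {f a}ᶜ)) ⊆ boxLevels c p' Q (fun a => {f a}ᶜ) := by
    rintro ζ ⟨x, y, hx, hy, hxy⟩
    exact ⟨fun a => x (some a), y, fun a => hx (some a), hy, fun a q hq => hxy (some a) q hq⟩
  rcases hL with rfl | ⟨D, -, rfl⟩
  · exact Set.Nonempty.mono h5 h4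
  · exact Filter.mem_of_superset h4 h5

/-- homogeneous strong subtrees, or all matrices are avoided -/
theorem matrix_ne (hκ : κ.IsInaccessible) (hHL : HLProp κ (n + 1)) (h₀ : IsRegularTree T₀)
    (hT : ∀ l, IsRegularTree (T l)) (c : T₀ → ((l : Fin (n + 1)) → T l) → ι) (t₀ : T₀)
    (t : (l : Fin (n + 1)) → T l)
    (hno : ∀ (s₀ : T₀) (s : (l : Fin (n + 1)) → T l), t₀ ≤ s₀ → (∀ l, t l ≤ s l) →
      ¬ Homogeneous c s₀ s) (m : ℕ) (B : Type) (hB : #B < κ) (P : Fin m → T₀)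
    (hP : ∀ i, t₀ ≤ P i) (R : B → (l : Fin (n + 1)) → T l) (hR : ∀ b l, t l ≤ R b l)
    (e : Fin m → B → ι) :
    ∃ (x : Fin m → κ.ord.ToType → T₀) (s : B → (l : Fin (n + 1)) → T l),
      (∀ i ζ, (x i ζ : Node κ.ord.ToType).len = ζ) ∧ (∀ i ζ ξ, ζ ≤ ξ → x i ζ ≤ x i ξ) ∧
      (∀ i ζ, (P i : Node κ.ord.ToType).len ≤ ζ → P i ≤ x i ζ) ∧ (∀ b l, R b l ≤ s b l) ∧
      Full (fun ζ b y => ∀ i, c (x i ζ) y ≠ e i b) s := by
  classical
  have hB' : #(Option B) < κ := by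
    rw [Cardinal.mk_option]
    exact Cardinal.add_lt_of_lt hκ.aleph0_lt.le hB (lt_trans one_lt_aleph0 hκ.aleph0_lt)
  obtain ⟨x, s, h1, h2, h3, h4, h5⟩ := matrixP hκ hHL (hlProp_one hκ) h₀ hT (B := Option B) hB'
    c (fun b => b.elim t R) m P (fun i b => b.elim {c t₀ t}ᶜ (fun b => {e i b}ᶜ)) (by
      intro i b p s hp hs hall
      refine hno p s ((hP i).trans hp) (fun l => ?_)
        (AllBoxes.homogeneous hκ.isRegular h₀ hT ?_ hall)
      · cases b with
        | none => exact hs l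
        | some b => exact (hR b l).trans (hs l)
      · cases b with
        | none =>
          intro i hi j hj
          simp only [Option.elim_none, compl_compl, mem_singleton_iff] at hi hj
          rw [hi, hj]
        | some b =>
          intro i hi j hj
          simp only [Option.elim_some, compl_compl, mem_singleton_iff] at hi hj
          rw [hi, hj])
  refine ⟨x, fun b => s (some b), h1, h2, h3, fun b l => h4 (some b) l, fun ζ' => ?_⟩
  obtain ⟨ζ, hζ, Y, hY1, hY2⟩ := h5 ζ'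
  exact ⟨ζ, hζ, fun b => Y (some b), fun b => hY1 (some b), fun b u hu i => hY2 (some b) u hu i⟩

/-- **Homogeneous strong subtrees, or all patterns and matrices are avoided.** -/
theorem structure_of_hl (hκ : κ.IsInaccessible) (hHL : HLProp κ (n + 1))
    (h₀ : IsRegularTree T₀) (hT : ∀ l, IsRegularTree (T l)) (hι : #ι < κ)
    (c : T₀ → ((l : Fin (n + 1)) → T l) → ι) (t₀ : T₀) (t : (l : Fin (n + 1)) → T l) :
    (∃ (s₀ : T₀) (s : (l : Fin (n + 1)) → T l), t₀ ≤ s₀ ∧ (∀ l, t l ≤ s l) ∧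
      Homogeneous c s₀ s) ∨
    ((∀ Large : Set κ.ord.ToType → Prop, IsLarge Large → ∀ A : Type, #A < κ →
        ∀ P : A → T₀, (∀ a, t₀ ≤ P a) → ∀ f : A → ι,
          GoodL Large c P t (fun a => {f a}ᶜ)) ∧
      ∀ (m : ℕ) (B : Type), #B < κ → ∀ P : Fin m → T₀, (∀ i, t₀ ≤ P i) →
        ∀ R : B → (l : Fin (n + 1)) → T l, (∀ b l, t l ≤ R b l) → ∀ e : Fin m → B → ι,
          ∃ (x : Fin m → κ.ord.ToType → T₀) (s : B → (l : Fin (n + 1)) → T l),
            (∀ i ζ, (x i ζ : Node κ.ord.ToType).len = ζ) ∧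
            (∀ i ζ ξ, ζ ≤ ξ → x i ζ ≤ x i ξ) ∧
            (∀ i ζ, (P i : Node κ.ord.ToType).len ≤ ζ → P i ≤ x i ζ) ∧
            (∀ b l, R b l ≤ s b l) ∧
            Full (fun ζ b y => ∀ i, c (x i ζ) y ≠ e i b) s) := by
  by_cases h : ∃ (s₀ : T₀) (s : (l : Fin (n + 1)) → T l), t₀ ≤ s₀ ∧ (∀ l, t l ≤ s l) ∧
      Homogeneous c s₀ s
  · exact Or.inl h
  · have hno : ∀ (s₀ : T₀) (s : (l : Fin (n + 1)) → T l), t₀ ≤ s₀ → (∀ l, t l ≤ s l) →
        ¬ Homogeneous c s₀ s := fun s₀ s h1 h2 h3 => h ⟨s₀, s, h1, h2, h3⟩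
    exact Or.inr ⟨fun Large hL A hA P hP f =>
      pattern_ne hκ hHL h₀ hT hι c t₀ t hno Large hL A hA P hP f,
      fun m B hB P hP R hR e => matrix_ne hκ hHL h₀ hT c t₀ t hno m B hB P hP R hR e⟩

/-- **Colorings of finite VC dimension**. -/
theorem vc_of_hl (hκ : κ.IsInaccessible) (hHL : HLProp κ (n + 1)) (h₀ : IsRegularTree T₀)
    (hT : ∀ l, IsRegularTree (T l)) (c : T₀ → ((l : Fin (n + 1)) → T l) → Bool) (t₀ : T₀)
    (t : (l : Fin (n + 1)) → T l) (m : ℕ)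
    (hvc : ¬ ∃ (ζ : κ.ord.ToType) (x : Fin m → T₀) (y : Set (Fin m) → (l : Fin (n + 1)) → T l),
      (∀ i, t₀ ≤ x i ∧ (x i : Node κ.ord.ToType).len = ζ) ∧
      (∀ S l, t l ≤ y S l ∧ (y S l : Node κ.ord.ToType).len = ζ) ∧
      ∀ i S, c (x i) (y S) = true ↔ i ∈ S) :
    ∃ (s₀ : T₀) (s : (l : Fin (n + 1)) → T l), t₀ ≤ s₀ ∧ (∀ l, t l ≤ s l) ∧
      Homogeneous c s₀ s := by
  classical
  by_contra h
  have hno : ∀ (s₀ : T₀) (s : (l : Fin (n + 1)) → T l), t₀ ≤ s₀ → (∀ l, t l ≤ s l) →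
      ¬ Homogeneous c s₀ s := fun s₀ s h1 h2 h3 => h ⟨s₀, s, h1, h2, h3⟩
  have h0 := hκ.isRegular.aleph0_le
  have hNM : NoMaxOrder κ.ord.ToType := Cardinal.noMaxOrder h0
  obtain ⟨x, s, h1, h2, h3, h4, h5⟩ := matrix_ne hκ hHL h₀ hT c t₀ t hno m (Set (Fin m))
    (lt_of_lt_of_le (Cardinal.lt_aleph0_of_finite _) h0) (fun _ => t₀) (fun _ => le_rfl)
    (fun _ => t) (fun _ _ => le_rfl) (fun i S => !decide (i ∈ S))
  obtain ⟨l₁, hl₁⟩ := exists_bound hκ.isRegular (Z := Set (Fin m) × Fin (n + 1))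
    (lt_of_lt_of_le (Cardinal.lt_aleph0_of_finite _) h0)
    (fun z => (s z.1 z.2 : Node κ.ord.ToType).len)
  obtain ⟨ζ', hζ'⟩ := exists_gt (max l₁ (t₀ : Node κ.ord.ToType).len)
  obtain ⟨ζ, hζ, Y, hY1, hY2⟩ := h5 ζ'
  have hs : ∀ S l, (s S l : Node κ.ord.ToType).len < ζ' := fun S l =>
    (hl₁ (S, l)).trans_lt ((le_max_left _ _).trans_lt hζ')
  refine hvc ⟨ζ, fun i => x i ζ, fun S l => Y S l (s S l), fun i => ⟨?_, h1 i ζ⟩,
    fun S l => ?_, fun i S => ?_⟩
  · exact h3 i ζ ((le_max_right _ _).trans (hζ'.le.trans hζ))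
  · have h6 := hY1 S l (s S l) le_rfl (hs S l)
    exact ⟨(h4 S l).trans h6.1, h6.2⟩
  · have h7 := hY2 S (s S) (fun l => ⟨le_rfl, hs S l⟩) i
    by_cases hi : i ∈ S
    · simp only [hi, decide_true, Bool.not_true, ne_eq, Bool.not_eq_false] at h7
      exact ⟨fun _ => hi, fun _ => h7⟩
    · simp only [hi, decide_false, Bool.not_false, ne_eq, Bool.not_eq_true] at h7
      exact ⟨fun h8 => absurd (h7.symm.trans h8) (by simp), fun h8 => absurd h8 hi⟩

end Pool.Agent.Helper39.HT
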