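import Pool.Agent.Helper39.HT.DupP

/-!
# All patterns are good
-/

set_option autoImplicit false

open Cardinal Set Helper2.HB Pool.Agent.Helper58.HL Pool.Agent.Helper39.HL

namespace Pool.Agent.Helper39.HT

variable {κ : Cardinal.{0}} {n : ℕ} {T₀ : Set (Node κ.ord.ToType)}
  {T : Fin (n + 1) → Set (Node κ.ord.ToType)} {ι : Type}

/-- **One level for all labellings.** If families `Q a s` above `s` are given, there is a level
`ζ` such that for every labelling of the tuples of nodes of this level there are `a` and `s` and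
extensions of the nodes in `Q a s` to this level all of whose tuples have the label `a`. -/
theorem exists_level_label (hκ : κ.IsInaccessible) (hHL : HLProp κ (n + 1))
    (hT : ∀ l, IsRegularTree (T l)) {A : Type} (hA : #A < κ) (r : (l : Fin (n + 1)) → T l)
    (Q : A → ((l : Fin (n + 1)) → T l) → (l : Fin (n + 1)) → Set (T l))
    (hQ : ∀ a s, (∀ l, r l ≤ s l) → ∀ l, #(Q a s l) < κ ∧ ∀ q ∈ Q a s l, s l ≤ q) :
    ∃ ζ : κ.ord.ToType, ∀ lab : ((l : Fin (n + 1)) → T l) → A,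
      ∃ (a : A) (s : (l : Fin (n + 1)) → T l),
        (∀ l, r l ≤ s l ∧ (s l : Node κ.ord.ToType).len ≤ ζ) ∧
        ∃ y : (l : Fin (n + 1)) → T l → T l,
          (∀ l, ∀ q ∈ Q a s l, q ≤ y l q ∧ (y l q : Node κ.ord.ToType).len = ζ) ∧
          ∀ q : (l : Fin (n + 1)) → T l, (∀ l, q l ∈ Q a s l) → lab (fun l => y l (q l)) = a := by
  classical
  have hreg := hκ.isRegular
  have hfin : #(Fin (n + 1)) < κ :=
    lt_of_lt_of_le (Cardinal.lt_aleph0_of_finite _) hreg.aleph0_le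
  have hone : #PUnit.{1} < κ := by
    rw [Cardinal.mk_punit]; exact lt_of_lt_of_le one_lt_aleph0 hreg.aleph0_le
  by_contra hcon
  push Not at hcon
  choose lab hlab using hcon
  obtain ⟨s, a, hs, hbox⟩ := box_of_hl hκ hHL hT hone (fun l (_ : PUnit.{1}) => r l) hA
    (fun ζ Y => lab ζ (fun l => Y l PUnit.unit))
  have hrs : ∀ l, r l ≤ s l PUnit.unit := fun l => hs l PUnit.unit
  have hQ' := hQ a (fun l => s l PUnit.unit) hrs
  obtain ⟨l₀, hl₀⟩ := exists_bound hreg hfin (fun l => (s l PUnit.unit : Node κ.ord.ToType).len)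
  obtain ⟨ζ, hζ, y, hy, hyc⟩ := hbox
    (fun l => {z | z PUnit.unit ∈ Q a (fun l => s l PUnit.unit) l}) (by
      intro l
      refine ⟨?_, fun z hz k => (hQ' l).2 _ hz⟩
      have h1 : #{z : PUnit.{1} → T l | z PUnit.unit ∈ Q a (fun l => s l PUnit.unit) l} ≤
          #(Q a (fun l => s l PUnit.unit) l) := by
        refine Cardinal.mk_le_of_injective (f := fun z =>
          (⟨z.1 PUnit.unit, z.2⟩ : Q a (fun l => s l PUnit.unit) l)) ?_
        intro z w h
        refine Subtype.ext (funext fun _ => ?_)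
        exact congrArg Subtype.val h
      exact lt_of_le_of_lt h1 (hQ' l).1) l₀
  obtain ⟨q, hq1, hq2⟩ := hlab ζ a (fun l => s l PUnit.unit)
    (fun l => ⟨hrs l, (hl₀ l).trans hζ⟩) (fun l q => y l (fun _ => q) PUnit.unit)
    (fun l q hq => hy l (fun _ => q) hq PUnit.unit)
  exact hq2 (hyc (fun l _ => q l) hq1)

/-- **The pattern theorem.** If for all `a` and all `s ≥ r` the colours outside `F a` do not have
all boxes above `(P a, s)`, then the pattern `F` is good above `P` and `r`. -/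
theorem patternP (hκ : κ.IsInaccessible) (hHL : HLProp κ (n + 1)) (h₀ : IsRegularTree T₀)
    (hT : ∀ l, IsRegularTree (T l)) (hι : #ι < κ) (c : T₀ → ((l : Fin (n + 1)) → T l) → ι)
    {A : Type} [hAne : Nonempty A] (hA : #A < κ) (P : A → T₀) (r : (l : Fin (n + 1)) → T l)
    (F : A → Set ι)
    (hF : ∀ a s, (∀ l, r l ≤ s l) → ¬ AllBoxes c (P a) s (F a)ᶜ) : GoodP c P r F := by
  classical
  have hreg := hκ.isRegular
  have hlim : ∀ x < κ, 2 ^ x < κ := fun x hx => hκ.isStrongLimit.isStrongPrelimit hx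
  have h0 := hreg.aleph0_le
  have : NoMaxOrder κ.ord.ToType := Cardinal.noMaxOrder h0
  by_contra hbad
  have h1 : ∀ (a : A) (s : (l : Fin (n + 1)) → T l), ∃ (B : Type) (p : B → T₀)
      (Q : (l : Fin (n + 1)) → Set (T l)), (∀ l, r l ≤ s l) →
        (#B < κ ∧ (∀ b, P a ≤ p b) ∧ (∀ l, #(Q l) < κ ∧ ∀ q ∈ Q l, s l ≤ q) ∧
          ¬ HasBoxP c p Q (fun _ => (F a)ᶜ)) := by
    intro a s
    by_cases hs : ∀ l, r l ≤ s l
    · have h2 := hF a s hs
      unfold AllBoxes at h2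
      push Not at h2
      obtain ⟨B, p, Q, h3, h4, h5, h6⟩ := h2
      simp only [Cardinal.mk_ord_toType] at h3 h5
      exact ⟨B, p, Q, fun _ => ⟨h3, h4, h5, h6⟩⟩
    · exact ⟨PUnit, fun _ => P a, fun _ => ∅, fun h => absurd h hs⟩
  choose B p Q hBpQ using h1
  obtain ⟨ζs, hζs⟩ := exists_level_label hκ hHL hT hA r Q
    (fun a s hs => (hBpQ a s hs).2.2.1)
  obtain ⟨ζt, hζt⟩ := exists_gt ζs
  -- the rows
  let Sx : Type := {s : (l : Fin (n + 1)) → T l //
    ∀ l, r l ≤ s l ∧ (s l : Node κ.ord.ToType).len ≤ ζs}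
  have hSx : #Sx < κ := by
    refine lt_of_le_of_lt ?_ (card_lowtup hreg hlim hT ζt)
    exact Cardinal.mk_subtype_mono fun s hs l => (hs l).2.trans_lt hζt
  let Rx : Type := Σ a : A, Σ s : Sx, B a s.1
  have hRa : ∀ a : A, #(Σ s : Sx, B a s.1) < κ := by
    intro a
    rw [Cardinal.mk_sigma]
    exact Cardinal.sum_lt_of_isRegular hreg hSx fun s =>
      (hBpQ a s.1 (fun l => (s.2 l).1)).1
  have hRx : #Rx < κ := by
    rw [Cardinal.mk_sigma]
    exact Cardinal.sum_lt_of_isRegular hreg hA hRa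
  have hE : #((a : A) → Σ s : Sx, B a s.1) < κ := by
    have h2 : #((a : A) → Σ s : Sx, B a s.1) ≤ #(A → Rx) := by
      refine Cardinal.mk_le_of_injective (f := fun e a => (⟨a, e a⟩ : Rx)) ?_
      intro e e' h
      funext a
      have h3 := congrFun h a
      exact eq_of_heq (Sigma.mk.inj h3).2
    refine lt_of_le_of_lt h2 ?_
    rw [← Cardinal.power_def]
    exact pow_lt hlim h0 hRx hA
  -- the columns
  let Qc : (l : Fin (n + 1)) → Set (T l) := fun l =>
    {y | r l ≤ y ∧ (y : Node κ.ord.ToType).len = ζs}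
  have hQc : ∀ l, #(Qc l) < κ ∧ ∀ q ∈ Qc l, r l ≤ q := by
    intro l
    refine ⟨?_, fun q hq => hq.1⟩
    have h2 := (hT l).level ζs
    rw [Cardinal.mk_ord_toType] at h2
    refine lt_of_le_of_lt ?_ h2
    refine Cardinal.mk_le_of_injective (f := fun y : Qc l =>
      (⟨y.1.1, y.1.2, y.2.2⟩ : {t // t ∈ T l ∧ t.len = ζs})) ?_
    intro y z h
    exact Subtype.ext (Subtype.ext (congrArg (fun w => (w.1 : Node κ.ord.ToType)) h))
  obtain ⟨ζ, x, y, hx, hy, hxy⟩ := avoid_sets hκ hHL h₀ hT hι c (Θ := A) hRx hE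
    (fun e a => (⟨a, e a⟩ : Rx)) (fun e a a' h => (Sigma.mk.inj h).1) (fun _ => F)
    (fun m => p m.1 m.2.1.1 m.2.2) r Qc hQc (fun e h => hbad (h.of_le (fun a =>
      (hBpQ a (e a).1.1 (fun l => ((e a).1.2 l).1)).2.1 _) fun l => le_rfl))
  -- the labels
  have hlab : ∀ v : (l : Fin (n + 1)) → T l, ∃ a : A, (∀ l, v l ∈ Qc l) →
      ∀ m : Σ s : Sx, B a s.1, c (x ⟨a, m⟩) (fun l => y l (v l)) ∉ F a := by
    intro v
    by_cases hv : ∀ l, v l ∈ Qc l
    · by_contra hcon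
      push Not at hcon
      have h3 : ∀ a, ∃ m : Σ s : Sx, B a s.1, c (x ⟨a, m⟩) (fun l => y l (v l)) ∈ F a :=
        fun a => (hcon a).2
      choose e he using h3
      exact hxy e v hv he
    · obtain ⟨a⟩ := hAne
      exact ⟨a, fun h => absurd h hv⟩
  choose lab hlab using hlab
  obtain ⟨a, s, hs, yy, hyy, hyyc⟩ := hζs lab
  have hrs : ∀ l, r l ≤ s l := fun l => (hs l).1
  have hB := hBpQ a s hrs
  refine hB.2.2.2 ⟨ζ, fun b => x ⟨a, ⟨s, hs⟩, b⟩, fun l q => y l (yy l q), fun b => ?_,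
    fun l q hq => ?_, fun b q hq => ?_⟩
  · exact hx ⟨a, ⟨s, hs⟩, b⟩
  · have h4 : yy l q ∈ Qc l := ⟨(hrs l).trans (((hB.2.2.1 l).2 q hq).trans (hyy l q hq).1),
      (hyy l q hq).2⟩
    have h5 := hy l (yy l q) h4
    exact ⟨(hyy l q hq).1.trans h5.1, h5.2⟩
  · have h4 : ∀ l, yy l (q l) ∈ Qc l := fun l =>
      ⟨(hrs l).trans (((hB.2.2.1 l).2 (q l) (hq l)).trans (hyy l (q l) (hq l)).1),
      (hyy l (q l) (hq l)).2⟩
    have h5 := hlab (fun l => yy l (q l)) h4
    rw [hyyc q hq] at h5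
    exact h5 ⟨⟨s, hs⟩, b⟩

end Pool.Agent.Helper39.HT
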