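import Pool.Agent.Helper39.HT.Basic

/-!
# Pigeonhole for blocks in finitely many coordinates

Proof by induction on `n` (for all `ι` at once; `pow_lt` in HT/Basic.lean gives powers below `κ`).
`n = 0`: `Λ` any type of size less than `κ` (for example `PUnit`), `τ w = M _`.
`n + 1`: the induction hypothesis for the colour set `ι' := W → ι` gives `Λ'`. Let `Λ` be of
size `succ (max (max θ #Λ') #((Fin n → W × Λ') → ι))` (`Quotient.out`), a regular cardinal below
`κ`, and `φ : Λ' ↪ Λ`. Given `M`, for every `w : W` the map that sends `k : Λ` to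
`fun z : Fin n → W × Λ' => M (Fin.snoc (fun l => ((z l).1, φ (z l).2)) (w, k))` has a fibre of
size `#Λ` over some `e w` (`Cardinal.infinite_pigeonhole_card`). Apply the induction hypothesis
to `M' z := fun w => e w z`: it gives `τ'`, `F'`. Put `τ w := τ' (fun l => w l.castSucc)
(w (Fin.last n))`, `F` = images under `φ` of `F'` in the first `n` coordinates and the fibre of
`e w` in the last coordinate. Compare HT/Dup.lean (`block_choice`) for `n = 2`.
-/

set_option autoImplicit false

open Cardinal Set Helper2.HB Pool.Agent.Helper58.HL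

namespace Pool.Agent.Helper39.HT

variable {κ : Cardinal.{0}}

theorem exists_blocks (hκ : κ.IsInaccessible) {W : Type} (hW : #W < κ) (θ : Cardinal.{0})
    (hθ0 : ℵ₀ ≤ θ) (hθ : θ < κ) (n : ℕ) : ∀ ι : Type, #ι < κ → ∃ Λ : Type, #Λ < κ ∧
      ∀ M : (Fin n → W × Λ) → ι, ∃ (τ : (Fin n → W) → ι) (F : Fin n → W → Set Λ),
        (∀ l w, θ ≤ #(F l w)) ∧ ∀ (w : Fin n → W) (k : Fin n → Λ), (∀ l, k l ∈ F l (w l)) →
          M (fun l => (w l, k l)) = τ w := by
  classical
  have hreg := hκ.isRegular
  have h0 := hreg.aleph0_le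
  have hlim : ∀ x < κ, 2 ^ x < κ := fun x hx => hκ.isStrongLimit.isStrongPrelimit hx
  have hsucc : ∀ x < κ, Order.succ x < κ := fun x hx =>
    lt_of_le_of_lt (Order.succ_le_of_lt (Cardinal.cantor x)) (hlim x hx)
  induction n with
  | zero =>
    intro ι _
    refine ⟨θ.out, by rw [Cardinal.mk_out]; exact hθ, fun M => ?_⟩
    refine ⟨fun _ => M (fun l => Fin.elim0 l), fun l => Fin.elim0 l, fun l => Fin.elim0 l,
      fun w k _ => ?_⟩
    exact congrArg M (funext fun l => Fin.elim0 l)
  | succ n ih =>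
    intro ι hι
    have hWι : #(W → ι) < κ := by
      rw [← Cardinal.power_def]; exact pow_lt hlim h0 hι hW
    obtain ⟨Λ', hΛ', H'⟩ := ih (W → ι) hWι
    have hWΛ : #(W × Λ') < κ := by
      rw [Cardinal.mk_prod]
      simp only [Cardinal.lift_id]
      exact Cardinal.mul_lt_of_lt h0 hW hΛ'
    have hn : #(Fin n) < κ := lt_of_lt_of_le (Cardinal.lt_aleph0_of_finite _) h0
    have hZ : #(Fin n → W × Λ') < κ := by
      rw [← Cardinal.power_def]; exact pow_lt hlim h0 hWΛ hn
    have hT : #((Fin n → W × Λ') → ι) < κ := by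
      rw [← Cardinal.power_def]; exact pow_lt hlim h0 hι hZ
    obtain ⟨μ, hμ⟩ : ∃ μ : Cardinal.{0}, μ = max (max θ #Λ') #((Fin n → W × Λ') → ι) := ⟨_, rfl⟩
    have hμκ : μ < κ := by rw [hμ]; exact max_lt (max_lt hθ hΛ') hT
    have hθμ : θ ≤ μ := by rw [hμ]; exact (le_max_left _ _).trans (le_max_left _ _)
    have hΛμ : #Λ' ≤ μ := by rw [hμ]; exact (le_max_right _ _).trans (le_max_left _ _)
    have hTμ : #((Fin n → W × Λ') → ι) ≤ μ := by rw [hμ]; exact le_max_right _ _
    obtain ⟨Λ, hΛ⟩ : ∃ Λ : Type, #Λ = Order.succ μ := ⟨(Order.succ μ).out, Cardinal.mk_out _⟩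
    have hregΛ : (#Λ).IsRegular := by
      rw [hΛ]; exact Cardinal.isRegular_succ (hθ0.trans hθμ)
    obtain ⟨φ⟩ : #Λ' ≤ #Λ := by rw [hΛ]; exact hΛμ.trans (Order.le_succ _)
    refine ⟨Λ, by rw [hΛ]; exact hsucc _ hμκ, fun M => ?_⟩
    have h1 : ∀ w : W, ∃ e : (Fin n → W × Λ') → ι,
        #Λ ≤ #((fun (k : Λ) (z : Fin n → W × Λ') =>
          M (Fin.snoc (α := fun _ => W × Λ) (fun l => ((z l).1, φ (z l).2)) (w, k))) ⁻¹' {e}) :=
      fun w => Cardinal.infinite_pigeonhole_card _ _ le_rfl hregΛ.aleph0_le (by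
        rw [hregΛ.cof_ord, hΛ]; exact Order.lt_succ_of_le hTμ)
    choose e he using h1
    obtain ⟨τ', F', hF', hM'⟩ := H' (fun z w => e w z)
    refine ⟨fun w => τ' (fun l => w l.castSucc) (w (Fin.last n)),
      fun l => Fin.lastCases (motive := fun _ => W → Set Λ)
        (fun w => (fun (k : Λ) (z : Fin n → W × Λ') =>
          M (Fin.snoc (α := fun _ => W × Λ) (fun l => ((z l).1, φ (z l).2)) (w, k))) ⁻¹' {e w})
        (fun l w => φ '' F' l w) l, ?_, ?_⟩
    · intro l
      induction l using Fin.lastCases with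
      | last =>
        intro w
        beta_reduce
        rw [Fin.lastCases_last]
        exact (hθμ.trans (Order.le_succ _)).trans (hΛ ▸ he w)
      | cast l =>
        intro w
        beta_reduce
        rw [Fin.lastCases_castSucc, Cardinal.mk_image_eq φ.injective]
        exact hF' l w
    · intro w k hk
      have h2 : ∀ l : Fin n, ∃ k' : Λ', k' ∈ F' l (w l.castSucc) ∧ φ k' = k l.castSucc := by
        intro l
        have h3 := hk l.castSucc
        beta_reduce at h3
        rw [Fin.lastCases_castSucc] at h3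
        exact h3
      choose k' hk' hφ using h2
      have h4 := hk (Fin.last n)
      beta_reduce at h4
      rw [Fin.lastCases_last] at h4
      have h5 := congrFun (Set.mem_singleton_iff.1 (Set.mem_preimage.1 h4))
        (fun l => (w l.castSucc, k' l))
      have h6 := congrFun (hM' (fun l => w l.castSucc) k' hk') (w (Fin.last n))
      have h7 : (fun l => (w l, k l)) = Fin.snoc (α := fun _ => W × Λ)
          (fun l => (w l.castSucc, φ (k' l))) (w (Fin.last n), k (Fin.last n)) := by
        funext l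
        induction l using Fin.lastCases with
        | last => rw [Fin.snoc_last]
        | cast l => rw [Fin.snoc_castSucc, hφ]
      rw [h7]
      exact h5.trans h6

end Pool.Agent.Helper39.HT
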