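import Pool.Agent.Helper39.HT.DefP
import Pool.Agent.Helper39.HL.FinalD

/-!
# Strong subtrees from boxes, several dimensions
-/

set_option autoImplicit false

open Cardinal Set Helper2.HB Pool.Agent.Helper58.HL Pool.Agent.Helper39.HL

namespace Pool.Agent.Helper39.HT

variable {κ : Cardinal.{0}} {n : ℕ} {T₀ : Set (Node κ.ord.ToType)}
  {T : Fin (n + 1) → Set (Node κ.ord.ToType)} {ι : Type}

/-- the levels of the boxes of colour `i` above given families -/
def levelsD (c : T₀ → ((l : Fin (n + 1)) → T l) → ι) (i : ι) {W : Type} (p : W → T₀)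
    (q : (l : Fin (n + 1)) → W → T l) : Set κ.ord.ToType :=
  {ζ | ∃ (x : W → T₀) (y : (l : Fin (n + 1)) → W → T l),
    (∀ m, p m ≤ x m ∧ (x m : Node κ.ord.ToType).len = ζ) ∧
    (∀ l j, q l j ≤ y l j ∧ (y l j : Node κ.ord.ToType).len = ζ) ∧
    ∀ (m : W) (j : Fin (n + 1) → W), c (x m) (fun l => y l (j l)) = i}

/-- the conclusion of the Halpern-Lauchli theorem for `c`, through `t₀` and `t` -/
def Homogeneous (c : T₀ → ((l : Fin (n + 1)) → T l) → ι) (t₀ : T₀)
    (t : (l : Fin (n + 1)) → T l) : Prop :=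
  ∃ A : Set κ.ord.ToType, (∀ a, ∃ ζ ∈ A, a < ζ) ∧ ∃ (T₀' : Set (Node κ.ord.ToType))
    (T' : Fin (n + 1) → Set (Node κ.ord.ToType)) (i : ι),
    ((t₀ : Node κ.ord.ToType) ∈ T₀' ∧ IsStrongSubtree T₀ A T₀' ∧
      ((∀ u ∈ T₀, u.len ∈ A → Splits T₀ u) → IsRegularTree T₀')) ∧
    (∀ l, (t l : Node κ.ord.ToType) ∈ T' l ∧ IsStrongSubtree (T l) A (T' l) ∧
      ((∀ u ∈ T l, u.len ∈ A → Splits (T l) u) → IsRegularTree (T' l))) ∧
    ∀ ζ ∈ A, {j | ∃ (x : T₀) (y : (l : Fin (n + 1)) → T l),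
      ((x : Node κ.ord.ToType) ∈ T₀' ∧ (x : Node κ.ord.ToType).len = ζ) ∧
      (∀ l, (y l : Node κ.ord.ToType) ∈ T' l ∧ (y l : Node κ.ord.ToType).len = ζ) ∧
      c x y = j} = {i}

/-- Boxes for all families give strong subtrees. -/
theorem strong_of_all_boxesD (hκ : κ.IsRegular) (h₀ : IsRegularTree T₀)
    (hT : ∀ l, IsRegularTree (T l)) (c : T₀ → ((l : Fin (n + 1)) → T l) → ι) (s₀ : T₀)
    (s : (l : Fin (n + 1)) → T l) (i : ι)
    (hbox : ∀ (W : Type) [Nonempty W], #W < κ → ∀ (p : W → T₀)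
      (q : (l : Fin (n + 1)) → W → T l), (∀ m, s₀ ≤ p m) → (∀ l j, s l ≤ q l j) →
      (levelsD c i p q).Nonempty) : Homogeneous c s₀ s := by
  classical
  have : NoMaxOrder κ.ord.ToType := Cardinal.noMaxOrder hκ.aleph0_le
  let F : Filter κ.ord.ToType :=
    { sets := {U | ∃ (W : Type) (p : W → T₀) (q : (l : Fin (n + 1)) → W → T l), Nonempty W ∧
        #W < κ ∧ (∀ m, s₀ ≤ p m) ∧ (∀ l j, s l ≤ q l j) ∧ levelsD c i p q ⊆ U}
      univ_sets := ⟨PUnit, fun _ => s₀, fun l _ => s l, ⟨PUnit.unit⟩, by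
        rw [Cardinal.mk_punit]; exact lt_of_lt_of_le one_lt_aleph0 hκ.aleph0_le,
        fun _ => le_rfl, fun _ _ => le_rfl, subset_univ _⟩
      sets_of_superset := by
        rintro U V ⟨W, p, q, h1, h2, h3, h4, h5⟩ hUV
        exact ⟨W, p, q, h1, h2, h3, h4, h5.trans hUV⟩
      inter_sets := by
        rintro U V ⟨W, p, q, h1, h2, h3, h4, h5⟩ ⟨W', p', q', h1', h2', h3', h4', h5'⟩
        refine ⟨W ⊕ W', Sum.elim p p', fun l => Sum.elim (q l) (q' l), inferInstance, ?_, ?_,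
          ?_, ?_⟩
        · rw [Cardinal.mk_sum]
          simp only [Cardinal.lift_id]
          exact Cardinal.add_lt_of_lt hκ.aleph0_le h2 h2'
        · rintro (m | m)
          · exact h3 m
          · exact h3' m
        · rintro l (m | m)
          · exact h4 l m
          · exact h4' l m
        · rintro ζ ⟨x, y, hx, hy, hxy⟩
          refine ⟨h5 ⟨fun m => x (Sum.inl m), fun l j => y l (Sum.inl j),
            fun m => hx (Sum.inl m), fun l j => hy l (Sum.inl j),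
            fun m j => hxy _ (fun l => Sum.inl (j l))⟩,
            h5' ⟨fun m => x (Sum.inr m), fun l j => y l (Sum.inr j),
            fun m => hx (Sum.inr m), fun l j => hy l (Sum.inr j),
            fun m j => hxy _ (fun l => Sum.inr (j l))⟩⟩ }
  have hmem : ∀ U, U ∈ F ↔ ∃ (W : Type) (p : W → T₀) (q : (l : Fin (n + 1)) → W → T l),
      Nonempty W ∧ #W < κ ∧ (∀ m, s₀ ≤ p m) ∧ (∀ l j, s l ≤ q l j) ∧ levelsD c i p q ⊆ U :=
    fun U => Iff.rfl
  have hne : F.NeBot := by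
    rw [Filter.neBot_iff, Ne, ← Filter.empty_mem_iff_bot, hmem]
    rintro ⟨W, p, q, h1, h2, h3, h4, h5⟩
    obtain ⟨ζ, hζ⟩ := hbox W h2 p q h3 h4
    exact h5 hζ
  have htail : ∀ a, Ioi a ∈ F := by
    intro a
    obtain ⟨b, hb⟩ := exists_gt (max a (s₀ : Node κ.ord.ToType).len)
    obtain ⟨r, hr, hrl⟩ := exists_level h₀ s₀ b ((le_max_right _ _).trans hb.le)
    rw [hmem]
    refine ⟨PUnit, fun _ => r, fun l _ => s l, ⟨PUnit.unit⟩, ?_, fun _ => hr,
      fun _ _ => le_rfl, ?_⟩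
    · rw [Cardinal.mk_punit]; exact lt_of_lt_of_le one_lt_aleph0 hκ.aleph0_le
    · rintro ζ ⟨x, y, hx, -, -⟩
      have h1 := (hx PUnit.unit).1
      have h2 := (hx PUnit.unit).2
      have h3 : b ≤ ζ := by
        rw [← h2, ← hrl]
        exact (show (r : Node κ.ord.ToType) ≤ (x PUnit.unit : Node κ.ord.ToType) from h1).1
      exact ((le_max_left _ _).trans_lt hb).trans_le h3
  let Ts : Fin (n + 2) → Set (Node κ.ord.ToType) :=
    Fin.cases (motive := fun _ => Set (Node κ.ord.ToType)) T₀ T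
  have hTs : ∀ l, IsRegularTree (Ts l) := by
    intro l
    refine Fin.cases ?_ (fun l => ?_) l
    · exact h₀
    · exact hT l
  let ss : (l : Fin (n + 2)) → Ts l := Fin.cases (motive := fun l => Ts l) s₀ s
  let cs : ((l : Fin (n + 2)) → Ts l) → ι := fun v => c (v 0) (fun l => v l.succ)
  obtain ⟨A, -, hA, T', hT', hc⟩ := strong_of_boxes_fin hκ hTs F htail cs ss i (by
    intro J hJ p hp
    rw [hmem]
    have hinj0 : Function.Injective (fun j : J 0 => (some ⟨0, j⟩ : Option (Σ l, J l))) := by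
      intro j j' h
      simpa using h
    have hinj : ∀ l : Fin (n + 1), Function.Injective
        (fun j : J l.succ => (some ⟨l.succ, j⟩ : Option (Σ l, J l))) := by
      intro l j j' h
      simpa using h
    obtain ⟨p0, hp0⟩ : ∃ p0 : J 0 → T₀, p0 = p 0 := ⟨p 0, rfl⟩
    obtain ⟨p1, hp1⟩ : ∃ p1 : (l : Fin (n + 1)) → J l.succ → T l,
      ∀ (l : Fin (n + 1)) (j : J l.succ), p1 l j = p l.succ j :=
      ⟨fun l => p l.succ, fun _ _ => rfl⟩
    have hsp0 : ∀ j, s₀ ≤ p0 j := by rw [hp0]; exact hp 0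
    have hsp1 : ∀ l j, s l ≤ p1 l j := fun l j => by rw [hp1]; exact hp l.succ j
    obtain ⟨P, hP⟩ : ∃ P : Option (Σ l, J l) → T₀, P = Function.extend
      (fun j : J 0 => (some ⟨0, j⟩ : Option (Σ l, J l))) p0 (fun _ => s₀) := ⟨_, rfl⟩
    obtain ⟨Q, hQ⟩ : ∃ Q : (l : Fin (n + 1)) → Option (Σ l, J l) → T l,
      ∀ l, Q l = Function.extend
        (fun j : J l.succ => (some ⟨l.succ, j⟩ : Option (Σ l, J l))) (p1 l) (fun _ => s l) :=
      ⟨_, fun l => rfl⟩
    refine ⟨Option (Σ l, J l), P, Q, ⟨none⟩, ?_, ?_, ?_, ?_⟩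
    · rw [Cardinal.mk_option]
      refine Cardinal.add_lt_of_lt hκ.aleph0_le ?_ (lt_of_lt_of_le one_lt_aleph0 hκ.aleph0_le)
      rw [Cardinal.mk_sigma]
      exact Cardinal.sum_lt_of_isRegular hκ
        (lt_of_lt_of_le (Cardinal.lt_aleph0_of_finite _) hκ.aleph0_le) hJ
    · intro m
      by_cases hm : ∃ j : J 0, (some ⟨0, j⟩ : Option (Σ l, J l)) = m
      · obtain ⟨j, rfl⟩ := hm
        rw [hP, hinj0.extend_apply]
        exact hsp0 j
      · rw [hP, Function.extend_apply' _ _ _ hm]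
    · intro l m
      by_cases hm : ∃ j : J l.succ, (some ⟨l.succ, j⟩ : Option (Σ l, J l)) = m
      · obtain ⟨j, rfl⟩ := hm
        rw [hQ, (hinj l).extend_apply]
        exact hsp1 l j
      · rw [hQ, Function.extend_apply' _ _ _ hm]
    · rintro ζ ⟨x, y, hx, hy, hxy⟩
      refine ⟨fun l => Fin.cases (motive := fun l => J l → Ts l)
        (fun j => x (some ⟨0, j⟩)) (fun l j => y l (some ⟨l.succ, j⟩)) l, fun l => ?_,
        fun f => ?_⟩
      · refine Fin.cases ?_ (fun l => ?_) l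
        · intro j
          have h1 := hx (some ⟨0, j⟩)
          rw [hP, hinj0.extend_apply, hp0] at h1
          exact h1
        · intro j
          have h1 := hy l (some ⟨l.succ, j⟩)
          rw [hQ, (hinj l).extend_apply, hp1] at h1
          exact h1
      · exact hxy (some ⟨0, f 0⟩) (fun l => some ⟨l.succ, f l.succ⟩)) univ Filter.univ_mem
  refine ⟨A, hA, T' 0, fun l => T' l.succ, i, ⟨(hT' 0).1, (hT' 0).2.1, (hT' 0).2.2.2⟩,
    fun l => ⟨(hT' l.succ).1, (hT' l.succ).2.1, (hT' l.succ).2.2.2⟩, fun ζ hζ => ?_⟩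
  ext j
  constructor
  · rintro ⟨x, y, hx, hy, rfl⟩
    exact hc ζ hζ (fun l => Fin.cases (motive := fun l => Ts l) x y l) fun l => by
      refine Fin.cases ?_ (fun l => ?_) l
      · exact hx
      · exact hy l
  · rintro rfl
    choose v hv hvl using fun l => (hT' l).2.2.1 ζ
    have hvT : ∀ l, v l ∈ Ts l := fun l => (hT' l).2.1.subset (hv l)
    exact ⟨⟨v 0, hvT 0⟩, fun l => ⟨v l.succ, hvT l.succ⟩, ⟨hv 0, hvl 0⟩,
      fun l => ⟨hv l.succ, hvl l.succ⟩, hc ζ hζ (fun l => ⟨v l, hvT l⟩) fun l => ⟨hv l, hvl l⟩⟩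

end Pool.Agent.Helper39.HT
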