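import Pool.Agent.Helper39.HT.PatP
import Pool.Agent.Helper39.HT.StrongD
import Pool.Agent.Helper2.HB.Meas

/-!
# Boxes on almost all levels
-/

set_option autoImplicit false

open Cardinal Set Helper2.HB Pool.Agent.Helper58.HL Pool.Agent.Helper39.HL

namespace Pool.Agent.Helper39.HT

section defs

variable {K : Type} [LinearOrder K] {d : ℕ} {T₀ : Set (Node K)} {T : Fin d → Set (Node K)}
  {ι : Type}

/-- The levels `ζ` of the boxes: there are extensions `x a` of `p a` (`a ∈ A`) and extensions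
`y l q` of all `q ∈ Q l` (`l < d`) of length `ζ` such that the colour of `(x a, (y l (q l))_l)` is
in `F a` for all `a` and all `q l ∈ Q l`. -/
def boxLevels (c : T₀ → ((l : Fin d) → T l) → ι) {A : Type} (p : A → T₀)
    (Q : (l : Fin d) → Set (T l)) (F : A → Set ι) : Set K :=
  {ζ | ∃ (x : A → T₀) (y : (l : Fin d) → T l → T l),
    (∀ a, p a ≤ x a ∧ (x a : Node K).len = ζ) ∧
    (∀ l, ∀ q ∈ Q l, q ≤ y l q ∧ (y l q : Node K).len = ζ) ∧
    ∀ (a : A) (q : (l : Fin d) → T l), (∀ l, q l ∈ Q l) → c (x a) (fun l => y l (q l)) ∈ F a}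

/-- The pattern `F` is good above the nodes `P a` (`a ∈ A`) and `r l` (`l < d`): there are
extensions `p a` of `P a` and `s l` of `r l` such that for all further extensions `p' a` of `p a`
and all families `Q l` of fewer than `κ` extensions of `s l` the set of the levels of the boxes
for `F` is large. -/
def GoodL (Large : Set K → Prop) (c : T₀ → ((l : Fin d) → T l) → ι) {A : Type} (P : A → T₀)
    (r : (l : Fin d) → T l) (F : A → Set ι) : Prop :=
  ∃ (p : A → T₀) (s : (l : Fin d) → T l), (∀ a, P a ≤ p a) ∧ (∀ l, r l ≤ s l) ∧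
    ∀ (p' : A → T₀) (Q : (l : Fin d) → Set (T l)), (∀ a, p a ≤ p' a) →
      (∀ l, #(Q l) < #K ∧ ∀ q ∈ Q l, s l ≤ q) → Large (boxLevels c p' Q F)

/-- `Large` means nonempty, or in a fixed normal ultrafilter. -/
def IsLarge (Large : Set K → Prop) : Prop :=
  Large = Set.Nonempty ∨ ∃ D : Ultrafilter K, IsNormalUlt D ∧ Large = (· ∈ D)

end defs

variable {κ : Cardinal.{0}}

theorem mem_inter_of_card {D : Ultrafilter κ.ord.ToType}
    (hD : IsNormalUlt D) {Z : Type} (hZ : #Z < κ) (A : Z → Set κ.ord.ToType)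
    (hA : ∀ z, A z ∈ D) : (⋂ z, A z) ∈ D := by
  have h1 : (#Z).ord < Ordinal.type (α := κ.ord.ToType) (· < ·) := by
    rw [Ordinal.type_toType]
    exact Cardinal.ord_lt_ord.2 hZ
  obtain ⟨l, hl⟩ := (Ordinal.mem_range_typein_iff (α := κ.ord.ToType) (· < ·)).2 h1
  refine hD.complete' l (le_of_eq ?_) A hA
  have h2 : #(Iio l) = (Ordinal.typein (α := κ.ord.ToType) (· < ·) l).card := rfl
  rw [h2, hl, Cardinal.card_ord]

variable {n : ℕ} {T₀ : Set (Node κ.ord.ToType)}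
  {T : Fin (n + 1) → Set (Node κ.ord.ToType)} {ι : Type}

theorem card_lowrow (hκ : κ.IsRegular) (hlim : ∀ x < κ, 2 ^ x < κ) (h₀ : IsRegularTree T₀)
    {A : Type} (hA : #A < κ) (ζ : κ.ord.ToType) :
    #{p : A → T₀ // ∀ a, (p a : Node κ.ord.ToType).len < ζ} < κ := by
  have h1 : #{p : A → T₀ // ∀ a, (p a : Node κ.ord.ToType).len < ζ} ≤
      #(A → Σ η : Iio ζ, {t // t ∈ T₀ ∧ t.len = (η : κ.ord.ToType)}) := by
    refine Cardinal.mk_le_of_injective (f := fun p a =>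
      (⟨⟨(p.1 a : Node κ.ord.ToType).len, p.2 a⟩, p.1 a, (p.1 a).2, rfl⟩ :
        Σ η : Iio ζ, {t // t ∈ T₀ ∧ t.len = (η : κ.ord.ToType)})) ?_
    intro p p' h
    refine Subtype.ext (funext fun a => Subtype.ext ?_)
    have h2 := congrFun h a
    have key : ∀ z w : (Σ η : Iio ζ, {t // t ∈ T₀ ∧ t.len = (η : κ.ord.ToType)}), z = w →
        (z.2 : Node κ.ord.ToType) = (w.2 : Node κ.ord.ToType) := by
      rintro z w rfl; rfl
    exact key _ _ h2
  refine lt_of_le_of_lt h1 ?_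
  rw [← Cardinal.power_def]
  refine pow_lt hlim hκ.aleph0_le ?_ hA
  rw [Cardinal.mk_sigma]
  refine Cardinal.sum_lt_of_isRegular hκ (Cardinal.mk_Iio_toType_ord_lt ζ) fun η => ?_
  have h2 := h₀.level η.1
  rwa [Cardinal.mk_ord_toType] at h2

/-- From large sets of levels to single levels: patterns that are not good for `c` are not good,
in the weak sense, for a colouring `c'` all of whose boxes are boxes of `c`. -/
theorem transfer (hκ : κ.IsInaccessible) (h₀ : IsRegularTree T₀)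
    (hT : ∀ l, IsRegularTree (T l)) (c : T₀ → ((l : Fin (n + 1)) → T l) → ι)
    (Large : Set κ.ord.ToType → Prop) (hL : IsLarge Large) {E : Type} (hE : #E < κ)
    (A : E → Type) (hA : ∀ e, #(A e) < κ) (P : (e : E) → A e → T₀)
    (r : (l : Fin (n + 1)) → T l) (F : (e : E) → A e → Set ι)
    (hbad : ∀ e, ¬ GoodL Large c (P e) r (F e)) :
    ∃ c' : T₀ → ((l : Fin (n + 1)) → T l) → ι, (∀ e, ¬ GoodP c' (P e) r (F e)) ∧
      ∀ (B : Type) (p : B → T₀) (Q : (l : Fin (n + 1)) → Set (T l)) (G : B → Set ι),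
        HasBoxP c' p Q G → HasBoxP c p Q G := by
  classical
  have hreg := hκ.isRegular
  have hlim : ∀ x < κ, 2 ^ x < κ := fun x hx => hκ.isStrongLimit.isStrongPrelimit hx
  have hNM : NoMaxOrder κ.ord.ToType := Cardinal.noMaxOrder hreg.aleph0_le
  rcases hL with rfl | ⟨D, hD, rfl⟩
  · exact ⟨c, fun e h => hbad e h, fun B p Q G h => h⟩
  have hkill : ∀ (e : E) (p : A e → T₀) (s : (l : Fin (n + 1)) → T l), ∃ (p' : A e → T₀)
      (Q : (l : Fin (n + 1)) → Set (T l)) (Z : Set κ.ord.ToType), Z ∈ D ∧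
        ((∀ a, P e a ≤ p a) → (∀ l, r l ≤ s l) → ((∀ a, p a ≤ p' a) ∧
          (∀ l, #(Q l) < κ ∧ ∀ q ∈ Q l, s l ≤ q) ∧ ∀ ζ ∈ Z, ζ ∉ boxLevels c p' Q (F e))) := by
    intro e p s
    by_cases h : (∀ a, P e a ≤ p a) ∧ (∀ l, r l ≤ s l)
    · have h1 := hbad e
      unfold GoodL at h1
      push Not at h1
      obtain ⟨p', Q, h2, h3, h4⟩ := h1 p s h.1 h.2
      rw [Cardinal.mk_ord_toType] at h3
      exact ⟨p', Q, (boxLevels c p' Q (F e))ᶜ, Ultrafilter.compl_mem_iff_notMem.2 h4,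
        fun _ _ => ⟨h2, h3, fun ζ hζ => hζ⟩⟩
    · exact ⟨p, fun _ => ∅, univ, Filter.univ_mem, fun h1 h2 => absurd ⟨h1, h2⟩ h⟩
  choose p' Q Z hZ hk using hkill
  let Ix : κ.ord.ToType → Type := fun ζ =>
    Σ e : E, {p : A e → T₀ // ∀ a, (p a : Node κ.ord.ToType).len < ζ} ×
      {s : (l : Fin (n + 1)) → T l // ∀ l, (s l : Node κ.ord.ToType).len < ζ}
  have hIx : ∀ ζ, #(Ix ζ) < κ := by
    intro ζ
    rw [Cardinal.mk_sigma]
    refine Cardinal.sum_lt_of_isRegular hreg hE fun e => ?_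
    rw [Cardinal.mk_prod]
    simp only [Cardinal.lift_id]
    exact Cardinal.mul_lt_of_lt hreg.aleph0_le (card_lowrow hreg hlim h₀ (hA e) ζ)
      (card_lowtup hreg hlim hT ζ)
  have hZI : ∀ ζ, (⋂ z : Ix ζ, Z z.1 z.2.1.1 z.2.2.1) ∈ D := fun ζ =>
    mem_inter_of_card hD (hIx ζ) _ fun z => hZ _ _ _
  have hZs := hD.diag _ hZI
  have hnx : ∀ ζ : κ.ord.ToType, ∃ u v, ζ < u ∧ u < v ∧
      ∀ a < v, v ∈ ⋂ z : Ix a, Z z.1 z.2.1.1 z.2.2.1 := by
    intro ζ
    obtain ⟨u, hu⟩ := exists_gt ζ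
    obtain ⟨v, hv1, hv2⟩ := D.nonempty_of_mem (Filter.inter_mem hZs (hD.tail u))
    exact ⟨u, v, hu, hv2, hv1⟩
  choose up nx hup hnx hnxZ using hnx
  have he0 : ∀ x : T₀, ∃ u : T₀, x ≤ u ∧
      (u : Node κ.ord.ToType).len = nx (x : Node κ.ord.ToType).len := fun x =>
    exists_level h₀ x _ ((hup _).trans (hnx _)).le
  have he1 : ∀ l (x : T l), ∃ u : T l, x ≤ u ∧
      (u : Node κ.ord.ToType).len = nx (x : Node κ.ord.ToType).len := fun l x =>
    exists_level (hT l) x _ ((hup _).trans (hnx _)).le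
  choose e0 he0 he0l using he0
  choose e1 he1 he1l using he1
  have key : ∀ (B : Type) (p : B → T₀) (Q : (l : Fin (n + 1)) → Set (T l)) (G : B → Set ι)
      (ζ : κ.ord.ToType), ζ ∈ boxLevels (fun x y => c (e0 x) (fun l => e1 l (y l))) p Q G →
      nx ζ ∈ boxLevels c p Q G := by
    rintro B p Q G ζ ⟨x, y, hx, hy, hxy⟩
    refine ⟨fun a => e0 (x a), fun l q => e1 l (y l q), fun a => ⟨(hx a).1.trans (he0 _), ?_⟩,
      fun l q hq => ⟨(hy l q hq).1.trans (he1 _ _), ?_⟩, hxy⟩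
    · rw [he0l, (hx a).2]
    · rw [he1l, (hy l q hq).2]
  refine ⟨fun x y => c (e0 x) (fun l => e1 l (y l)), fun e hgood => ?_, fun B p Q G h => ?_⟩
  · obtain ⟨p, s, h1, h2, h3⟩ := hgood
    have hk' := hk e p s h1 h2
    obtain ⟨ζ, x, y, hx, hy, hxy⟩ := h3 (p' e p s) (fun l => insert (s l) (Q e p s l)) hk'.1
      (by
        intro l
        refine ⟨?_, ?_⟩
        · rw [Cardinal.mk_ord_toType]
          refine lt_of_le_of_lt Cardinal.mk_insert_le ?_
          exact Cardinal.add_lt_of_lt hreg.aleph0_le (hk'.2.1 l).1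
            (lt_of_lt_of_le one_lt_aleph0 hreg.aleph0_le)
        · rintro q (rfl | hq)
          · exact le_rfl
          · exact (hk'.2.1 l).2 q hq)
    have h4 : ζ ∈ boxLevels (fun x y => c (e0 x) (fun l => e1 l (y l))) (p' e p s) (Q e p s)
        (F e) :=
      ⟨x, y, hx, fun l q hq => hy l q (mem_insert_of_mem _ hq), fun a q hq =>
        hxy a q fun l => mem_insert_of_mem _ (hq l)⟩
    refine hk'.2.2 (nx ζ) ?_ (key _ _ _ _ ζ h4)
    have h5 : ∀ a, (p a : Node κ.ord.ToType).len < up ζ := fun a => by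
      refine lt_of_le_of_lt ?_ (hup ζ)
      rw [← (hx a).2]
      exact (show (p a : Node κ.ord.ToType) ≤ (x a : Node κ.ord.ToType) from
        (hk'.1 a).trans (hx a).1).1
    have h6 : ∀ l, (s l : Node κ.ord.ToType).len < up ζ := fun l => by
      refine lt_of_le_of_lt ?_ (hup ζ)
      rw [← (hy l (s l) (mem_insert _ _)).2]
      exact (show (s l : Node κ.ord.ToType) ≤ (y l (s l) : Node κ.ord.ToType) from
        (hy l (s l) (mem_insert _ _)).1).1
    exact mem_iInter.1 (hnxZ ζ (up ζ) (hnx ζ)) (⟨e, ⟨p, h5⟩, ⟨s, h6⟩⟩ : Ix (up ζ))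
  · obtain ⟨ζ, hζ⟩ := h
    exact ⟨nx ζ, key B p Q G ζ hζ⟩

end Pool.Agent.Helper39.HT
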